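import Pool.Agent.H707F.LF.T_F4
import Pool.Agent.H800R.LFA.Main

/-!
Project LF: independent unitaries of the tracial ultrapower of `N = ℂ^r ⊕ R` need not lift to
independent unitaries.
-/

set_option autoImplicit false

namespace Pool.Agent.H707R.LF

open Pool.Agent.Helper278 Pool.Agent.Helper436.SM Pool.Agent.H800R.LFA

theorem lifting_fails : ∃ (K : Type) (_ : NormedAddCommGroup K) (_ : InnerProductSpace ℂ K)
    (_ : CompleteSpace K) (N : VonNeumannAlgebra K) (τ : Elt N → ℂ) (r : ℕ),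
    IsNormalPositive N τ ∧ IsFaithfulTrace τ ∧
    Nonempty (Elt N ≃⋆ₐ[ℂ] (Fin r → ℂ) × Elt ExR.NP) ∧
    IndepLiftingFails (Elt N) τ ∧ LiftingFails 3 (Elt N) τ ∧
    ¬ LiftsIndependentPairs (Elt N) τ ∧ ¬ LiftsKIndependentPairs 3 (Elt N) τ := by
  obtain ⟨I, J, hI, hJ, Zs, p, q, δ, hb⟩ := exists_badPattern
  exact s_A _ ExR.NP ExR.TP I J Zs p q δ hb

end Pool.Agent.H707R.LF
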