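import Pool.Agent.H707R.LF.DefsB

set_option autoImplicit false

namespace Pool.Agent.H707R.LF

open Pool.Agent.H707R.LF
open Pool.Agent.Helper278 Pool.Agent.Helper436.SM

section cube

variable {κ : Type} [Fintype κ] [DecidableEq κ] {A : Type} [Ring A] [StarRing A]

omit [Fintype κ] in
theorem B1_flp_self (k : κ) (v : κ → Bool) : flp k v k = !v k := by
  unfold flp
  rw [Function.update_self]

omit [Fintype κ] in
theorem B1_flp_ne (k j : κ) (h : j ≠ k) (v : κ → Bool) : flp k v j = v j := by
  unfold flp
  rw [Function.update_of_ne h]

omit [Fintype κ] in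
theorem B1_flp_flp (k : κ) (v : κ → Bool) : flp k (flp k v) = v := by
  funext j
  by_cases h : j = k
  · subst h
    rw [B1_flp_self, B1_flp_self, Bool.not_not]
  · rw [B1_flp_ne k j h, B1_flp_ne k j h]

/-- B1 -/
theorem par_flp (k : κ) (v : κ → Bool) : par (flp k v) = !par v := by
  unfold par
  by_cases hv : v k = true
  · have h1 : Finset.univ.filter (fun j => flp k v j = true) =
        (Finset.univ.filter (fun j => v j = true)).erase k := by
      ext j
      rw [Finset.mem_erase, Finset.mem_filter, Finset.mem_filter]
      by_cases hj : j = k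
      · subst hj
        rw [B1_flp_self, hv]
        simp
      · rw [B1_flp_ne k j hj]
        simp [hj]
    have h2 : k ∈ Finset.univ.filter (fun j => v j = true) :=
      Finset.mem_filter.2 ⟨Finset.mem_univ k, hv⟩
    have h3 : 0 < (Finset.univ.filter (fun j => v j = true)).card := Finset.card_pos.2 ⟨k, h2⟩
    rw [h1, Finset.card_erase_of_mem h2]
    generalize (Finset.univ.filter (fun j => v j = true)).card = c at h3 ⊢
    by_cases h4 : c % 2 = 1
    · have h5 : ¬ (c - 1) % 2 = 1 := by omega
      rw [decide_eq_false h5, decide_eq_true h4]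
      rfl
    · have h5 : (c - 1) % 2 = 1 := by omega
      rw [decide_eq_true h5, decide_eq_false h4]
      rfl
  · have h1 : Finset.univ.filter (fun j => flp k v j = true) =
        insert k (Finset.univ.filter (fun j => v j = true)) := by
      ext j
      rw [Finset.mem_insert, Finset.mem_filter, Finset.mem_filter]
      by_cases hj : j = k
      · subst hj
        rw [B1_flp_self]
        simp [hv]
      · rw [B1_flp_ne k j hj]
        simp [hj]
    have h2 : k ∉ Finset.univ.filter (fun j => v j = true) := by
      rw [Finset.mem_filter]
      exact fun h => hv h.2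
    rw [h1, Finset.card_insert_of_notMem h2]
    generalize (Finset.univ.filter (fun j => v j = true)).card = c
    by_cases h4 : c % 2 = 1
    · have h5 : ¬ (c + 1) % 2 = 1 := by omega
      rw [decide_eq_false h5, decide_eq_true h4]
      rfl
    · have h5 : (c + 1) % 2 = 1 := by omega
      rw [decide_eq_true h5, decide_eq_false h4]
      rfl

/-- B1 : the square identity -/
theorem sq {G : (κ → Bool) → A} (h : HG G) (k l : κ) (hkl : k ≠ l) (v : κ → Bool) :
    G (flp k (flp l v)) * G (flp k v) * G v = -(G (flp k (flp l v)) * G (flp l v) * G v) := by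
  set w := flp k (flp l v) with hw
  have hwk : w k = !v k := by
    rw [hw, B1_flp_self, B1_flp_ne l k hkl]
  have hwl : w l = !v l := by
    rw [hw, B1_flp_ne k l hkl.symm, B1_flp_self]
  have hwv : w ≠ v := by
    intro h1
    rw [h1] at hwk
    cases hvk : v k <;> rw [hvk] at hwk <;> simp at hwk
  have hpw : par w = par v := by
    rw [hw, par_flp, par_flp, Bool.not_not]
  have h0 : G w * G v = 0 := h.orth w v hwv hpw
  have hsum := h.sum (!par v)
  have h1 : ∑ u ∈ Finset.univ.filter (fun u => par u = !par v), G w * G u * G v = 0 := by
    rw [← Finset.sum_mul, ← Finset.mul_sum, hsum, mul_one, h0]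
  have ha : flp k v ∈ Finset.univ.filter (fun u : κ → Bool => par u = !par v) :=
    Finset.mem_filter.2 ⟨Finset.mem_univ _, par_flp k v⟩
  have hb : flp l v ∈ Finset.univ.filter (fun u : κ → Bool => par u = !par v) :=
    Finset.mem_filter.2 ⟨Finset.mem_univ _, par_flp l v⟩
  have hab : flp k v ≠ flp l v := by
    intro h2
    have h3 := congrFun h2 k
    rw [B1_flp_self, B1_flp_ne l k hkl] at h3
    cases hvk : v k <;> rw [hvk] at h3 <;> simp at h3
  have hzero : ∀ u ∈ Finset.univ.filter (fun u : κ → Bool => par u = !par v),
      u ∉ ({flp k v, flp l v} : Finset (κ → Bool)) → G w * G u * G v = 0 := by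
    intro u hu hu2
    rw [Finset.mem_insert, Finset.mem_singleton, not_or] at hu2
    have hpu : par u = !par v := (Finset.mem_filter.1 hu).2
    have hpuv : par u ≠ par v := by
      rw [hpu]
      cases par v <;> simp
    have hpwu : par w ≠ par u := by
      rw [hpw]
      exact hpuv.symm
    by_cases c1 : ∀ j, v ≠ flp j u
    · rw [mul_assoc, h.nonadj u v hpuv c1, mul_zero]
    · by_cases c2 : ∀ j, u ≠ flp j w
      · rw [h.nonadj w u hpwu c2, zero_mul]
      · exfalso
        push Not at c1 c2
        obtain ⟨j, hj⟩ := c1
        obtain ⟨j2, hj2⟩ := c2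
        have huj : u = flp j v := by
          rw [hj, B1_flp_flp]
        have hjk : j ≠ k := by
          intro h3
          rw [h3] at huj
          exact hu2.1 huj
        have hjl : j ≠ l := by
          intro h3
          rw [h3] at huj
          exact hu2.2 huj
        have e1 : flp j v = flp j2 w := by
          rw [← huj, hj2]
        have ek := congrFun e1 k
        have el := congrFun e1 l
        rw [B1_flp_ne j k hjk.symm] at ek
        rw [B1_flp_ne j l hjl.symm] at el
        have hk2 : j2 = k := by
          by_contra h3
          rw [B1_flp_ne j2 k (fun h4 => h3 h4.symm), hwk] at ek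
          cases hvk : v k <;> rw [hvk] at ek <;> simp at ek
        have hl2 : j2 = l := by
          by_contra h3
          rw [B1_flp_ne j2 l (fun h4 => h3 h4.symm), hwl] at el
          cases hvl : v l <;> rw [hvl] at el <;> simp at el
        exact hkl (hk2.symm.trans hl2)
  have hsub : ({flp k v, flp l v} : Finset (κ → Bool)) ⊆
      Finset.univ.filter (fun u : κ → Bool => par u = !par v) := by
    intro u hu
    rw [Finset.mem_insert, Finset.mem_singleton] at hu
    rcases hu with rfl | rfl
    · exact ha
    · exact hb
  rw [← Finset.sum_subset hsub hzero, Finset.sum_pair hab] at h1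
  exact eq_neg_of_add_eq_zero_left h1

end cube

end Pool.Agent.H707R.LF
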