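import Pool.Agent.H707F.LF.T_B2
import Pool.Agent.H707F.LF.T_B3
import Pool.Agent.H707R.LF.DefsB

set_option autoImplicit false

namespace Pool.Agent.H707R.LF

open Pool.Agent.Helper278 Pool.Agent.Helper436.SM

section cube

variable {κ : Type} [Fintype κ] [DecidableEq κ] {A : Type} [Ring A] [StarRing A]

theorem isZ_comm {rp : A → A} {ℓ : (κ → Bool) → Ctx} {r : (κ → Bool) → Out → A} {P : A}
    {T : (κ → Bool) → A} (h : Glue rp ℓ r P T) {ζ : A} (hζ : IsZ (zO (vG r)) ζ) :
    (∀ v, ζ * vG r v = vG r v * ζ) ∧ ζ * P = P * ζ ∧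
      (∀ v o, r v o * ζ * P = ζ * r v o * P) ∧ ∀ y, y * ζ * P = 0 → y * P = 0 := by
  have hG := HC_HG h.hc
  induction hζ with
  | one =>
    refine ⟨fun v => by simp, by simp, fun v o => by simp, fun y hy => by simpa using hy⟩
  | mul k x hx ih =>
    obtain ⟨i1, i2, i3, i4⟩ := ih
    refine ⟨fun v => ?_, ?_, fun v o => ?_, fun y hy => ?_⟩
    · have e := G_zO hG k v
      have e' : zO (vG r) k * vG r v = vG r v * zO (vG r) k := by rw [e.1, e.2]
      calc zO (vG r) k * x * vG r v = zO (vG r) k * (x * vG r v) := by rw [mul_assoc]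
        _ = zO (vG r) k * (vG r v * x) := by rw [i1]
        _ = zO (vG r) k * vG r v * x := by rw [mul_assoc]
        _ = vG r v * zO (vG r) k * x := by rw [e']
        _ = vG r v * (zO (vG r) k * x) := by rw [mul_assoc]
    · calc zO (vG r) k * x * P = zO (vG r) k * (x * P) := by rw [mul_assoc]
        _ = zO (vG r) k * (P * x) := by rw [i2]
        _ = zO (vG r) k * P * x := by rw [mul_assoc]
        _ = P * zO (vG r) k * x := by rw [h.supp.comm k]
        _ = P * (zO (vG r) k * x) := by rw [mul_assoc]
    · calc r v o * (zO (vG r) k * x) * P = r v o * zO (vG r) k * (x * P) := by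
            simp only [mul_assoc]
        _ = r v o * zO (vG r) k * (P * x) := by rw [i2]
        _ = r v o * zO (vG r) k * P * x := by simp only [mul_assoc]
        _ = zO (vG r) k * r v o * P * x := by rw [h.rz v o k]
        _ = zO (vG r) k * (r v o * (P * x)) := by simp only [mul_assoc]
        _ = zO (vG r) k * (r v o * (x * P)) := by rw [i2]
        _ = zO (vG r) k * (r v o * x * P) := by simp only [mul_assoc]
        _ = zO (vG r) k * (x * r v o * P) := by rw [i3 v o]
        _ = zO (vG r) k * x * r v o * P := by simp only [mul_assoc]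
    · refine h.supp.cancel k y (i4 (y * zO (vG r) k) ?_)
      rw [← hy]
      simp only [mul_assoc]

theorem rick_orth {rp : A → A} (hR : Rick rp) (x y : A) (h : star x * y = 0) :
    rp x * rp y = 0 := by
  have h1 : star x * rp y = 0 := hR.ann _ _ h
  have h2 : rp y * x = 0 := by
    have := congrArg star h1
    simpa [star_mul, hR.sa] using this
  have h3 : rp y * rp x = 0 := hR.ann _ _ h2
  have := congrArg star h3
  simpa [star_mul, hR.sa] using this

theorem rick_eq {rp : A → A} (hR : Rick rp) (x p : A) (hp : star p = p) (h1 : p * x = x) :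
    p * rp x = rp x ∧ rp x * p = rp x := by
  have h2 : (1 - p) * x = 0 := by rw [sub_mul, one_mul, h1, sub_self]
  have h3 : (1 - p) * rp x = 0 := hR.ann _ _ h2
  have h4 : p * rp x = rp x := by
    rw [sub_mul, one_mul, sub_eq_zero] at h3
    exact h3.symm
  refine ⟨h4, ?_⟩
  have := congrArg star h4
  simpa [star_mul, hR.sa, hp] using this

end cube

end Pool.Agent.H707R.LF
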