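import Pool.Agent.H707F.LF.T_B3
import Pool.Agent.H707F.LF.T_B7
import Pool.Agent.H707F.LF.T_B8
import Pool.Agent.H707R.LF.DefsB

set_option autoImplicit false

namespace Pool.Agent.H707R.LF

open Pool.Agent.Helper278 Pool.Agent.Helper436.SM

section cube

variable {κ : Type} [Fintype κ] [DecidableEq κ] {A : Type} [Ring A] [StarRing A]

private theorem b10_Gr {ℓ : (κ → Bool) → Ctx} {r : (κ → Bool) → Out → A} (h : HC ℓ r)
    (v : κ → Bool) (o : Out) : vG r v * r v o = r v o := by
  unfold vG
  rw [Finset.sum_mul, Finset.sum_eq_single o]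
  · exact h.hp.idem v o
  · intro o' _ ho'
    exact h.hp.orth v v o' o (Or.inr ho') rfl
  · intro ho
    exact absurd (Finset.mem_univ o) ho

private theorem b10_rG {ℓ : (κ → Bool) → Ctx} {r : (κ → Bool) → Out → A} (h : HC ℓ r)
    (v : κ → Bool) (o : Out) : r v o * vG r v = r v o := by
  unfold vG
  rw [Finset.mul_sum, Finset.sum_eq_single o]
  · exact h.hp.idem v o
  · intro o' _ ho'
    exact h.hp.orth v v o o' (Or.inr (Ne.symm ho')) rfl
  · intro ho
    exact absurd (Finset.mem_univ o) ho

private theorem b10_PG {rp : A → A} {ℓ : (κ → Bool) → Ctx} {r : (κ → Bool) → Out → A} {P : A}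
    {T : (κ → Bool) → A} (h : Glue rp ℓ r P T) (v : κ → Bool) :
    P * vG r v = vG r v * P := by
  unfold vG
  rw [Finset.sum_mul, Finset.mul_sum]
  exact Finset.sum_congr rfl (fun o _ => (h.rP v o).symm)

omit [Fintype κ] in
private theorem b10_flp (k : κ) (v : κ → Bool) : flp k (flp k v) = v := by
  funext j
  unfold flp
  by_cases hj : j = k
  · subst hj
    simp
  · simp [Function.update_of_ne hj]

private theorem b10_PT {rp : A → A} {ℓ : (κ → Bool) → Ctx} {r : (κ → Bool) → Out → A} {P : A}
    {T : (κ → Bool) → A} (h : Glue rp ℓ r P T) : ∀ (n : ℕ) (v : κ → Bool),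
    (Finset.univ.filter (fun k => v k = true)).card = n → P * T v = T v * P := by
  intro n
  induction n with
  | zero =>
    intro v hv
    have hv0 : v = fun _ => false := by
      funext k
      rw [Finset.card_eq_zero, Finset.filter_eq_empty_iff] at hv
      have := hv (Finset.mem_univ k)
      simpa using this
    rw [hv0, h.paths.zero]
    exact b10_PG h _
  | succ n ih =>
    intro v hv
    have hne : (Finset.univ.filter (fun k => v k = true)).Nonempty := by
      rw [← Finset.card_pos, hv]
      omega
    obtain ⟨k, hk⟩ := hne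
    have hk1 : v k = true := by simpa using hk
    have hw : (flp k v) k = false := by
      unfold flp
      simp [hk1]
    have hset : Finset.univ.filter (fun j => flp k v j = true) =
        (Finset.univ.filter (fun j => v j = true)).erase k := by
      ext j
      by_cases hj : j = k
      · subst hj
        simp [hw]
      · have : flp k v j = v j := by
          unfold flp
          rw [Function.update_of_ne hj]
        simp [hj, this]
    have hcard : (Finset.univ.filter (fun j => flp k v j = true)).card = n := by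
      rw [hset, Finset.card_erase_of_mem hk, hv]
      rfl
    have hi := ih (flp k v) hcard
    have hs := h.paths.step (flp k v) k hw
    rw [b10_flp] at hs
    have hg := b10_PG h v
    rcases hs with hs | hs
    · rw [hs, ← mul_assoc, hg, mul_assoc, hi, ← mul_assoc]
    · rw [hs, mul_neg, neg_mul, ← mul_assoc, hg, mul_assoc, hi, ← mul_assoc]

/-- B10 -/
theorem pv_adj {rp : A → A} {ℓ : (κ → Bool) → Ctx} {r : (κ → Bool) → Out → A} {P : A}
    {T : (κ → Bool) → A} (h : Glue rp ℓ r P T) (v : κ → Bool) (k : κ) (hk : v k = false)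
    (o o' : Out) (hz : r v o * r (flp k v) o' = 0) :
    pv rp r P T v o * pv rp r P T (flp k v) o' = 0 := by
  have hHG := HC_HG h.hc
  obtain ⟨ζ, hζ, hT1, hT2⟩ := exists_zeta hHG h.paths v
  obtain ⟨c1, c2, c3, c4⟩ := isZ_comm h hζ
  unfold pv
  apply rick_orth h.rick
  have hs : star (star (T v) * r v o * P) = P * r v o * T v := by
    rw [star_mul, star_mul, star_star, h.hc.hp.sa, h.supp.sa, mul_assoc]
  rw [hs]
  have key : P * r v o * T v * (star (T v) * vG r (flp k v) * r (flp k v) o' * P) = 0 := by
    have e1 : P * r v o * T v * (star (T v) * vG r (flp k v) * r (flp k v) o' * P) =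
        P * r v o * (T v * star (T v)) * (vG r (flp k v) * r (flp k v) o') * P := by
      noncomm_ring
    rw [e1, hT1, b10_Gr h.hc, c1 v]
    have e2 : P * r v o * (vG r v * ζ) * r (flp k v) o' * P =
        P * (r v o * vG r v) * ζ * (r (flp k v) o' * P) := by
      noncomm_ring
    rw [e2, b10_rG h.hc, h.rP]
    have e3 : P * r v o * ζ * (P * r (flp k v) o') =
        P * (r v o * ζ * P) * r (flp k v) o' := by
      noncomm_ring
    rw [e3, c3 v o]
    have e4 : P * (ζ * r v o * P) * r (flp k v) o' =
        P * ζ * r v o * (P * r (flp k v) o') := by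
      noncomm_ring
    rw [e4, ← h.rP]
    have e5 : P * ζ * r v o * (r (flp k v) o' * P) =
        P * ζ * (r v o * r (flp k v) o') * P := by
      noncomm_ring
    rw [e5, hz, mul_zero, zero_mul]
  rcases h.paths.step v k hk with hs | hs
  · rw [hs, star_mul, hHG.sa]
    exact key
  · rw [hs, star_neg, star_mul, hHG.sa, neg_mul, neg_mul, mul_neg, key, neg_zero]

/-- B10 -/
theorem e_ne {rp : A → A} {ℓ : (κ → Bool) → Ctx} {r : (κ → Bool) → Out → A} {P : A}
    {T : (κ → Bool) → A} (h : Glue rp ℓ r P T) (hP : P ≠ 0) :
    P * vG r (fun _ => false) ≠ 0 := by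
  intro h0
  apply hP
  have hHG := HC_HG h.hc
  have hG : ∀ v, vG r v * P = 0 := by
    intro v
    obtain ⟨ζ, hζ, hT1, hT2⟩ := exists_zeta hHG h.paths v
    obtain ⟨c1, c2, c3, c4⟩ := isZ_comm h hζ
    have hPT := b10_PT h _ v rfl
    have hTP : T v * P = 0 := by
      rw [← h.paths.right v, mul_assoc, ← b10_PG h, h0, mul_zero]
    have hPTs : P * star (T v) = star (T v) * P := by
      have := congrArg star hPT
      rw [star_mul, star_mul, h.supp.sa] at this
      exact this.symm
    have hz : T v * star (T v) * P = 0 := by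
      rw [mul_assoc, ← hPTs, ← mul_assoc, hTP, zero_mul]
    rw [hT1, c1 v] at hz
    exact c4 _ hz
  have hsum := hHG.sum false
  have : (∑ v ∈ Finset.univ.filter (fun v => par v = false), vG r v) * P = 0 := by
    rw [Finset.sum_mul]
    exact Finset.sum_eq_zero (fun v _ => hG v)
  rw [hsum, one_mul] at this
  exact this

end cube

end Pool.Agent.H707R.LF
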