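import Pool.Agent.H707F.LF.T_B3
import Pool.Agent.H707F.LF.T_B7
import Pool.Agent.H707F.LF.T_B8
import Pool.Agent.H707R.LF.DefsB

/-! B9 (helper196): the transported projections are a partition of `P * G 0`. -/

set_option autoImplicit false

namespace Pool.Agent.H707R.LF

open Pool.Agent.Helper278 Pool.Agent.Helper436.SM

section

set_option linter.unusedSectionVars false

variable {κ : Type} [Fintype κ] [DecidableEq κ] {A : Type} [Ring A] [StarRing A]

private theorem B9_r_orth {r : (κ → Bool) → Out → A} (h : HP r) (v : κ → Bool) (o o' : Out)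
    (ho : o ≠ o') : r v o * r v o' = 0 := h.orth v v o o' (Or.inr ho) rfl

private theorem B9_G_r {r : (κ → Bool) → Out → A} (h : HP r) (v : κ → Bool) (o : Out) :
    vG r v * r v o = r v o := by
  unfold vG
  rw [Finset.sum_mul, Finset.sum_eq_single o]
  · exact h.idem v o
  · intro o' _ ho
    exact B9_r_orth h v o' o ho
  · intro h1
    exact absurd (Finset.mem_univ o) h1

private theorem B9_PG {r : (κ → Bool) → Out → A} {P : A} (h : ∀ v o, r v o * P = P * r v o)
    (v : κ → Bool) : vG r v * P = P * vG r v := by
  unfold vG
  rw [Finset.sum_mul, Finset.mul_sum]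
  exact Finset.sum_congr rfl fun o _ => h v o

private theorem B9_PT {G T : (κ → Bool) → A} (hT : Paths G T) {P : A}
    (hPG : ∀ v, G v * P = P * G v) (v : κ → Bool) : T v * P = P * T v := by
  have key : ∀ n : ℕ, ∀ v : κ → Bool, (Finset.univ.filter (fun k => v k = true)).card = n →
      T v * P = P * T v := by
    intro n
    induction n with
    | zero =>
      intro v hv
      have h1 : v = fun _ => false := by
        funext k
        rw [Finset.card_eq_zero, Finset.filter_eq_empty_iff] at hv
        have := hv (Finset.mem_univ k)
        simpa using this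
      rw [h1, hT.zero]
      exact hPG _
    | succ n ih =>
      intro v hv
      obtain ⟨k, hk⟩ : (Finset.univ.filter (fun k => v k = true)).Nonempty := by
        rw [← Finset.card_pos, hv]; omega
      have hk' : v k = true := (Finset.mem_filter.1 hk).2
      have hw : flp k v k = false := by simp [flp, hk']
      have hf : flp k (flp k v) = v := by
        funext l
        unfold flp
        by_cases h : l = k
        · subst h; simp
        · simp [h]
      have hc : (Finset.univ.filter (fun l => flp k v l = true)).card = n := by
        have h2 : Finset.univ.filter (fun l => flp k v l = true) =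
            (Finset.univ.filter (fun l => v l = true)).erase k := by
          ext l
          simp only [Finset.mem_filter, Finset.mem_univ, true_and, Finset.mem_erase]
          by_cases h : l = k
          · subst h; simp [flp, hk']
          · simp [flp, h]
        rw [h2, Finset.card_erase_of_mem hk, hv]
        omega
      have h3 := ih (flp k v) hc
      have h4 := hT.step (flp k v) k hw
      rw [hf] at h4
      have h5 : G v * T (flp k v) * P = P * (G v * T (flp k v)) := by
        rw [mul_assoc, h3, ← mul_assoc, hPG, mul_assoc]
      rcases h4 with h4 | h4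
      · rw [h4]; exact h5
      · rw [h4, neg_mul, mul_neg, h5]
  exact key _ v rfl

theorem pv_orth {rp : A → A} {ℓ : (κ → Bool) → Ctx} {r : (κ → Bool) → Out → A} {P : A}
    {T : (κ → Bool) → A} (h : Glue rp ℓ r P T) (v : κ → Bool) (o o' : Out) (ho : o ≠ o') :
    pv rp r P T v o * pv rp r P T v o' = 0 := by
  obtain ⟨ζ, hζ, h1, h2⟩ := exists_zeta (HC_HG h.hc) h.paths v
  obtain ⟨-, -, z3, -⟩ := isZ_comm h hζ
  apply rick_orth h.rick
  rw [star_mul, star_mul, star_star, h.supp.sa, h.hc.hp.sa]
  calc P * (r v o * T v) * (star (T v) * r v o' * P)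
      = P * (r v o * (T v * star (T v)) * r v o') * P := by noncomm_ring
    _ = P * (r v o * (ζ * vG r v) * r v o') * P := by rw [h1]
    _ = P * (r v o * ζ) * (vG r v * r v o') * P := by noncomm_ring
    _ = P * (r v o * ζ) * (r v o' * P) := by rw [B9_G_r h.hc.hp]; noncomm_ring
    _ = P * (r v o * ζ * P) * r v o' := by rw [h.rP]; noncomm_ring
    _ = P * ζ * (r v o * P) * r v o' := by rw [z3]; noncomm_ring
    _ = P * ζ * P * (r v o * r v o') := by rw [h.rP]; noncomm_ring
    _ = 0 := by rw [B9_r_orth h.hc.hp v o o' ho, mul_zero]

theorem pv_sum {rp : A → A} {ℓ : (κ → Bool) → Ctx} {r : (κ → Bool) → Out → A} {P : A}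
    {T : (κ → Bool) → A} (h : Glue rp ℓ r P T) (v : κ → Bool) :
    ∑ o, pv rp r P T v o = P * vG r (fun _ => false) := by
  have hG := HC_HG h.hc
  obtain ⟨ζ, hζ, h1, h2⟩ := exists_zeta hG h.paths v
  obtain ⟨z1, z2, z3, z4⟩ := isZ_comm h hζ
  have hPG := B9_PG h.rP
  have hPT := B9_PT h.paths hPG v
  set g := vG r (fun _ => false) with hg
  have hgg : g * g = g := hG.idem _
  have hgs : star g = g := hG.sa _
  have hgP : g * P = P * g := hPG _
  have hPP := h.supp.idem
  have hPs := h.supp.sa
  have hsT : star (T v) * P = P * star (T v) := by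
    have := congrArg star hPT
    rw [star_mul, star_mul, hPs] at this
    exact this.symm
  have hgT : g * star (T v) = star (T v) := by
    have := congrArg star (h.paths.right v)
    rw [star_mul, hgs] at this
    exact this
  have hTG : star (T v) * vG r v = star (T v) := by
    have := congrArg star (h.paths.left v)
    rw [star_mul, hG.sa] at this
    exact this
  have he : star (P * g) = P * g := by rw [star_mul, hPs, hgs, hgP]
  have hex : ∀ o, (P * g) * (star (T v) * r v o * P) = star (T v) * r v o * P := by
    intro o
    calc (P * g) * (star (T v) * r v o * P) = P * (g * star (T v)) * r v o * P := by noncomm_ring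
      _ = (P * star (T v)) * r v o * P := by rw [hgT]
      _ = star (T v) * (P * r v o) * P := by rw [← hsT]; noncomm_ring
      _ = star (T v) * r v o * (P * P) := by rw [← h.rP]; noncomm_ring
      _ = _ := by rw [hPP]
  have hrick : ∀ o, (P * g) * pv rp r P T v o = pv rp r P T v o ∧
      pv rp r P T v o * (P * g) = pv rp r P T v o := fun o =>
    rick_eq h.rick _ _ he (hex o)
  set s := ∑ o, pv rp r P T v o with hs
  have hse : s * (P * g) = s := by
    rw [hs, Finset.sum_mul]
    exact Finset.sum_congr rfl fun o _ => (hrick o).2
  have hmul : ∀ o, pv rp r P T v o * (star (T v) * r v o * P) = star (T v) * r v o * P :=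
    fun o => h.rick.mul _
  have hsx : ∀ o, s * (star (T v) * r v o * P) = star (T v) * r v o * P := by
    intro o
    rw [hs, Finset.sum_mul, Finset.sum_eq_single o]
    · exact hmul o
    · intro o' _ ho
      rw [← hmul o, ← mul_assoc, pv_orth h v o' o ho, zero_mul]
    · intro h1
      exact absurd (Finset.mem_univ o) h1
  have hsum : ∑ o, star (T v) * r v o * P = star (T v) * P := by
    rw [← Finset.sum_mul, ← Finset.mul_sum]
    have : ∑ o, r v o = vG r v := rfl
    rw [this, hTG]
  have hsT2 : s * (star (T v) * P) = star (T v) * P := by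
    rw [← hsum, Finset.mul_sum]
    exact Finset.sum_congr rfl fun o _ => hsx o
  have heT : (P * g) * (star (T v) * P) = star (T v) * P := by
    rw [← hsum, Finset.mul_sum]
    exact Finset.sum_congr rfl fun o _ => hex o
  have h0 : (P * g - s) * g * ζ * P = 0 := by
    calc (P * g - s) * g * ζ * P = (P * g - s) * (ζ * g) * P := by rw [z1]; noncomm_ring
      _ = (P * g - s) * (star (T v) * T v) * P := by rw [h2]
      _ = (P * g - s) * star (T v) * (T v * P) := by noncomm_ring
      _ = ((P * g) * (star (T v) * P) - s * (star (T v) * P)) * T v := by rw [hPT]; noncomm_ring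
      _ = 0 := by rw [heT, hsT2, sub_self, zero_mul]
  have h3 := z4 _ h0
  have h4 : (P * g - s) * g * P = P * g - s := by
    calc (P * g - s) * g * P = P * ((g * g) * P) - s * (g * P) := by noncomm_ring
      _ = (P * P) * g - s * (P * g) := by rw [hgg, hgP]; noncomm_ring
      _ = _ := by rw [hPP, hse]
  rw [h4] at h3
  exact (sub_eq_zero.1 h3).symm

end

end Pool.Agent.H707R.LF
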