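import Pool.Agent.H707F.LF.T_B3
import Pool.Agent.H707F.LF.T_B9
import Pool.Agent.H707R.LF.DefsB

set_option autoImplicit false

open scoped Kronecker

namespace Pool.Agent.H707R.LF

open Pool.Agent.Helper278 Pool.Agent.Helper436.SM

section cube

variable {κ : Type} [Fintype κ] [DecidableEq κ] {A : Type} [Ring A] [StarRing A]

private theorem B11_first {rp : A → A} {ℓ : (κ → Bool) → Ctx} {r : (κ → Bool) → Out → A} {P : A}
    {T : (κ → Bool) → A} (h : Glue rp ℓ r P T) (v : κ → Bool) (k : κ) (hk : v k = false)
    (hl : ℓ (flp k v) = ℓ v) (o : Out) : pv rp r P T (flp k v) o = pv rp r P T v o := by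
  have hG := HC_HG h.hc
  have hidem : ∀ u o, pv rp r P T u o * pv rp r P T u o = pv rp r P T u o :=
    fun u o => h.rick.idem _
  have hGP : ∀ u, vG r u * P = P * vG r u := by
    intro u
    unfold vG
    rw [Finset.sum_mul, Finset.mul_sum]
    exact Finset.sum_congr rfl fun o _ => h.rP u o
  have hTs : star (T v) * vG r v = star (T v) := by
    have := congrArg star (h.paths.left v)
    rwa [star_mul, hG.sa] at this
  have hGr : ∀ u o, vG r u * r u o = r u o := by
    intro u o
    unfold vG
    rw [Finset.sum_mul, Finset.sum_eq_single o]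
    · exact h.hc.hp.idem u o
    · intro o' _ ho'
      exact h.hc.hp.orth u u o' o (Or.inr ho') rfl
    · intro ho
      exact absurd (Finset.mem_univ _) ho
  -- the key relation
  have key : ∀ o, star (T v) * vG r (flp k v) * r (flp k v) o * P =
      star (T v) * r v o * P * vG r (flp k v) := by
    intro o
    have e1 := (same_edge h.hc v k hl o).1
    calc star (T v) * vG r (flp k v) * r (flp k v) o * P
        = star (T v) * (vG r (flp k v) * r (flp k v) o) * P := by rw [mul_assoc (star (T v))]
      _ = star (T v) * r (flp k v) o * P := by rw [hGr]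
      _ = star (T v) * vG r v * r (flp k v) o * P := by rw [hTs]
      _ = star (T v) * (vG r v * r (flp k v) o) * P := by rw [mul_assoc (star (T v))]
      _ = star (T v) * (r v o * vG r (flp k v)) * P := by rw [e1]
      _ = star (T v) * r v o * (vG r (flp k v) * P) := by noncomm_ring
      _ = star (T v) * r v o * (P * vG r (flp k v)) := by rw [hGP]
      _ = star (T v) * r v o * P * vG r (flp k v) := by noncomm_ring
  have hx : ∀ o, pv rp r P T v o * (star (T (flp k v)) * r (flp k v) o * P) =
      star (T (flp k v)) * r (flp k v) o * P := by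
    intro o
    have e2 : pv rp r P T v o * (star (T v) * r v o * P) = star (T v) * r v o * P :=
      h.rick.mul _
    rcases h.paths.step v k hk with hT | hT
    · rw [hT, star_mul, hG.sa, key, ← mul_assoc, e2]
    · rw [hT, star_neg, star_mul, hG.sa]
      rw [show -(star (T v) * vG r (flp k v)) * r (flp k v) o * P =
        -(star (T v) * vG r (flp k v) * r (flp k v) o * P) by noncomm_ring, key, mul_neg,
        ← mul_assoc, e2]
  have hpp : ∀ o, pv rp r P T v o * pv rp r P T (flp k v) o = pv rp r P T (flp k v) o := by
    intro o
    have e3 : (1 - pv rp r P T v o) * (star (T (flp k v)) * r (flp k v) o * P) = 0 := by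
      rw [sub_mul, one_mul, hx, sub_self]
    have e4 := h.rick.ann _ _ e3
    rw [sub_mul, one_mul, sub_eq_zero] at e4
    exact e4.symm
  have hsum := (pv_sum h v).trans (pv_sum h (flp k v)).symm
  symm
  calc pv rp r P T v o = ∑ o', pv rp r P T v o * pv rp r P T v o' := by
        rw [Finset.sum_eq_single o]
        · exact (hidem v o).symm
        · intro o' _ ho'
          exact pv_orth h v o o' (Ne.symm ho')
        · intro ho
          exact absurd (Finset.mem_univ _) ho
    _ = pv rp r P T v o * ∑ o', pv rp r P T v o' := by rw [Finset.mul_sum]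
    _ = pv rp r P T v o * ∑ o', pv rp r P T (flp k v) o' := by rw [hsum]
    _ = ∑ o', pv rp r P T v o * pv rp r P T (flp k v) o' := by rw [Finset.mul_sum]
    _ = pv rp r P T v o * pv rp r P T (flp k v) o := by
        rw [Finset.sum_eq_single o]
        · intro o' _ ho'
          rw [← hpp o', ← mul_assoc, pv_orth h v o o' (Ne.symm ho'), zero_mul]
        · intro ho
          exact absurd (Finset.mem_univ _) ho
    _ = pv rp r P T (flp k v) o := hpp o

/-- B11 -/
theorem pv_same {rp : A → A} {ℓ : (κ → Bool) → Ctx} {r : (κ → Bool) → Out → A} {P : A}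
    {T : (κ → Bool) → A} (h : Glue rp ℓ r P T) (v : κ → Bool) (k : κ)
    (hl : ℓ (flp k v) = ℓ v) (o : Out) : pv rp r P T (flp k v) o = pv rp r P T v o := by
  cases hk : v k with
  | false => exact B11_first h v k hk hl o
  | true =>
    have e1 : flp k (flp k v) = v := by
      unfold flp
      funext i
      by_cases hi : i = k
      · subst hi; simp
      · simp [Function.update_of_ne hi]
    have e2 : (flp k v) k = false := by
      unfold flp
      simp [hk]
    have := B11_first h (flp k v) k e2 (by rw [e1]; exact hl.symm) o
    rw [e1] at this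
    exact this.symm

end cube

end Pool.Agent.H707R.LF
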