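import Pool.Agent.H707F.LF.T_B1
import Pool.Agent.H707R.LF.DefsB

/-! Task B2 of project LF: the edge operators of the hypercube. -/

set_option autoImplicit false

open scoped Kronecker

namespace Pool.Agent.H707R.LF

open Pool.Agent.Helper278 Pool.Agent.Helper436.SM

section cube

variable {κ : Type} [Fintype κ] [DecidableEq κ] {A : Type} [Ring A] [StarRing A]

omit [Fintype κ] in
private theorem B2_flp_flp (k : κ) (v : κ → Bool) : flp k (flp k v) = v := by
  funext i
  by_cases h : i = k
  · subst h
    simp [flp]
  · simp [flp, h]

private theorem B2_par (k : κ) (v : κ → Bool) (b : Bool) (h : par v = b) :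
    par (flp k v) = !b := by
  rw [par_flp, h]

/-- `v A C = - v B C` -/
private theorem B2_sq1 {G : (κ → Bool) → A} (h : HG G) (k l : κ) (hkl : k ≠ l) (v : κ → Bool) :
    G v * G (flp k v) * G (flp k (flp l v)) = -(G v * G (flp l v) * G (flp k (flp l v))) := by
  have h1 := congrArg star (sq h k l hkl v)
  simp only [star_mul, star_neg, h.sa] at h1
  simpa only [mul_assoc] using h1

/-- `A C B = - A v B` -/
private theorem B2_sq2 {G : (κ → Bool) → A} (h : HG G) (k l : κ) (hkl : k ≠ l) (v : κ → Bool) :
    G (flp k v) * G (flp k (flp l v)) * G (flp l v) = -(G (flp k v) * G v * G (flp l v)) := by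
  have h1 := sq h k l hkl (flp l v)
  rwa [B2_flp_flp] at h1

/-- B2 -/
theorem star_zO {G : (κ → Bool) → A} (h : HG G) (k : κ) : star (zO G k) = zO G k := by
  unfold zO
  rw [star_sum]
  refine Finset.sum_congr rfl fun v _ => ?_
  rw [star_mul, star_mul, h.sa, h.sa, mul_assoc]

private theorem B2_left {G : (κ → Bool) → A} (h : HG G) (k : κ) (v : κ → Bool) :
    G v * zO G k = G v * G (flp k v) * G v := by
  cases hv : par v with
  | false =>
    unfold zO
    rw [Finset.mul_sum, Finset.sum_eq_single v]
    · rw [mul_assoc (G v) (G (flp k v)) (G v), ← mul_assoc (G v) (G v), h.idem]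
    · intro w hw hwv
      have hw' : par w = false := (Finset.mem_filter.1 hw).2
      rw [mul_assoc (G w), ← mul_assoc (G v) (G w), h.orth v w (Ne.symm hwv) (by rw [hv, hw']),
        zero_mul]
    · intro hn
      exact absurd (by simp [hv]) hn
  | true =>
    have key : ∀ w : κ → Bool, par w = false →
        G v * (G w * G (flp k w) * G w) = G v * G (flp k v) * G v * G w := by
      intro w hw
      by_cases hadj : ∀ l, w ≠ flp l v
      · have h0 : G v * G w = 0 := h.nonadj v w (by rw [hv, hw]; decide) hadj
        rw [mul_assoc (G w), ← mul_assoc (G v) (G w), h0, zero_mul, mul_assoc (G v * G (flp k v)),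
          h0, mul_zero]
      · push Not at hadj
        obtain ⟨l, rfl⟩ := hadj
        by_cases hkl : k = l
        · subst hkl
          rw [B2_flp_flp]
          simp only [mul_assoc]
        · have e1 := B2_sq1 h k l hkl v
          have e2 := B2_sq2 h k l hkl v
          calc G v * (G (flp l v) * G (flp k (flp l v)) * G (flp l v))
              = (G v * G (flp l v) * G (flp k (flp l v))) * G (flp l v) := by
                simp only [mul_assoc]
            _ = -(G v * G (flp k v) * G (flp k (flp l v))) * G (flp l v) := by
                rw [e1, neg_neg]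
            _ = -(G v * (G (flp k v) * G (flp k (flp l v)) * G (flp l v))) := by
                simp only [mul_assoc, neg_mul]
            _ = G v * G (flp k v) * G v * G (flp l v) := by
                rw [e2]
                simp only [mul_assoc, mul_neg, neg_neg]
    unfold zO
    rw [Finset.mul_sum, Finset.sum_congr rfl fun w hw => key w (Finset.mem_filter.1 hw).2,
      ← Finset.mul_sum, h.sum false, mul_one]

/-- B2 -/
theorem G_zO {G : (κ → Bool) → A} (h : HG G) (k : κ) (v : κ → Bool) :
    G v * zO G k = G v * G (flp k v) * G v ∧ zO G k * G v = G v * G (flp k v) * G v := by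
  refine ⟨B2_left h k v, ?_⟩
  have h1 := congrArg star (B2_left h k v)
  rw [star_mul, star_mul, star_mul, h.sa, h.sa, star_zO h] at h1
  rw [h1, mul_assoc]

/-- B2 -/
theorem zO_comm {G : (κ → Bool) → A} (h : HG G) (k l : κ) : zO G k * zO G l = zO G l * zO G k := by
  by_cases hkl : k = l
  · rw [hkl]
  have key : ∀ v : κ → Bool, G v * (zO G k * zO G l) = G v * (zO G l * zO G k) := by
    intro v
    have f : ∀ a b : κ, G v * (zO G a * zO G b) =
        G v * G (flp a v) * (G v * G (flp b v) * G v) := by
      intro a b
      rw [← mul_assoc, (G_zO h a v).1, mul_assoc (G v * G (flp a v)), (G_zO h b v).1]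
    rw [f k l, f l k]
    have e1 := B2_sq1 h k l hkl v
    have e2 := B2_sq2 h k l hkl v
    have e3 := sq h k l hkl v
    have e4 : G (flp l v) * G (flp k (flp l v)) * G (flp k v) =
        -(G (flp l v) * G v * G (flp k v)) := by
      have h1 := congrArg star e2
      simp only [star_mul, star_neg, h.sa] at h1
      simpa only [mul_assoc] using h1
    calc G v * G (flp k v) * (G v * G (flp l v) * G v)
        = G v * (G (flp k v) * G v * G (flp l v)) * G v := by simp only [mul_assoc]
      _ = -(G v * (G (flp k v) * G (flp k (flp l v)) * G (flp l v)) * G v) := by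
          rw [e2]
          simp only [mul_neg, neg_mul, neg_neg]
      _ = -((G v * G (flp k v) * G (flp k (flp l v))) * G (flp l v) * G v) := by
          simp only [mul_assoc]
      _ = G v * G (flp l v) * (G (flp k (flp l v)) * G (flp l v) * G v) := by
          rw [e1]
          simp only [mul_assoc, neg_mul, neg_neg]
      _ = -(G v * G (flp l v) * (G (flp k (flp l v)) * G (flp k v) * G v)) := by
          rw [e3]
          simp only [mul_neg, neg_neg]
      _ = -(G v * (G (flp l v) * G (flp k (flp l v)) * G (flp k v)) * G v) := by
          simp only [mul_assoc]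
      _ = G v * G (flp l v) * (G v * G (flp k v) * G v) := by
          rw [e4]
          simp only [mul_assoc, mul_neg, neg_mul, neg_neg]
  calc zO G k * zO G l
      = (∑ v ∈ Finset.univ.filter (fun v => par v = false), G v) * (zO G k * zO G l) := by
        rw [h.sum false, one_mul]
    _ = (∑ v ∈ Finset.univ.filter (fun v => par v = false), G v) * (zO G l * zO G k) := by
        rw [Finset.sum_mul, Finset.sum_mul]
        exact Finset.sum_congr rfl fun v _ => key v
    _ = zO G l * zO G k := by rw [h.sum false, one_mul]

end cube

end Pool.Agent.H707R.LF
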