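import Pool.Agent.H707R.LF.DefsB

set_option autoImplicit false

open scoped Kronecker

namespace Pool.Agent.H707R.LF

open Pool.Agent.Helper278 Pool.Agent.Helper436.SM

namespace B4aux

section

variable {κ A : Type} [Ring A] [StarRing A] {rp : A → A} (hR : Rick rp)

include hR

theorem z_rp {z : A} (hz : star z = z) : z * rp z = z := by
  have h := congrArg star (hR.mul z)
  rwa [star_mul, hz, hR.sa] at h

theorem comm_rp {z y : A} (hz : star z = z) (h : y * z = z * y) : y * rp z = rp z * y := by
  have h1 : (1 - rp z) * y * rp z = 0 := by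
    apply hR.ann
    rw [mul_assoc, h, ← mul_assoc, sub_mul, one_mul, hR.mul, sub_self, zero_mul]
  have h2 : (1 - rp z) * star y * rp z = 0 := by
    apply hR.ann
    have : z * y * (1 - rp z) = 0 := by
      rw [← h, mul_assoc, mul_sub, mul_one, z_rp hR hz, sub_self, mul_zero]
    have h' := congrArg star this
    rw [star_mul, star_mul, star_sub, star_one, hR.sa, hz, star_zero, ← mul_assoc] at h'
    exact h'
  have h3 : rp z * y * (1 - rp z) = 0 := by
    have h' := congrArg star h2
    rw [star_mul, star_mul, star_sub, star_one, hR.sa, star_star, star_zero, ← mul_assoc] at h'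
    exact h'
  have e1 : y * rp z = rp z * y * rp z := by
    have : (1 - rp z) * y * rp z = y * rp z - rp z * y * rp z := by noncomm_ring
    rw [this] at h1
    exact sub_eq_zero.1 h1
  have e2 : rp z * y = rp z * y * rp z := by
    have : rp z * y * (1 - rp z) = rp z * y - rp z * y * rp z := by noncomm_ring
    rw [this] at h3
    exact sub_eq_zero.1 h3
  rw [e1, ← e2]

end

section

variable {κ A : Type} [Ring A] [StarRing A] {p : κ → A}

omit [StarRing A] in
theorem prod_comm_of (y : A) (h : ∀ k, y * p k = p k * y) (L : List κ) :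
    y * (L.map p).prod = (L.map p).prod * y := by
  induction L with
  | nil => simp
  | cons k L ih =>
    rw [List.map_cons, List.prod_cons, ← mul_assoc, h, mul_assoc, ih, mul_assoc]

variable (hc : ∀ k l, p k * p l = p l * p k)

include hc

theorem star_prod (hs : ∀ k, star (p k) = p k) (L : List κ) :
    star (L.map p).prod = (L.map p).prod := by
  induction L with
  | nil => simp
  | cons k L ih =>
    rw [List.map_cons, List.prod_cons, star_mul, ih, hs, prod_comm_of (p k) (fun l => hc k l) L]

theorem idem_prod (hi : ∀ k, p k * p k = p k) (L : List κ) :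
    (L.map p).prod * (L.map p).prod = (L.map p).prod := by
  induction L with
  | nil => simp
  | cons k L ih =>
    rw [List.map_cons, List.prod_cons]
    calc p k * (L.map p).prod * (p k * (L.map p).prod)
        = p k * ((L.map p).prod * p k) * (L.map p).prod := by noncomm_ring
      _ = p k * (p k * (L.map p).prod) * (L.map p).prod := by
          rw [prod_comm_of (p k) (fun l => hc k l) L]
      _ = (p k * p k) * ((L.map p).prod * (L.map p).prod) := by noncomm_ring
      _ = p k * (L.map p).prod := by rw [hi, ih]

end

theorem absorb {κ A : Type} [Ring A] {p z : κ → A} (hz : ∀ k, z k * p k = z k)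
    (hzp : ∀ k l, z k * p l = p l * z k) (L : List κ) (k : κ) (hk : k ∈ L) :
    (L.map z).prod * p k = (L.map z).prod := by
  induction L with
  | nil => simp at hk
  | cons l L ih =>
    rw [List.map_cons, List.prod_cons]
    rcases List.mem_cons.1 hk with rfl | hk
    · rw [mul_assoc, ← prod_comm_of (p := z) (p k) (fun l => (hzp l k).symm) L, ← mul_assoc, hz]
    · rw [mul_assoc, ih hk]

theorem absorbP {κ A : Type} [Ring A] {p : κ → A} (M : A) (L : List κ)
    (h : ∀ k ∈ L, M * p k = M) : M * (L.map p).prod = M := by
  induction L with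
  | nil => simp
  | cons l L ih =>
    rw [List.map_cons, List.prod_cons, ← mul_assoc, h l List.mem_cons_self,
      ih (fun k hk => h k (List.mem_cons_of_mem _ hk))]

theorem fixP {κ A : Type} [Ring A] {p : κ → A} (y : A) (L : List κ)
    (h : ∀ k, p k * y = y) : (L.map p).prod * y = y := by
  induction L with
  | nil => simp
  | cons l L ih =>
    rw [List.map_cons, List.prod_cons, mul_assoc, ih, h]

end B4aux

open B4aux

set_option linter.unusedSectionVars false

section cube

variable {κ : Type} [Fintype κ] [DecidableEq κ] {A : Type} [Ring A] [StarRing A]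

/-- B4 -/
theorem exists_supp {rp : A → A} (hR : Rick rp) (z : κ → A) (hz : ∀ k, star (z k) = z k)
    (hc : ∀ k l, z k * z l = z l * z k) (L : List κ) (hmem : ∀ k, k ∈ L)
    (hL : (L.map z).prod ≠ 0) :
    ∃ P, Supp z P ∧ P ≠ 0 ∧ ∀ y, (∀ k, y * z k = z k * y) → y * P = P * y := by
  set p : κ → A := fun k => rp (z k) with hp
  have hzp : ∀ k l, z k * p l = p l * z k := fun k l => comm_rp hR (hz l) (hc k l)
  have hpp : ∀ k l, p k * p l = p l * p k := fun k l => comm_rp hR (hz l) (hzp l k).symm
  have hcom : ∀ y, (∀ k, y * z k = z k * y) → y * (L.map p).prod = (L.map p).prod * y :=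
    fun y hy => prod_comm_of y (fun k => comm_rp hR (hz k) (hy k)) L
  have hPp : ∀ k, (L.map p).prod * p k = (L.map p).prod := fun k =>
    absorb (fun k => hR.idem (z k)) hpp L k (hmem k)
  refine ⟨(L.map p).prod, ⟨?_, ?_, ?_, ?_, ?_⟩, ?_, hcom⟩
  · exact star_prod hpp (fun k => hR.sa _) L
  · exact idem_prod hpp (fun k => hR.idem _) L
  · intro k
    exact (hcom (z k) (fun l => hc k l)).symm
  · intro k y hy
    rw [mul_assoc, hcom (z k) (fun l => hc k l), ← mul_assoc] at hy
    have := hR.ann _ _ hy
    rw [mul_assoc] at this
    change y * ((L.map p).prod * p k) = 0 at this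
    rwa [hPp] at this
  · intro y hy
    refine fixP y L fun k => ?_
    have h1 : (1 - p k) * z k = 0 := by
      rw [sub_mul, one_mul, hR.mul, sub_self]
    have h2 := hy k _ h1
    rw [sub_mul, one_mul] at h2
    exact (sub_eq_zero.1 h2).symm
  · intro h0
    apply hL
    have h1 : (L.map z).prod * (L.map p).prod = (L.map z).prod :=
      absorbP _ L fun k hk => absorb (fun k => z_rp hR (hz k)) hzp L k hk
    rw [← h1, h0, mul_zero]

end cube

end Pool.Agent.H707R.LF
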