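import Pool.Agent.H707F.LF.T_B2
import Pool.Agent.H707F.LF.T_B3
import Pool.Agent.H707R.LF.DefsB

set_option autoImplicit false

namespace Pool.Agent.H707R.LF

open Pool.Agent.Helper278 Pool.Agent.Helper436.SM

section cube

variable {κ : Type} [Fintype κ] [DecidableEq κ] {A : Type} [Ring A] [StarRing A]

private theorem B5_mul_vG {ℓ : (κ → Bool) → Ctx} {r : (κ → Bool) → Out → A} (h : HC ℓ r)
    (v : κ → Bool) (o : Out) : r v o * vG r v = r v o := by
  unfold vG
  rw [Finset.mul_sum, Finset.sum_eq_single o]
  · exact h.hp.idem v o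
  · intro o' _ ho'
    exact h.hp.orth v v o o' (Or.inr (Ne.symm ho')) rfl
  · intro ho
    exact absurd (Finset.mem_univ _) ho

/-- B5 -/
theorem reach_comm {ℓ : (κ → Bool) → Ctx} {r : (κ → Bool) → Out → A} (h : HC ℓ r) {P : A}
    (hP : Supp (zO (vG r)) P) (hPG : ∀ v, P * vG r v = vG r v * P) {v : κ → Bool} {k : κ}
    (hr : Reach ℓ v k) (o : Out) :
    r v o * zO (vG r) k * P = zO (vG r) k * r v o * P := by
  have hG := HC_HG h
  have hGz : ∀ (w : κ → Bool) (j : κ), vG r w * zO (vG r) j = zO (vG r) j * vG r w := by
    intro w j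
    obtain ⟨z1, z2⟩ := G_zO hG j w
    rw [z1, z2]
  induction hr generalizing o with
  | base v k hl => rw [(same_edge h v k hl o).2]
  | step v l k hl hre ih =>
    set z := zO (vG r) k with hz
    set G := vG r v with hGd
    set G' := vG r (flp l v) with hG'd
    set x := r v o with hx
    set y := r (flp l v) o with hy
    have e1 : x * G' = G * y := (same_edge h v l hl o).1
    have e2 : y * z * P = z * y * P := ih o
    have e3 : x * G = x := B5_mul_vG h v o
    have e4 : G * z = z * G := hGz v k
    have e5 : G' * z = z * G' := hGz (flp l v) k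
    have hz1 : G * zO (vG r) l = G * G' * G := (G_zO hG l v).1
    set C := x * z - z * x with hC
    have c1 : C * G' * P = 0 := by
      have a1 : x * z * G' * P = G * (y * z * P) := by
        calc x * z * G' * P = x * (z * G') * P := by simp only [mul_assoc]
          _ = x * (G' * z) * P := by rw [e5]
          _ = (x * G') * z * P := by simp only [mul_assoc]
          _ = G * (y * z * P) := by rw [e1]; simp only [mul_assoc]
      have a2 : z * x * G' * P = G * (z * y * P) := by
        calc z * x * G' * P = z * (x * G') * P := by simp only [mul_assoc]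
          _ = (z * G) * y * P := by rw [e1]; simp only [mul_assoc]
          _ = (G * z) * y * P := by rw [e4]
          _ = G * (z * y * P) := by simp only [mul_assoc]
      rw [hC, sub_mul, sub_mul, a1, a2, e2, sub_self]
    have c2 : C * G = C := by
      have a1 : x * z * G = x * z := by rw [mul_assoc, ← e4, ← mul_assoc, e3]
      have a2 : z * x * G = z * x := by rw [mul_assoc, e3]
      rw [hC, sub_mul, a1, a2]
    have c3 : C * zO (vG r) l * P = 0 := by
      calc C * zO (vG r) l * P = (C * G) * zO (vG r) l * P := by rw [c2]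
        _ = C * (G * zO (vG r) l) * P := by simp only [mul_assoc]
        _ = C * (G * G' * G) * P := by rw [hz1]
        _ = (C * G) * G' * (G * P) := by simp only [mul_assoc]
        _ = C * G' * (P * G) := by rw [c2, hPG v]
        _ = (C * G' * P) * G := by simp only [mul_assoc]
        _ = 0 := by rw [c1, zero_mul]
    have c4 := hP.cancel l C c3
    rw [hC, sub_mul, sub_eq_zero] at c4
    exact c4

/-- B5 -/
theorem r_comm_P {ℓ : (κ → Bool) → Ctx} {r : (κ → Bool) → Out → A} (h : HC ℓ r) {P : A}
    (hP : Supp (zO (vG r)) P) (hPG : ∀ v, P * vG r v = vG r v * P)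
    (hr : ∀ v k, Reach ℓ v k) (v : κ → Bool) (o : Out) : r v o * P = P * r v o := by
  have h1 : P * (r v o * P) = r v o * P := by
    apply hP.low
    intro k x hx
    rw [← mul_assoc]
    apply hP.cancel k
    have h2 := reach_comm h hP hPG (hr v k) o
    calc x * r v o * zO (vG r) k * P = x * (r v o * zO (vG r) k * P) := by simp only [mul_assoc]
      _ = x * (zO (vG r) k * r v o * P) := by rw [h2]
      _ = (x * zO (vG r) k) * (r v o * P) := by simp only [mul_assoc]
      _ = 0 := by rw [hx, zero_mul]
  have h2 := congrArg star h1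
  rw [star_mul, star_mul, hP.sa, h.hp.sa] at h2
  -- h2 : P * r v o * P = P * r v o
  rw [← h1, ← mul_assoc, h2]

end cube

end Pool.Agent.H707R.LF
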