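import Pool.Agent.H707R.LF.DefsC

/-!
# C1: operators of functions of a partition of unity
-/

set_option autoImplicit false

namespace Pool.Agent.H707R.LF

open Pool.Agent.Helper278

private theorem C1_e_mul {A : Type} [Ring A] {e : A} {m : Out → A} (h : Pvm e m) (o : Out) :
    e * m o = m o := by
  classical
  rw [← h.sum, Finset.sum_mul, Finset.sum_eq_single o]
  · exact h.idem o
  · intro o' _ ho
    exact h.orth o' o ho
  · intro ho
    exact absurd (Finset.mem_univ o) ho

private theorem C1_mul_e {A : Type} [Ring A] {e : A} {m : Out → A} (h : Pvm e m) (o : Out) :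
    m o * e = m o := by
  classical
  rw [← h.sum, Finset.mul_sum, Finset.sum_eq_single o]
  · exact h.idem o
  · intro o' _ ho
    exact h.orth o o' (Ne.symm ho)
  · intro ho
    exact absurd (Finset.mem_univ o) ho

private theorem C1_e_op {A : Type} [Ring A] [Algebra ℂ A] {e : A} {m : Out → A} (h : Pvm e m)
    (f : Out → Bool) : e * op m f = op m f := by
  unfold op
  rw [Finset.mul_sum]
  refine Finset.sum_congr rfl fun o _ => ?_
  rw [mul_smul_comm, C1_e_mul h]

private theorem C1_op_e {A : Type} [Ring A] [Algebra ℂ A] {e : A} {m : Out → A} (h : Pvm e m)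
    (f : Out → Bool) : op m f * e = op m f := by
  unfold op
  rw [Finset.sum_mul]
  refine Finset.sum_congr rfl fun o _ => ?_
  rw [smul_mul_assoc, C1_mul_e h]

private theorem C1_sgn_mul (a b : Bool) : sgn a * sgn b = sgn (xor a b) := by
  cases a <;> cases b <;> simp [sgn]

/-- C1 -/
theorem op_eq_op {A : Type} [Ring A] [Algebra ℂ A] {e : A} {m m' : Out → A} (h : Pvm e m)
    (h' : Pvm e m') {f f' : Out → Bool} (hff : ∀ o o', f o ≠ f' o' → m o * m' o' = 0) :
    op m f = op m' f' := by
  have h1 : op m f = ∑ o, ∑ o', sgn (f o) • (m o * m' o') := by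
    rw [← C1_op_e h f, ← h'.sum]
    unfold op
    rw [Finset.sum_mul]
    refine Finset.sum_congr rfl fun o _ => ?_
    rw [Finset.mul_sum]
    refine Finset.sum_congr rfl fun o' _ => ?_
    rw [smul_mul_assoc]
  have h2 : op m' f' = ∑ o, ∑ o', sgn (f' o') • (m o * m' o') := by
    rw [← C1_e_op h' f', ← h.sum]
    unfold op
    rw [Finset.sum_mul]
    refine Finset.sum_congr rfl fun o _ => ?_
    rw [Finset.mul_sum]
    refine Finset.sum_congr rfl fun o' _ => ?_
    rw [mul_smul_comm]
  rw [h1, h2]
  refine Finset.sum_congr rfl fun o _ => Finset.sum_congr rfl fun o' _ => ?_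
  by_cases hf : f o = f' o'
  · rw [hf]
  · rw [hff o o' hf, smul_zero, smul_zero]

/-- C1 -/
theorem op_mul_op {A : Type} [Ring A] [Algebra ℂ A] {e : A} {m : Out → A} (h : Pvm e m)
    (f g : Out → Bool) : op m f * op m g = op m (fun o => xor (f o) (g o)) := by
  classical
  unfold op
  rw [Finset.sum_mul]
  refine Finset.sum_congr rfl fun o _ => ?_
  rw [Finset.mul_sum, Finset.sum_eq_single o]
  · rw [smul_mul_smul_comm, h.idem, C1_sgn_mul]
  · intro o' _ ho
    rw [smul_mul_smul_comm, h.orth o o' (Ne.symm ho), smul_zero]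
  · intro ho
    exact absurd (Finset.mem_univ o) ho

/-- C1 -/
theorem op_unit {A : Type} [Ring A] [Algebra ℂ A] {e : A} {m : Out → A} (h : Pvm e m)
    (f : Out → Bool) : e * op m f = op m f ∧ op m f * e = op m f ∧ op m f * op m f = e ∧
      e * e = e := by
  refine ⟨C1_e_op h f, C1_op_e h f, ?_, ?_⟩
  · rw [op_mul_op h]
    unfold op
    rw [← h.sum]
    refine Finset.sum_congr rfl fun o _ => ?_
    simp [sgn]
  · conv_lhs => rw [← h.sum]
    rw [← h.sum, Finset.sum_mul]
    refine Finset.sum_congr rfl fun o _ => ?_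
    rw [h.sum, C1_mul_e h]

end Pool.Agent.H707R.LF
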