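import Pool.Agent.H707R.LF.DefsC

/-!
# The magic square (helper742)
-/

set_option autoImplicit false

namespace Pool.Agent.H707R.LF

/-- C2 -/
theorem magic {A : Type} [Ring A] [Algebra ℂ A] {e X a Z B : A} (hX : X * X = e) (ha : a * a = e)
    (hZ : Z * Z = e) (hB : B * B = e) (eX : e * X = X) (Xe : X * e = X) (ea : e * a = a)
    (ae : a * e = a) (eZ : e * Z = Z) (Ze : Z * e = Z) (eB : e * B = B) (Be : B * e = B)
    (hXa : X * a = a * X) (hZB : Z * B = B * Z) (hXB : X * B = B * X) (hZa : Z * a = a * Z)
    (hc : (X * B) * (Z * a) = (Z * a) * (X * B))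
    (hm : (X * B) * (Z * a) = -((X * a) * (Z * B))) :
    X * Z = -(Z * X) ∧ a * B = -(B * a) := by
  constructor
  · have h1 : Z * X * a * B = -(X * Z * a * B) := by
      calc Z * X * a * B = Z * (X * a) * B := by simp only [mul_assoc]
        _ = Z * (a * X) * B := by rw [hXa]
        _ = (Z * a) * (X * B) := by simp only [mul_assoc]
        _ = -((X * a) * (Z * B)) := by rw [← hc, hm]
        _ = -(X * (a * Z) * B) := by simp only [mul_assoc]
        _ = -(X * (Z * a) * B) := by rw [hZa]
        _ = -(X * Z * a * B) := by simp only [mul_assoc]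
    have h2 : Z * X * a = -(X * Z * a) := by
      calc Z * X * a = Z * X * (a * e) := by rw [ae]
        _ = Z * X * (a * (B * B)) := by rw [hB]
        _ = (Z * X * a * B) * B := by simp only [mul_assoc]
        _ = (-(X * Z * a * B)) * B := by rw [h1]
        _ = -(X * Z * (a * (B * B))) := by rw [neg_mul]; simp only [mul_assoc]
        _ = -(X * Z * a) := by rw [hB, ae]
    have h3 : Z * X = -(X * Z) := by
      calc Z * X = Z * (X * e) := by rw [Xe]
        _ = Z * (X * (a * a)) := by rw [ha]
        _ = (Z * X * a) * a := by simp only [mul_assoc]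
        _ = (-(X * Z * a)) * a := by rw [h2]
        _ = -(X * (Z * (a * a))) := by rw [neg_mul]; simp only [mul_assoc]
        _ = -(X * Z) := by rw [ha, Ze]
    rw [h3, neg_neg]
  · have h1 : B * (Z * a) = -(a * (Z * B)) := by
      calc B * (Z * a) = (e * B) * (Z * a) := by rw [eB]
        _ = ((X * X) * B) * (Z * a) := by rw [hX]
        _ = X * ((X * B) * (Z * a)) := by simp only [mul_assoc]
        _ = X * (-((X * a) * (Z * B))) := by rw [hm]
        _ = -((X * X) * a * (Z * B)) := by rw [mul_neg]; simp only [mul_assoc]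
        _ = -(a * (Z * B)) := by rw [hX, ea]
    have h2 : B * a = -(a * B) := by
      calc B * a = B * (a * e) := by rw [ae]
        _ = B * (a * (Z * Z)) := by rw [hZ]
        _ = B * (a * Z) * Z := by simp only [mul_assoc]
        _ = B * (Z * a) * Z := by rw [hZa]
        _ = -(a * (Z * B)) * Z := by rw [h1]
        _ = -(a * (B * Z)) * Z := by rw [hZB]
        _ = -(a * (B * (Z * Z))) := by rw [neg_mul]; simp only [mul_assoc]
        _ = -(a * B) := by rw [hZ, Be]
    rw [h2, neg_neg]

end Pool.Agent.H707R.LF
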