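import Pool.Agent.H707F.LF.T_C1
import Pool.Agent.H707F.LF.T_C2
import Pool.Agent.H707F.LF.T_C3a
import Pool.Agent.H707R.LF.DefsC

/-! Task C3b (helper613): the two magic squares. -/

set_option autoImplicit false

namespace Pool.Agent.H707R.LF

theorem C3b_pvm {A : Type} [Ring A] {e : A} {m : Ctx → Out → A} (hS : Sys e m) (C : Ctx) :
    Pvm e (m C) :=
  ⟨hS.idem C, fun o o' h => hS.bad C o C o' (Or.inl ⟨rfl, h⟩), hS.sum C⟩

theorem C3b_eq {A : Type} [Ring A] [Algebra ℂ A] {e : A} {m : Ctx → Out → A} (hS : Sys e m)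
    {C C' : Ctx} {f f' : Out → Bool} (x : Obs) (h : ∀ o, obs C o x = some (f o))
    (h' : ∀ o, obs C' o x = some (f' o)) : op (m C) f = op (m C') f' := by
  apply op_eq_op (C3b_pvm hS C) (C3b_pvm hS C')
  intro o o' hne
  exact hS.bad C o C' o' (Or.inr ⟨x, f o, f' o', h o, h' o', hne⟩)

theorem C3b_not {A : Type} [Ring A] [Algebra ℂ A] (m : Out → A) (f : Out → Bool) :
    op m (fun o => !(f o)) = -op m f := by
  unfold op
  rw [← Finset.sum_neg_distrib]
  apply Finset.sum_congr rfl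
  intro o _
  rw [← neg_smul]
  congr 1
  unfold sgn
  rcases Bool.eq_false_or_eq_true (f o) with h | h <;> simp [h]

theorem C3b_comm {A : Type} [Ring A] [Algebra ℂ A] {e : A} {m : Out → A} (h : Pvm e m)
    (f g : Out → Bool) : op m f * op m g = op m g * op m f := by
  rw [op_mul_op h, op_mul_op h]
  congr 1
  funext o
  exact Bool.xor_comm _ _

/-- C3b : the two magic squares -/
theorem ops_magic {A : Type} [Ring A] [StarRing A] [Algebra ℂ A] [StarModule ℂ A] {e : A}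
    {m : Ctx → Out → A} (hS : Sys e m) :
    XO m * ZO m = -(ZO m * XO m) ∧ aO m * BO m = -(BO m * aO m) ∧
      SO m * BO m = -(BO m * SO m) := by
  have hv := C3b_pvm hS
  obtain ⟨_, -, hDX, hDB, hR1, hR2, hC21, hC22, hC31, hC32, hSP1, hQB2, hSQ1, hPB2⟩ :=
    ops_eq hS
  have uX := op_unit (hv (.U 0)) (fun o => o.2.1)
  have ua := op_unit (hv (.U 0)) (fun o => o.2.2)
  have uZ := op_unit (hv (.V 0)) (fun o => o.2.1)
  have uB := op_unit (hv (.V 0)) (fun o => o.2.2)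
  have uS := op_unit (hv (.T 0)) (fun o => o.1)
  have uP := op_unit (hv .SP) (fun o => o.2.1)
  have uQ := op_unit (hv .QB) (fun o => o.1)
  -- first square
  have cXa : XO m * aO m = aO m * XO m := C3b_comm (hv (.U 0)) _ _
  have cZB : ZO m * BO m = BO m * ZO m := C3b_comm (hv (.V 0)) _ _
  have cXB : XO m * BO m = BO m * XO m := by
    rw [← hDX, ← hDB]; exact C3b_comm (hv .D) _ _
  have cZa : ZO m * aO m = aO m * ZO m := by
    rw [← hC21, ← hC22]; exact C3b_comm (hv .C2) _ _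
  have hc : (XO m * BO m) * (ZO m * aO m) = (ZO m * aO m) * (XO m * BO m) := by
    rw [← hR1, ← hR2]; exact C3b_comm (hv .R3) _ _
  have hm : (XO m * BO m) * (ZO m * aO m) = -((XO m * aO m) * (ZO m * BO m)) := by
    rw [← hR1, ← hR2, ← hC31, ← hC32, op_mul_op (hv .R3), op_mul_op (hv .C3),
      ← C3b_not]
    exact C3b_eq hS .Y (fun o => rfl) (fun o => rfl)
  obtain ⟨h1, h2⟩ := magic (e := e) (X := XO m) (a := aO m) (Z := ZO m) (B := BO m)
    uX.2.2.1 ua.2.2.1 uZ.2.2.1 uB.2.2.1 uX.1 uX.2.1 ua.1 ua.2.1 uZ.1 uZ.2.1 uB.1 uB.2.1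
    cXa cZB cXB cZa hc hm
  refine ⟨h1, h2, ?_⟩
  -- second square
  set P := op (m .SP) (fun o => o.2.1) with hP
  set Q := op (m .QB) (fun o => o.1) with hQ
  have eQ : op (m .SQ) (fun o => o.2.1) = Q := C3b_eq hS .Q (fun o => rfl) (fun o => rfl)
  have eP : op (m .PB) (fun o => o.1) = P := C3b_eq hS .P (fun o => rfl) (fun o => rfl)
  have cSP : SO m * P = P * SO m := by
    rw [← hSP1]; exact C3b_comm (hv .SP) _ _
  have cBQ : BO m * Q = Q * BO m := by
    rw [← hQB2]; exact C3b_comm (hv .QB) _ _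
  have cSQ : SO m * Q = Q * SO m := by
    rw [← hSQ1, ← eQ]; exact C3b_comm (hv .SQ) _ _
  have cBP : BO m * P = P * BO m := by
    rw [← hPB2, ← eP]; exact C3b_comm (hv .PB) _ _
  have eSQ : op (m .M1) (fun o => o.1) = SO m * Q := by
    rw [← hSQ1, ← eQ, op_mul_op (hv .SQ)]
    exact C3b_eq hS .SQ (fun o => rfl) (fun o => rfl)
  have eBP : op (m .M1) (fun o => o.2.1) = BO m * P := by
    rw [cBP, ← hPB2, ← eP, op_mul_op (hv .PB)]
    exact C3b_eq hS .BP (fun o => rfl) (fun o => rfl)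
  have eSP : op (m .M2) (fun o => o.1) = SO m * P := by
    rw [← hSP1, hP, op_mul_op (hv .SP)]
    exact C3b_eq hS .SP (fun o => rfl) (fun o => rfl)
  have eBQ : op (m .M2) (fun o => o.2.1) = BO m * Q := by
    rw [cBQ, ← hQB2, hQ, op_mul_op (hv .QB)]
    exact C3b_eq hS .BQ (fun o => rfl) (fun o => rfl)
  have hc2 : (SO m * Q) * (BO m * P) = (BO m * P) * (SO m * Q) := by
    rw [← eSQ, ← eBP]; exact C3b_comm (hv .M1) _ _
  have hm2 : (SO m * Q) * (BO m * P) = -((SO m * P) * (BO m * Q)) := by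
    rw [← eSQ, ← eBP, ← eSP, ← eBQ, op_mul_op (hv .M1), op_mul_op (hv .M2),
      ← C3b_not]
    exact C3b_eq hS .Y2 (fun o => rfl) (fun o => rfl)
  exact (magic (e := e) (X := SO m) (a := P) (Z := BO m) (B := Q)
    uS.2.2.1 uP.2.2.1 uB.2.2.1 uQ.2.2.1 uS.1 uS.2.1 uP.1 uP.2.1 uB.1 uB.2.1 uQ.1 uQ.2.1
    cSP cBQ cSQ cBP hc2 hm2).1

end Pool.Agent.H707R.LF
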