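import Pool.Agent.H707F.LF.T_C1
import Pool.Agent.H707F.LF.T_C3a
import Pool.Agent.H707R.LF.DefsC

set_option autoImplicit false

namespace Pool.Agent.H707R.LF

open Pool.Agent.Helper278

lemma C3c_e {A : Type} [Ring A] {e : A} {m : Ctx → Out → A} (hS : Sys e m) (C : Ctx) (o : Out) :
    e * m C o = m C o := by
  rw [← hS.sum C, Finset.sum_mul, Finset.sum_eq_single o]
  · exact hS.idem C o
  · intro o' _ ho'
    exact hS.bad C o' C o (Or.inl ⟨rfl, ho'⟩)
  · intro h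
    exact absurd (Finset.mem_univ o) h

lemma C3c_op {A : Type} [Ring A] [Algebra ℂ A] {e : A} {m : Ctx → Out → A} (hS : Sys e m)
    (C C' : Ctx) (f : Out → Bool) (o : Out) (v : Bool) (h : ∀ o2, f o2 ≠ v → Bad C o2 C' o) :
    op (m C) f * m C' o = sgn v • m C' o := by
  unfold op
  rw [Finset.sum_mul]
  have h1 : ∀ o2 ∈ (Finset.univ : Finset Out), (sgn (f o2) • m C o2) * m C' o =
      sgn v • (m C o2 * m C' o) := by
    intro o2 _
    rw [smul_mul_assoc]
    by_cases hf : f o2 = v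
    · rw [hf]
    · rw [hS.bad C o2 C' o (h o2 hf), smul_zero, smul_zero]
  rw [Finset.sum_congr rfl h1, ← Finset.smul_sum, ← Finset.sum_mul, hS.sum C, C3c_e hS]

lemma C3c_pvm {A : Type} [Ring A] {e : A} {m : Ctx → Out → A} (hS : Sys e m) (C : Ctx) :
    Pvm e (m C) :=
  ⟨hS.idem C, fun o o' h => hS.bad C o C o' (Or.inl ⟨rfl, h⟩), hS.sum C⟩

/-- C3c : the operators `H_s` on the atoms of the contexts `V s`, `D` -/
theorem ops_H {A : Type} [Ring A] [StarRing A] [Algebra ℂ A] [StarModule ℂ A] {e : A}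
    {m : Ctx → Out → A} (hS : Sys e m) :
    (∀ s o, o.2.2 = false → HO m s * m (.V s) o = sgn o.1 • m (.V s) o) ∧
    (∀ t s o, o.2.2 = true → t ≠ 2 → lsec t o.2.1 = s →
      HO m t * m (.V s) o = sgn o.1 • m (.V s) o) ∧
    (∀ o, o.2.2 = true → HO m 2 * m .D o = sgn (xor o.1 o.2.1) • m .D o) ∧
    (∀ s, SO m * HO m s = HO m s * SO m) := by
  refine ⟨?_, ?_, ?_, ?_⟩
  · intro s o ho
    refine C3c_op hS (.T s) (.V s) (fun o => o.2.1) o o.1 (fun o2 h2 => Or.inr ?_)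
    exact ⟨.H s, o2.2.1, o.1, by simp [obs], by simp [obs, ho], h2⟩
  · intro t s o ho ht hs
    refine C3c_op hS (.T t) (.V s) (fun o => o.2.1) o o.1 (fun o2 h2 => Or.inr ?_)
    exact ⟨.H t, o2.2.1, o.1, by simp [obs], by simp [obs, ho, ht, hs], h2⟩
  · intro o ho
    refine C3c_op hS (.T 2) .D (fun o => o.2.1) o (xor o.1 o.2.1) (fun o2 h2 => Or.inr ?_)
    exact ⟨.H 2, o2.2.1, xor o.1 o.2.1, by simp [obs], by simp [obs, ho], h2⟩
  · intro s
    have h1 : op (m (.T s)) (fun o => o.1) = SO m := ((ops_eq hS).1 s).2.2.2.2.2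
    have h2 : HO m s = op (m (.T s)) (fun o => o.2.1) := rfl
    rw [← h1, h2, op_mul_op (C3c_pvm hS (.T s)), op_mul_op (C3c_pvm hS (.T s))]
    congr 1
    funext o
    exact Bool.xor_comm _ _

end Pool.Agent.H707R.LF
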