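import Pool.Agent.H707R.LF.DefsC

/-!
Project LF (helper707), task C4: the trace recursion (helper784).
-/

set_option autoImplicit false

namespace Pool.Agent.H707R.LF

section C4

variable {A : Type} [Ring A] {e : A} {g H : Fin 3 → A} {X a S ep em f0 f1 : A}

theorem C4_ev_e (hee : e * e = e) (hge : ∀ s, g s * e = g s) (l : List (Fin 3)) :
    ev e g l * e = ev e g l := by
  induction l with
  | nil => exact hee
  | cons s l ih => rw [ev, mul_assoc, ih]

theorem C4_e_ev (hee : e * e = e) (heg : ∀ s, e * g s = g s) (l : List (Fin 3)) :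
    e * ev e g l = ev e g l := by
  cases l with
  | nil => exact hee
  | cons s l => rw [ev, ← mul_assoc, heg]

theorem C4_comm {z : A} (he : Commute e z) (hg : ∀ s, Commute (g s) z) (l : List (Fin 3)) :
    Commute (ev e g l) z := by
  induction l with
  | nil => exact he
  | cons s l ih => exact (hg s).mul_left ih

theorem C4_em (h : Rel e g H X a S ep em f0 f1) : em = e - ep := by
  rw [← h.pe]; abel

theorem C4_f1 (h : Rel e g H X a S ep em f0 f1) : f1 = e - f0 := by
  rw [← h.fe]; abel

theorem C4_e_em (h : Rel e g H X a S ep em f0 f1) : e * em = em := by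
  rw [C4_em h, mul_sub, h.ee, h.epe]

theorem C4_em_e (h : Rel e g H X a S ep em f0 f1) : em * e = em := by
  rw [C4_em h, sub_mul, h.ee, h.pee]

theorem C4_g_em (h : Rel e g H X a S ep em f0 f1) (s : Fin 3) : Commute (g s) em := by
  rw [C4_em h]
  exact Commute.sub_right (show g s * e = e * g s by rw [h.eg, h.ge]) (h.gep s)

theorem C4_e_f1 (h : Rel e g H X a S ep em f0 f1) : e * f1 = f1 := by
  rw [C4_f1 h, mul_sub, h.ee, h.efe]

theorem C4_f1_e (h : Rel e g H X a S ep em f0 f1) : f1 * e = f1 := by
  rw [C4_f1 h, sub_mul, h.ee, h.fee]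

theorem C4_g_f1 (h : Rel e g H X a S ep em f0 f1) (s : Fin 3) : Commute (g s) f1 := by
  rw [C4_f1 h]
  exact Commute.sub_right (show g s * e = e * g s by rw [h.eg, h.ge]) (h.gf s)

theorem C4_f0f1 (h : Rel e g H X a S ep em f0 f1) : f0 * f1 = 0 := by
  rw [C4_f1 h, mul_sub, h.fee, h.ff, sub_self]

theorem C4_f1f0 (h : Rel e g H X a S ep em f0 f1) : f1 * f0 = 0 := by
  rw [C4_f1 h, sub_mul, h.efe, h.ff, sub_self]

theorem C4_f1f1 (h : Rel e g H X a S ep em f0 f1) : f1 * f1 = f1 := by
  conv_lhs => rw [C4_f1 h]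
  rw [sub_mul, mul_sub, mul_sub, h.ee, h.efe, h.fee, h.ff, sub_self, sub_zero, ← C4_f1 h]

theorem C4_em_f0 (h : Rel e g H X a S ep em f0 f1) : Commute em f0 := by
  rw [C4_em h]
  exact Commute.sub_left (show e * f0 = f0 * e by rw [h.efe, h.fee]) h.pf

theorem C4_em_f1 (h : Rel e g H X a S ep em f0 f1) : Commute em f1 := by
  rw [C4_f1 h]
  exact Commute.sub_right (show em * e = e * em by rw [C4_e_em h, C4_em_e h]) (C4_em_f0 h)

theorem C4_X_f1 (h : Rel e g H X a S ep em f0 f1) : X * f1 = f0 * X := by
  have h1 : f0 = e - f1 := by rw [← h.fe]; abel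
  conv_lhs => rw [C4_f1 h]
  rw [mul_sub, h.Xe, h.Xf]
  conv_rhs => rw [h1]
  rw [sub_mul, h.eX]

theorem C4_X_em (h : Rel e g H X a S ep em f0 f1) : Commute X em := by
  rw [C4_em h]
  exact Commute.sub_right (show X * e = e * X by rw [h.eX, h.Xe]) h.Xp

/-- `f_x` -/
def C4_f (f0 f1 : A) (x : Bool) : A := if x = true then f1 else f0

/-- `X` to the number of letters `2` -/
def C4_XL (e X : A) : List (Fin 3) → A
  | [] => e
  | s :: l => if s = 2 then X * C4_XL e X l else C4_XL e X l

/-- parity of the number of letters `2` -/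
def C4_par : List (Fin 3) → Bool
  | [] => false
  | s :: l => if s = 2 then !(C4_par l) else C4_par l

theorem C4_out (x : Bool) (l : List (Fin 3)) : (secW x l).2 = xor x (C4_par l) := by
  induction l with
  | nil => simp [secW, C4_par]
  | cons s l ih =>
    simp only [secW, C4_par, lout, ih]
    split_ifs <;> simp

theorem C4_XL_par (h : Rel e g H X a S ep em f0 f1) (l : List (Fin 3)) :
    C4_XL e X l = if C4_par l = true then X else e := by
  induction l with
  | nil => simp [C4_XL, C4_par]
  | cons s l ih =>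
    by_cases hs : s = 2
    · have h1 : C4_par (s :: l) = !(C4_par l) := by simp [C4_par, hs]
      have h2 : C4_XL e X (s :: l) = X * C4_XL e X l := by simp [C4_XL, hs]
      rw [h1, h2, ih]
      cases C4_par l
      · simp [h.Xe]
      · simp [h.XX]
    · have h1 : C4_par (s :: l) = C4_par l := by simp [C4_par, hs]
      have h2 : C4_XL e X (s :: l) = C4_XL e X l := by simp [C4_XL, hs]
      rw [h1, h2, ih]

/-- the section formula -/
theorem C4_sec (h : Rel e g H X a S ep em f0 f1) (x : Bool) (l : List (Fin 3)) :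
    ev e H l * em * C4_f f0 f1 x =
      ev e g (secW x l).1 * em * C4_f f0 f1 (secW x l).2 * C4_XL e X l := by
  induction l with
  | nil =>
    have hfe : C4_f f0 f1 x * e = C4_f f0 f1 x := by
      unfold C4_f
      split_ifs
      · exact C4_f1_e h
      · exact h.fee
    simp only [ev, secW, C4_XL]
    rw [mul_assoc (e * em), hfe]
  | cons s l ih =>
    have hce : Commute e em := by
      show e * em = em * e
      rw [C4_e_em h, C4_em_e h]
    have hcw : Commute (ev e g (secW x l).1) em := C4_comm hce (C4_g_em h) _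
    have hcw0 : Commute (ev e g (secW x l).1) f0 :=
      C4_comm (show e * f0 = f0 * e by rw [h.efe, h.fee]) h.gf _
    have hcw1 : Commute (ev e g (secW x l).1) f1 :=
      C4_comm (show e * f1 = f1 * e by rw [C4_e_f1 h, C4_f1_e h]) (C4_g_f1 h) _
    have hcwX : Commute (ev e g (secW x l).1) X :=
      C4_comm (show e * X = X * e by rw [h.eX, h.Xe]) h.gX _
    have hL : ev e H (s :: l) * em * C4_f f0 f1 x =
        (H s * em) * (ev e g (secW x l).1 * C4_f f0 f1 (secW x l).2) * C4_XL e X l := by
      calc ev e H (s :: l) * em * C4_f f0 f1 x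
          = H s * (ev e H l * em * C4_f f0 f1 x) := by simp only [ev, mul_assoc]
        _ = H s * (ev e g (secW x l).1 * em * C4_f f0 f1 (secW x l).2 * C4_XL e X l) := by
            rw [ih]
        _ = H s * (em * ev e g (secW x l).1 * C4_f f0 f1 (secW x l).2 * C4_XL e X l) := by
            rw [hcw.eq]
        _ = _ := by simp only [mul_assoc]
    rw [hL]
    simp only [secW, ev, C4_XL]
    generalize ev e g (secW x l).1 = w at *
    generalize C4_XL e X l = XL at *
    generalize (secW x l).2 = y at *
    have hc0 := (C4_em_f0 h)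
    have hc1 := (C4_em_f1 h)
    have hcX := (C4_X_em h)
    -- `f_y` times the sum
    have hf : ∀ u v : A, (u * f0 + v * f1) * em * (w * C4_f f0 f1 y) =
        (if y = true then v else u) * (w * em * C4_f f0 f1 y) := by
      intro u v
      unfold C4_f
      cases y
      · simp only [if_false, Bool.false_eq_true]
        calc (u * f0 + v * f1) * em * (w * f0)
            = u * (f0 * em * (w * f0)) + v * (f1 * em * (w * f0)) := by noncomm_ring
          _ = u * (w * em * f0) + v * 0 := by
              congr 2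
              · calc f0 * em * (w * f0) = f0 * em * (f0 * w) := by rw [hcw0.eq]
                  _ = (f0 * em) * f0 * w := by rw [mul_assoc (f0 * em)]
                  _ = (em * f0) * f0 * w := by rw [hc0.eq]
                  _ = em * (f0 * f0) * w := by simp only [mul_assoc]
                  _ = em * f0 * w := by rw [h.ff]
                  _ = em * (w * f0) := by rw [mul_assoc, hcw0.eq]
                  _ = (w * em) * f0 := by rw [← mul_assoc, hcw.eq]
              · calc f1 * em * (w * f0) = f1 * em * (f0 * w) := by rw [hcw0.eq]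
                  _ = (f1 * em) * f0 * w := by rw [mul_assoc (f1 * em)]
                  _ = (em * f1) * f0 * w := by rw [hc1.eq]
                  _ = em * (f1 * f0) * w := by simp only [mul_assoc]
                  _ = 0 := by rw [C4_f1f0 h, mul_zero, zero_mul]
          _ = u * (w * em * f0) := by rw [mul_zero, add_zero]
      · simp only [if_true]
        calc (u * f0 + v * f1) * em * (w * f1)
            = u * (f0 * em * (w * f1)) + v * (f1 * em * (w * f1)) := by noncomm_ring
          _ = u * 0 + v * (w * em * f1) := by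
              congr 2
              · calc f0 * em * (w * f1) = f0 * em * (f1 * w) := by rw [hcw1.eq]
                  _ = (f0 * em) * f1 * w := by rw [mul_assoc (f0 * em)]
                  _ = (em * f0) * f1 * w := by rw [hc0.eq]
                  _ = em * (f0 * f1) * w := by simp only [mul_assoc]
                  _ = 0 := by rw [C4_f0f1 h, mul_zero, zero_mul]
              · calc f1 * em * (w * f1) = f1 * em * (f1 * w) := by rw [hcw1.eq]
                  _ = (f1 * em) * f1 * w := by rw [mul_assoc (f1 * em)]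
                  _ = (em * f1) * f1 * w := by rw [hc1.eq]
                  _ = em * (f1 * f1) * w := by simp only [mul_assoc]
                  _ = em * f1 * w := by rw [C4_f1f1 h]
                  _ = em * (w * f1) := by rw [mul_assoc, hcw1.eq]
                  _ = (w * em) * f1 := by rw [← mul_assoc, hcw.eq]
          _ = v * (w * em * f1) := by rw [mul_zero, zero_add]
    have hXf : X * C4_f f0 f1 y = C4_f f0 f1 (!y) * X := by
      unfold C4_f
      cases y
      · simpa using h.Xf
      · simpa using C4_X_f1 h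
    fin_cases s
    · show H 0 * em * (w * C4_f f0 f1 y) * XL =
        g (lsec 0 y) * w * em * C4_f f0 f1 (lout 0 y) * XL
      rw [h.H0, hf]
      cases y <;> simp [lsec, lout, mul_assoc]
    · show H 1 * em * (w * C4_f f0 f1 y) * XL =
        g (lsec 1 y) * w * em * C4_f f0 f1 (lout 1 y) * XL
      rw [h.H1, hf]
      cases y <;> simp [lsec, lout, mul_assoc]
    · show H 2 * em * (w * C4_f f0 f1 y) * XL =
        g (lsec 2 y) * w * em * C4_f f0 f1 (lout 2 y) * (if (2 : Fin 3) = 2 then X * XL else XL)
      rw [h.H2, if_pos rfl]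
      have : lsec 2 y = 0 := by cases y <;> rfl
      rw [this]
      have : lout 2 y = !y := by simp [lout]
      rw [this]
      calc g 0 * X * em * (w * C4_f f0 f1 y) * XL
          = g 0 * ((X * em) * w * C4_f f0 f1 y) * XL := by simp only [mul_assoc]
        _ = g 0 * ((em * X) * w * C4_f f0 f1 y) * XL := by rw [hcX.eq]
        _ = g 0 * (em * (X * w) * C4_f f0 f1 y) * XL := by simp only [mul_assoc]
        _ = g 0 * (em * (w * X) * C4_f f0 f1 y) * XL := by rw [hcwX.eq]
        _ = g 0 * ((em * w) * (X * C4_f f0 f1 y)) * XL := by simp only [mul_assoc]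
        _ = g 0 * ((w * em) * (C4_f f0 f1 (!y) * X)) * XL := by rw [hXf, hcw.eq]
        _ = _ := by simp only [mul_assoc]


/-- `w^H e₊ = w e₊` -/
theorem C4_plus (h : Rel e g H X a S ep em f0 f1) (l : List (Fin 3)) :
    ev e H l * ep = ev e g l * ep := by
  induction l with
  | nil => rfl
  | cons s l ih =>
    have hc : Commute (ev e g l) ep :=
      C4_comm (show e * ep = ep * e by rw [h.epe, h.pee]) h.gep l
    calc ev e H (s :: l) * ep = H s * (ev e H l * ep) := by simp only [ev, mul_assoc]
      _ = H s * (ev e g l * ep) := by rw [ih]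
      _ = (H s * ep) * ev e g l := by rw [hc.eq, mul_assoc]
      _ = (g s * ep) * ev e g l := by rw [h.Hp]
      _ = g s * (ev e g l * ep) := by rw [mul_assoc, hc.eq]
      _ = ev e g (s :: l) * ep := by simp only [ev, mul_assoc]

theorem C4_em_S (h : Rel e g H X a S ep em f0 f1) (l : List (Fin 3)) :
    Commute (ev e H l) S :=
  C4_comm (show e * S = S * e by rw [h.eS, h.Se]) (fun s => (h.SH s).symm) l

end C4

section trace

variable {A : Type} [Ring A] [Algebra ℂ A] {e : A} {g H : Fin 3 → A} {X a S ep em f0 f1 : A}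

/-- `τ(w e₊) = τ(w e₋)` -/
theorem C4_tr1 (h : Rel e g H X a S ep em f0 f1) (τ : A →ₗ[ℂ] ℂ)
    (ht : ∀ x y, τ (x * y) = τ (y * x)) (l : List (Fin 3)) :
    τ (ev e g l * ep) = τ (ev e g l * em) := by
  have hc : Commute (ev e g l) a :=
    C4_comm (show e * a = a * e by rw [h.ea, h.ae]) h.ga l
  have hwe := C4_ev_e h.ee h.ge l
  calc τ (ev e g l * ep) = τ (ev e g l * e * ep) := by rw [hwe]
    _ = τ (ev e g l * (a * a) * ep) := by rw [h.aa]
    _ = τ (ev e g l * a * (a * ep)) := by simp only [mul_assoc]
    _ = τ (ev e g l * a * (em * a)) := by rw [h.ap]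
    _ = τ ((ev e g l * a * em) * a) := by simp only [mul_assoc]
    _ = τ (a * (ev e g l * a * em)) := ht _ _
    _ = τ ((a * ev e g l) * a * em) := by simp only [mul_assoc]
    _ = τ ((ev e g l * a) * a * em) := by rw [hc.eq]
    _ = τ (ev e g l * (a * a) * em) := by simp only [mul_assoc]
    _ = τ (ev e g l * em) := by rw [h.aa, hwe]

theorem C4_tr2 (h : Rel e g H X a S ep em f0 f1) (τ : A →ₗ[ℂ] ℂ)
    (ht : ∀ x y, τ (x * y) = τ (y * x)) (l : List (Fin 3)) :
    2 * τ (ev e g l * em) = τ (ev e g l) := by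
  have h1 := C4_tr1 h τ ht l
  have h2 : τ (ev e g l) = τ (ev e g l * ep) + τ (ev e g l * em) := by
    rw [← map_add, ← mul_add, h.pe, C4_ev_e h.ee h.ge l]
  rw [h2, h1]
  ring

/-- `τ(w^H e₋) = τ(w e₋)` -/
theorem C4_tr3 (h : Rel e g H X a S ep em f0 f1) (τ : A →ₗ[ℂ] ℂ)
    (ht : ∀ x y, τ (x * y) = τ (y * x)) (l : List (Fin 3)) :
    τ (ev e H l * em) = τ (ev e g l * em) := by
  have hc := C4_em_S h l
  have hwe := C4_ev_e h.ee h.He l
  have h1 : τ (ev e H l * ep) = τ (ev e H l * em) := by
    calc τ (ev e H l * ep) = τ (ev e H l * e * ep) := by rw [hwe]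
      _ = τ (ev e H l * (S * S) * ep) := by rw [h.SS]
      _ = τ (ev e H l * S * (S * ep)) := by simp only [mul_assoc]
      _ = τ (ev e H l * S * (em * S)) := by rw [h.Sp]
      _ = τ ((ev e H l * S * em) * S) := by simp only [mul_assoc]
      _ = τ (S * (ev e H l * S * em)) := ht _ _
      _ = τ ((S * ev e H l) * S * em) := by simp only [mul_assoc]
      _ = τ ((ev e H l * S) * S * em) := by rw [hc.eq]
      _ = τ (ev e H l * (S * S) * em) := by simp only [mul_assoc]
      _ = τ (ev e H l * em) := by rw [h.SS, hwe]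
  rw [← h1, C4_plus h, C4_tr1 h τ ht]

/-- `τ(w e₋ f₀) = τ(w e₋ f₁)`, and twice this is `τ(w e₋)` -/
theorem C4_tr4 (h : Rel e g H X a S ep em f0 f1) (τ : A →ₗ[ℂ] ℂ)
    (ht : ∀ x y, τ (x * y) = τ (y * x)) (l : List (Fin 3)) (x : Bool) :
    2 * τ (ev e g l * em * C4_f f0 f1 x) = τ (ev e g l * em) := by
  have hcX : Commute (ev e g l) X :=
    C4_comm (show e * X = X * e by rw [h.eX, h.Xe]) h.gX l
  have hme := C4_em_e h
  have hXm := C4_X_em h
  have h1 : τ (ev e g l * em * f0) = τ (ev e g l * em * f1) := by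
    calc τ (ev e g l * em * f0) = τ (ev e g l * (em * e) * f0) := by rw [hme]
      _ = τ (ev e g l * (em * (X * X)) * f0) := by rw [h.XX]
      _ = τ (ev e g l * em * X * (X * f0)) := by simp only [mul_assoc]
      _ = τ (ev e g l * em * X * (f1 * X)) := by rw [h.Xf]
      _ = τ ((ev e g l * em * X * f1) * X) := by simp only [mul_assoc]
      _ = τ (X * (ev e g l * em * X * f1)) := ht _ _
      _ = τ ((X * ev e g l) * em * X * f1) := by simp only [mul_assoc]
      _ = τ ((ev e g l * X) * em * X * f1) := by rw [hcX.eq]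
      _ = τ (ev e g l * (X * em) * X * f1) := by simp only [mul_assoc]
      _ = τ (ev e g l * (em * X) * X * f1) := by rw [hXm.eq]
      _ = τ (ev e g l * (em * (X * X)) * f1) := by simp only [mul_assoc]
      _ = τ (ev e g l * em * f1) := by rw [h.XX, hme]
  have h2 : τ (ev e g l * em) = τ (ev e g l * em * f0) + τ (ev e g l * em * f1) := by
    rw [← map_add, ← mul_add, h.fe, mul_assoc, hme]
  unfold C4_f
  cases x
  · simp only [if_false, Bool.false_eq_true]
    rw [h2, h1]; ring
  · simp only [if_true]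
    rw [h2, h1]; ring

theorem C4_fee (h : Rel e g H X a S ep em f0 f1) (x : Bool) :
    C4_f f0 f1 x * e = C4_f f0 f1 x := by
  unfold C4_f
  split_ifs
  · exact C4_f1_e h
  · exact h.fee

theorem C4_sum (h : Rel e g H X a S ep em f0 f1) (τ : A →ₗ[ℂ] ℂ)
    (ht : ∀ x y, τ (x * y) = τ (y * x)) (l : List (Fin 3)) :
    τ (ev e g l) = 2 * (τ (ev e H l * em * C4_f f0 f1 false) +
      τ (ev e H l * em * C4_f f0 f1 true)) := by
  rw [← C4_tr2 h τ ht, ← C4_tr3 h τ ht, ← map_add, ← mul_add]
  have : C4_f f0 f1 false + C4_f f0 f1 true = e := by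
    unfold C4_f
    simpa using h.fe
  rw [this, mul_assoc, C4_em_e h]

/-- C4 : the trace recursion, odd words -/
theorem rec_odd {A : Type} [Ring A] [Algebra ℂ A] {e : A} {g H : Fin 3 → A}
    {X a S ep em f0 f1 : A} (h : Rel e g H X a S ep em f0 f1) (τ : A →ₗ[ℂ] ℂ)
    (ht : ∀ x y, τ (x * y) = τ (y * x)) (l : List (Fin 3)) (hl : (secW false l).2 = true) :
    τ (ev e g l) = 0 := by
  have hp : C4_par l = true := by
    rw [C4_out] at hl
    simpa using hl
  have key : ∀ x, τ (ev e H l * em * C4_f f0 f1 x) = 0 := by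
    intro x
    have hff : C4_f f0 f1 x * C4_f f0 f1 x = C4_f f0 f1 x := by
      unfold C4_f
      split_ifs
      · exact C4_f1f1 h
      · exact h.ff
    have hf0 : C4_f f0 f1 x * C4_f f0 f1 (!x) = 0 := by
      unfold C4_f
      cases x
      · simpa using C4_f0f1 h
      · simpa using C4_f1f0 h
    have hcf : Commute (ev e g (secW x l).1 * em) (C4_f f0 f1 x) := by
      have hcw0 : Commute (ev e g (secW x l).1) f0 :=
        C4_comm (show e * f0 = f0 * e by rw [h.efe, h.fee]) h.gf _
      have hcw1 : Commute (ev e g (secW x l).1) f1 :=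
        C4_comm (show e * f1 = f1 * e by rw [C4_e_f1 h, C4_f1_e h]) (C4_g_f1 h) _
      unfold C4_f
      split_ifs
      · exact hcw1.mul_left (C4_em_f1 h)
      · exact hcw0.mul_left (C4_em_f0 h)
    have hsec := C4_sec h x l
    rw [C4_out, hp, Bool.xor_true] at hsec
    calc τ (ev e H l * em * C4_f f0 f1 x)
        = τ (ev e H l * em * (C4_f f0 f1 x * C4_f f0 f1 x)) := by rw [hff]
      _ = τ ((ev e H l * em * C4_f f0 f1 x) * C4_f f0 f1 x) := by simp only [mul_assoc]
      _ = τ (C4_f f0 f1 x * (ev e H l * em * C4_f f0 f1 x)) := ht _ _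
      _ = τ (C4_f f0 f1 x * (ev e g (secW x l).1 * em * C4_f f0 f1 (!x) * C4_XL e X l)) := by
          rw [hsec]
      _ = τ ((C4_f f0 f1 x * (ev e g (secW x l).1 * em)) * C4_f f0 f1 (!x) * C4_XL e X l) := by
          simp only [mul_assoc]
      _ = τ (((ev e g (secW x l).1 * em) * C4_f f0 f1 x) * C4_f f0 f1 (!x) * C4_XL e X l) := by
          rw [hcf.eq]
      _ = τ ((ev e g (secW x l).1 * em) * (C4_f f0 f1 x * C4_f f0 f1 (!x)) * C4_XL e X l) := by
          simp only [mul_assoc]
      _ = 0 := by rw [hf0, mul_zero, zero_mul, map_zero]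
  rw [C4_sum h τ ht, key, key]
  ring

/-- C4 : the trace recursion, even words -/
theorem rec_even {A : Type} [Ring A] [Algebra ℂ A] {e : A} {g H : Fin 3 → A}
    {X a S ep em f0 f1 : A} (h : Rel e g H X a S ep em f0 f1) (τ : A →ₗ[ℂ] ℂ)
    (ht : ∀ x y, τ (x * y) = τ (y * x)) (l : List (Fin 3)) (hl : (secW false l).2 = false) :
    2 * τ (ev e g l) = τ (ev e g (secW false l).1) + τ (ev e g (secW true l).1) := by
  have hp : C4_par l = false := by
    rw [C4_out] at hl
    simpa using hl
  have hXL : C4_XL e X l = e := by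
    rw [C4_XL_par h, hp]
    simp
  have key : ∀ x, 4 * τ (ev e H l * em * C4_f f0 f1 x) = τ (ev e g (secW x l).1) := by
    intro x
    have hsec := C4_sec h x l
    rw [C4_out, hp, Bool.xor_false, hXL, mul_assoc _ (C4_f f0 f1 x) e, C4_fee h] at hsec
    rw [hsec]
    have h1 := C4_tr4 h τ ht (secW x l).1 x
    have h2 := C4_tr2 h τ ht (secW x l).1
    rw [← h2, ← h1]
    ring
  rw [C4_sum h τ ht, ← key false, ← key true]
  ring

end trace

end Pool.Agent.H707R.LF
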