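import Pool.Agent.H707R.LF.DefsC

/-!
# C6: some iterate of the section map of the Bellaterra automaton is odd
-/

set_option autoImplicit false

namespace Pool.Agent.H707R.LF

namespace C6x

/-- the section map -/
def rh : List (Fin 3) → List (Fin 3) := fun w => (secW false w).1

/-- the final bit -/
def tn (l : List (Fin 3)) : Bool := (secW false l).2

theorem rh_cons (s : Fin 3) (l : List (Fin 3)) : rh (s :: l) = lsec s (tn l) :: rh l := rfl

theorem tn_cons (s : Fin 3) (l : List (Fin 3)) : tn (s :: l) = lout s (tn l) := rfl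

/-- reduced words with last letter `0` or `2` -/
inductive InC : List (Fin 3) → Prop
  | zero : InC [0]
  | two : InC [2]
  | cons (s h : Fin 3) (l : List (Fin 3)) : s ≠ h → InC (h :: l) → InC (s :: h :: l)

/-- the encoding of a letter relative to the next one -/
def be (h s : Fin 3) : Bool := decide (s = h + 1)

/-- `Bool` to `ZMod 2` -/
def chi (b : Bool) : ZMod 2 := if b then 1 else 0

/-- indicator of the letter `2` -/
def tw (s : Fin 3) : ZMod 2 := if s = 2 then 1 else 0

theorem sw : ∀ h s : Fin 3, ∀ y : Bool, s ≠ h →
    lsec s (lout h y) ≠ lsec h y ∧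
    chi (be (lsec h y) (lsec s (lout h y))) = chi (be h s) + (1 + chi (lout h y)) := by
  decide

theorem third : ∀ h s s' : Fin 3, s ≠ h → s' ≠ h → chi (be h s') = chi (be h s) + 1 →
    s' = -(h + s) := by
  decide

theorem tw_third : ∀ h s : Fin 3, s ≠ h → tw s + tw (-(h + s)) = 1 + tw h := by
  decide

theorem neg_neg3 : ∀ h s : Fin 3, -(h + -(h + s)) = s := by
  decide

theorem third_ne : ∀ h s : Fin 3, s ≠ h → -(h + s) ≠ h := by
  decide

theorem chi_lout : ∀ s : Fin 3, ∀ y : Bool, chi (lout s y) = tw s + chi y := by
  decide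

theorem InC.rh {l : List (Fin 3)} (h : InC l) : InC (rh l) := by
  induction h with
  | zero => exact InC.two
  | two => exact InC.zero
  | cons s h l hne hl ih =>
    rw [rh_cons, rh_cons]
    rw [rh_cons] at ih
    refine InC.cons _ _ _ ?_ ih
    rw [tn_cons]
    exact (sw h s (tn l) hne).1

theorem InC.iter {l : List (Fin 3)} (h : InC l) (k : ℕ) : InC (C6x.rh^[k] l) := by
  induction k with
  | zero => exact h
  | succ k ih =>
    rw [Function.iterate_succ_apply']
    exact ih.rh

theorem iter_cons (s : Fin 3) (l : List (Fin 3)) (k : ℕ) :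
    ∃ s', rh^[k] (s :: l) = s' :: rh^[k] l := by
  induction k with
  | zero => exact ⟨s, rfl⟩
  | succ k ih =>
    obtain ⟨s', hs'⟩ := ih
    rw [Function.iterate_succ_apply', Function.iterate_succ_apply', hs', rh_cons]
    exact ⟨_, rfl⟩

/-- the head letter -/
def hd (l : List (Fin 3)) : Fin 3 := l.headD 0

/-- the bit of the first letter relative to the second -/
def bt (l : List (Fin 3)) : ZMod 2 := chi (be (hd l.tail) (hd l))

theorem bt_rh (s : Fin 3) (l : List (Fin 3)) (h : InC (s :: l)) (hl : l ≠ []) :
    bt (rh (s :: l)) = bt (s :: l) + (1 + chi (tn l)) := by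
  cases h with
  | zero => exact absurd rfl hl
  | two => exact absurd rfl hl
  | cons _ h l hne hl =>
    exact (sw h s (tn l) hne).2

theorem bt_iter (s : Fin 3) (l : List (Fin 3)) (h : InC (s :: l)) (hl : l ≠ []) (m : ℕ) :
    bt (rh^[m] (s :: l)) = bt (s :: l) +
      ∑ k ∈ Finset.range m, (1 + chi (tn (rh^[k] l))) := by
  induction m with
  | zero => simp
  | succ m ih =>
    rw [Finset.sum_range_succ, ← add_assoc, ← ih, Function.iterate_succ_apply']
    obtain ⟨s', hs'⟩ := iter_cons s l m
    rw [hs']
    have h1 := h.iter m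
    rw [hs'] at h1
    apply bt_rh _ _ h1
    intro h0
    obtain ⟨t, l', rfl⟩ := List.exists_cons_of_ne_nil hl
    obtain ⟨t', ht'⟩ := iter_cons t l' m
    rw [ht'] at h0
    exact List.cons_ne_nil _ _ h0

/-- the induction statement -/
def P (l : List (Fin 3)) : Prop := rh^[2 ^ l.length] l = l ∧
  ∑ k ∈ Finset.range (2 ^ l.length), chi (tn (rh^[k] l)) = 1 ∧
  ∑ k ∈ Finset.range (2 ^ l.length), tw (hd (rh^[k] l)) = 1

theorem InC.ne {l : List (Fin 3)} (h : InC l) : l ≠ [] := by
  cases h <;> simp

theorem pow2 (n : ℕ) (hn : 1 ≤ n) : ((2 ^ n : ℕ) : ZMod 2) = 0 := by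
  obtain ⟨m, rfl⟩ := Nat.exists_eq_add_of_le' hn
  rw [pow_succ, Nat.cast_mul]
  have : ((2 : ℕ) : ZMod 2) = 0 := by decide
  rw [this, mul_zero]

theorem half (s : Fin 3) (l : List (Fin 3)) (h : InC (s :: l)) (hl : InC l) (hP : P l) :
    rh^[2 ^ l.length] (s :: l) = (-(hd l + s)) :: l := by
  have h1 := bt_iter s l h hl.ne (2 ^ l.length)
  have hlen : 1 ≤ l.length := List.length_pos_iff.2 hl.ne
  rw [Finset.sum_add_distrib, hP.2.1, Finset.sum_const, Finset.card_range, nsmul_eq_mul,
    pow2 _ hlen, zero_mul, zero_add] at h1
  obtain ⟨s', hs'⟩ := iter_cons s l (2 ^ l.length)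
  have h2 := h.iter (2 ^ l.length)
  rw [hs', hP.1] at h2
  rw [hs', hP.1] at h1
  rw [hs', hP.1]
  congr 1
  cases h with
  | zero => exact absurd rfl hl.ne
  | two => exact absurd rfl hl.ne
  | cons _ t l hne hl' =>
    cases h2 with
    | cons _ _ _ hne2 _ =>
      exact third t s s' hne hne2 h1

theorem P_iter {l : List (Fin 3)} (n : ℕ) (ih : ∀ l, InC l → l.length = n → P l) (hl : InC l)
    (hn : l.length = n) (k : ℕ) : P (rh^[k] l) := by
  apply ih _ (hl.iter k)
  rw [← hn]
  clear ih hn hl
  have : ∀ l, (rh l).length = l.length := by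
    intro l
    induction l with
    | nil => rfl
    | cons s l ih => rw [rh_cons, List.length_cons, List.length_cons, ih]
  induction k with
  | zero => rfl
  | succ k ih => rw [Function.iterate_succ_apply', this, ih]

theorem allP (n : ℕ) : ∀ l, InC l → l.length = n → P l := by
  induction n with
  | zero =>
    intro l hl hn
    exact absurd (List.length_eq_zero_iff.1 hn) hl.ne
  | succ n ih =>
    intro l hl hn
    cases hl with
    | zero => exact ⟨rfl, by decide, by decide⟩
    | two => exact ⟨rfl, by decide, by decide⟩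
    | cons s h l0 hne hl0 =>
      set l : List (Fin 3) := h :: l0 with hldef
      have hsl : InC (s :: l) := InC.cons s h l0 hne hl0
      have hn' : l.length = n := by
        rw [List.length_cons] at hn
        omega
      have hPl : P l := ih l hl0 hn'
      -- the half turn at every time
      have hhalf : ∀ k, ∃ s', s' ≠ hd (rh^[k] l) ∧ rh^[k] (s :: l) = s' :: rh^[k] l ∧
          rh^[2 ^ n + k] (s :: l) = (-(hd (rh^[k] l) + s')) :: rh^[k] l := by
        intro k
        obtain ⟨s', hs'⟩ := iter_cons s l k
        have h1 := hsl.iter k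
        rw [hs'] at h1
        have h2 := half s' (rh^[k] l) h1 (hl0.iter k) (P_iter n ih hl0 hn' k)
        have hlen : (rh^[k] l).length = n := by
          have := P_iter n ih hl0 hn' k
          have hh : ∀ l, (rh l).length = l.length := by
            intro l
            induction l with
            | nil => rfl
            | cons s l ih => rw [rh_cons, List.length_cons, List.length_cons, ih]
          rw [← hn']
          clear * - hh
          induction k with
          | zero => rfl
          | succ k ih => rw [Function.iterate_succ_apply', hh, ih]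
        rw [hlen] at h2
        refine ⟨s', ?_, hs', ?_⟩
        · cases hk : rh^[k] l with
          | nil => exact absurd hk (hl0.iter k).ne
          | cons t l1 =>
            rw [hk] at h1
            cases h1 with
            | cons _ _ _ hne2 _ => exact hne2
        · rw [Function.iterate_add_apply, hs', h2]
      have hsum : ∑ k ∈ Finset.range (2 ^ n), (1 + tw (hd (rh^[k] l))) = 1 := by
        have := hPl.2.2
        rw [hn'] at this
        rw [Finset.sum_add_distrib, this, Finset.sum_const, Finset.card_range, nsmul_eq_mul]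
        have hn1 : 1 ≤ n := by
          rw [← hn']
          exact List.length_pos_iff.2 hl0.ne
        rw [pow2 n hn1, zero_mul, zero_add]
      have hdouble : ∀ f : ℕ → ZMod 2, ∑ k ∈ Finset.range (2 ^ (n + 1)), f k =
          ∑ k ∈ Finset.range (2 ^ n), (f k + f (2 ^ n + k)) := by
        intro f
        have e : 2 ^ (n + 1) = 2 ^ n + 2 ^ n := by ring
        rw [e, Finset.sum_range_add, Finset.sum_add_distrib]
      have hlen2 : (s :: l).length = n + 1 := by rw [List.length_cons, hn']
      refine ⟨?_, ?_, ?_⟩
      · rw [hlen2]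
        have e : 2 ^ (n + 1) = 2 ^ n + 2 ^ n := by ring
        obtain ⟨s', _, h1, h2⟩ := hhalf 0
        have h3 : rh^[2 ^ n] (s :: l) = (-(hd l + s)) :: l := by
          have := half s l hsl hl0 hPl
          rw [hn'] at this
          exact this
        have hsl' : InC ((-(hd l + s)) :: l) := InC.cons _ h l0 (third_ne h s hne) hl0
        have h4 : rh^[2 ^ n] ((-(hd l + s)) :: l) = (-(hd l + -(hd l + s))) :: l := by
          have := half _ l hsl' hl0 hPl
          rw [hn'] at this
          exact this
        rw [e, Function.iterate_add_apply, h3, h4, neg_neg3]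
      · rw [hlen2, hdouble, ← hsum]
        refine Finset.sum_congr rfl fun k _ => ?_
        obtain ⟨s', hne', h1, h2⟩ := hhalf k
        rw [h1, h2, tn_cons, tn_cons, chi_lout, chi_lout]
        have h3 := tw_third (hd (rh^[k] l)) s' hne'
        have h4 : ∀ x : ZMod 2, x + x = 0 := by decide
        rw [← h3]
        calc tw s' + chi (tn (rh^[k] l)) + (tw (-(hd (rh^[k] l) + s')) + chi (tn (rh^[k] l))) =
            tw s' + tw (-(hd (rh^[k] l) + s')) + (chi (tn (rh^[k] l)) + chi (tn (rh^[k] l))) := by
              ring
          _ = _ := by rw [h4, add_zero]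
      · rw [hlen2, hdouble, ← hsum]
        refine Finset.sum_congr rfl fun k _ => ?_
        obtain ⟨s', hne', h1, h2⟩ := hhalf k
        rw [h1, h2]
        exact tw_third (hd (rh^[k] l)) s' hne'

theorem inC_of (l : List (Fin 3)) (h : Red l) (h1 : l.getLast? = some 0 ∨ l.getLast? = some 2) :
    InC l := by
  induction l with
  | nil => simp at h1
  | cons s l ih =>
    cases l with
    | nil =>
      rcases h1 with h1 | h1
      · have : s = 0 := by simpa using h1
        subst this; exact InC.zero
      · have : s = 2 := by simpa using h1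
        subst this; exact InC.two
    | cons t l =>
      have hr : s ≠ t ∧ Red (t :: l) := h
      refine InC.cons s t l hr.1 (ih hr.2 ?_)
      rw [List.getLast?_cons_cons] at h1
      exact h1

end C6x

/-- C6 : some iterate of `ρ_0` is odd -/
theorem exists_odd (l : List (Fin 3)) (h : Red l) (h1 : l.getLast? = some 0 ∨ l.getLast? = some 2) :
    ∃ k, (secW false ((fun w => (secW false w).1)^[k] l)).2 = true := by
  have hP := C6x.allP l.length l (C6x.inC_of l h h1) rfl
  by_contra hcon
  push Not at hcon
  have h0 : ∀ k, C6x.tn (C6x.rh^[k] l) = false := by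
    intro k
    exact Bool.eq_false_iff.2 (hcon k)
  have h2 := hP.2.1
  rw [Finset.sum_eq_zero] at h2
  · exact absurd h2 (by decide)
  · intro k _
    rw [h0 k]
    rfl

end Pool.Agent.H707R.LF
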