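import Pool.Agent.H707F.LF.T_C5
import Pool.Agent.H707F.LF.T_C6
import Pool.Agent.H707R.LF.DefsC

set_option autoImplicit false

namespace Pool.Agent.H707R.LF

open Pool.Agent.Helper278

private theorem C7_last (x : Bool) : ∀ l : List (Fin 3),
    (secW x l).1.getLast? = l.getLast?.map (fun s => lsec s x)
  | [] => rfl
  | [s] => rfl
  | s :: t :: l => by
    have ih := C7_last x (t :: l)
    have e1 : (secW x (s :: t :: l)).1 = lsec s (secW x (t :: l)).2 :: (secW x (t :: l)).1 := rfl
    have e2 : (secW x (t :: l)).1 = lsec t (secW x l).2 :: (secW x l).1 := rfl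
    rw [e1, List.getLast?_cons_cons, ← ih, e2, List.getLast?_cons_cons]

/-- C7 : the maximum principle -/
theorem trace_zero (t : List (Fin 3) → ℂ) (h0 : ∀ l, (secW false l).2 = true → t l = 0)
    (h1 : ∀ l, (secW false l).2 = false → 2 * t l = t (secW false l).1 + t (secW true l).1) :
    ∀ l, Red l → l ≠ [] → t l = 0 := by
  intro l hl hne
  by_contra hnz
  set S : Set (List (Fin 3)) := {m | m.length = l.length ∧ Red m} with hSdef
  have hfin : S.Finite :=
    (List.finite_length_eq (Fin 3) l.length).subset (fun m hm => hm.1)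
  have hlS : l ∈ S := ⟨rfl, hl⟩
  obtain ⟨m, hmS, hmax⟩ := hfin.exists_maximalFor (fun m => ‖t m‖) S ⟨l, hlS⟩
  have hmax' : ∀ m' ∈ S, ‖t m'‖ ≤ ‖t m‖ := by
    intro m' hm'
    rcases le_total (‖t m‖) (‖t m'‖) with h | h
    · exact hmax hm' h
    · exact h
  set M := ‖t m‖ with hM
  have hMpos : 0 < M := lt_of_lt_of_le (norm_pos_iff.mpr hnz) (hmax' l hlS)
  have hsec : ∀ x, ∀ w ∈ S, (secW x w).1 ∈ S := by
    intro x w hw
    obtain ⟨a, b⟩ := secW_red x w hw.2
    exact ⟨b.trans hw.1, a⟩
  have hA : ∀ w ∈ S, ‖t w‖ = M → (secW false w).2 = false := by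
    intro w hw hwM
    by_contra hc
    have : (secW false w).2 = true := by
      cases h : (secW false w).2 with
      | true => rfl
      | false => exact absurd h hc
    rw [h0 w this, norm_zero] at hwM
    exact absurd hwM (ne_of_lt hMpos)
  have hB : ∀ w ∈ S, ‖t w‖ = M → ∀ x, ‖t (secW x w).1‖ = M := by
    intro w hw hwM
    have e := h1 w (hA w hw hwM)
    have hn : 2 * M ≤ ‖t (secW false w).1‖ + ‖t (secW true w).1‖ := by
      calc 2 * M = ‖2 * t w‖ := by rw [norm_mul, hwM]; norm_num
        _ = ‖t (secW false w).1 + t (secW true w).1‖ := by rw [e]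
        _ ≤ _ := norm_add_le _ _
    have ha := hmax' _ (hsec false w hw)
    have hb := hmax' _ (hsec true w hw)
    intro x
    cases x
    · exact le_antisymm ha (by linarith)
    · exact le_antisymm hb (by linarith)
  -- a maximal word whose last letter is not `1`
  have hgood : ∃ w ∈ S, ‖t w‖ = M ∧ (w.getLast? = some 0 ∨ w.getLast? = some 2) := by
    have hmne : m ≠ [] := by
      intro h
      apply hne
      apply List.length_eq_zero_iff.mp
      rw [← hmS.1, h]; rfl
    obtain ⟨s, hs⟩ : ∃ s, m.getLast? = some s := ⟨_, List.getLast?_eq_some_getLast hmne⟩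
    by_cases h1' : s = 1
    · refine ⟨(secW true m).1, hsec true m hmS, hB m hmS rfl true, Or.inr ?_⟩
      rw [C7_last, hs, h1']
      rfl
    · refine ⟨m, hmS, rfl, ?_⟩
      rw [hs]
      fin_cases s
      · exact Or.inl rfl
      · exact absurd rfl h1'
      · exact Or.inr rfl
  obtain ⟨w, hwS, hwM, hwl⟩ := hgood
  obtain ⟨k, hk⟩ := exists_odd w hwS.2 hwl
  have hit : ∀ k, ((fun w => (secW false w).1)^[k] w) ∈ S ∧
      ‖t ((fun w => (secW false w).1)^[k] w)‖ = M := by
    intro k
    induction k with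
    | zero => exact ⟨hwS, hwM⟩
    | succ k ih =>
      rw [Function.iterate_succ_apply']
      exact ⟨hsec false _ ih.1, hB _ ih.1 ih.2 false⟩
  have := hA _ (hit k).1 (hit k).2
  rw [this] at hk
  exact Bool.noConfusion hk

end Pool.Agent.H707R.LF
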