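import Pool.Agent.H707F.LF.T_C3
import Pool.Agent.H707F.LF.T_C4
import Pool.Agent.H707F.LF.T_C7
import Pool.Agent.H707R.LF.DefsC

set_option autoImplicit false

namespace Pool.Agent.H707R.LF

/-- C8 : the trace of every non-trivial reduced word vanishes -/
theorem sys_trace {A : Type} [Ring A] [StarRing A] [Algebra ℂ A] [StarModule ℂ A] {e : A}
    {m : Ctx → Out → A} (hS : Sys e m) (hsa : ∀ C o, star (m C o) = m C o) (τ : A →ₗ[ℂ] ℂ)
    (ht : ∀ x y, τ (x * y) = τ (y * x)) :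
    ∃ g : Fin 3 → A, Inv3 e g ∧ ∀ l, Red l → l ≠ [] → τ (ev e g l) = 0 := by
  obtain ⟨g, H, X, a, S, ep, em, f0, f1, hR, hg⟩ := sys_rel hS hsa
  refine ⟨g, ⟨hR.ee, ?_, hg, hR.gg, hR.eg, hR.ge⟩, ?_⟩
  · rw [← hS.sum .D, star_sum]
    exact Finset.sum_congr rfl (fun o _ => hsa _ o)
  · exact trace_zero (fun l => τ (ev e g l)) (fun l hl => rec_odd hR τ ht l hl)
      (fun l hl => rec_even hR τ ht l hl)

end Pool.Agent.H707R.LF
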