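import Pool.Agent.H707R.LF.Defs

set_option autoImplicit false

open scoped InnerProductSpace ComplexOrder BoundedContinuousFunction
open Filter

namespace Pool.Agent.H707R.LF

open Pool.Agent.Helper278 Pool.Agent.Helper436.SM

theorem D10_finite (n : ℕ) : (PkSet n).Finite := by
  refine Set.Finite.of_injOn (f := fun (v : VV) (i : Fin n) => v i) (t := Set.univ)
    (Set.mapsTo_univ _ _) ?_ (Set.toFinite _)
  intro v hv w hw h
  ext1 i
  rcases Nat.lt_or_ge i n with hi | hi
  · exact congrFun h ⟨i, hi⟩
  · rw [hv i hi, hw i hi]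

/-- D10 -/
theorem phiK_tendsto {A : Type} [Ring A] [StarRing A] [Algebra ℂ A] [StarModule ℂ A]
    {τ : A →ₗ[ℂ] ℂ} {W : VV → A} (h : PH τ W) (y : A) :
    Tendsto (fun k => phiK τ W k y) atTop (nhds (n2 τ y ^ 2)) := by
  classical
  have h1 := h.parseval y
  have h2 : Tendsto (fun k => (D10_finite k).toFinset) atTop (atTop : Filter (Finset VV)) := by
    refine tendsto_atTop.2 fun F => ?_
    obtain ⟨n, hn⟩ : ∃ n, ∀ v ∈ F, ∀ i, n ≤ i → v i = 0 := by
      refine ⟨F.sup (fun v => v.support.sup id + 1), fun v hv i hi => ?_⟩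
      by_contra hne
      have h1 : i ≤ v.support.sup id := Finset.le_sup (f := id) (Finsupp.mem_support_iff.mpr hne)
      have h2 : v.support.sup id + 1 ≤ F.sup (fun v => v.support.sup id + 1) :=
        Finset.le_sup (f := fun v : VV => v.support.sup id + 1) hv
      omega
    filter_upwards [eventually_ge_atTop n] with k hk
    intro v hv
    rw [Set.Finite.mem_toFinset]
    intro i hi
    exact hn v hv i (hk.trans hi)
  have h3 := Tendsto.comp h1 h2
  refine h3.congr fun k => ?_
  rw [phiK, finsum_mem_eq_finite_toFinset_sum _ (D10_finite k)]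
  rfl

end Pool.Agent.H707R.LF
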