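import Pool.Agent.H707R.LF.Defs

set_option autoImplicit false

open Filter

namespace Pool.Agent.H707R.LF

private theorem D3_act (s : Fin 3) (l : List (Fin 3)) : rd (s :: l) =
    match rd l with
    | [] => [s]
    | t :: l' => if s = t then l' else s :: t :: l' := rfl

private theorem D3_sq : (1 / Real.sqrt 2) ^ 2 = 1 / 2 := by
  rw [div_pow, Real.sq_sqrt (by norm_num)]
  norm_num

private theorem D3_rt : (2 * Real.sqrt 2) * (1 / Real.sqrt 2) = 2 := by
  have : Real.sqrt 2 ≠ 0 := by positivity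
  field_simp

private theorem D3_step (l : List (Fin 3)) :
    ∑ s : Fin 3, (1 / Real.sqrt 2) ^ (rd (s :: l)).length ≤
      2 * Real.sqrt 2 * (1 / Real.sqrt 2) ^ (rd l).length := by
  have h0 : (0 : ℝ) ≤ 1 / Real.sqrt 2 := by positivity
  have hsq := D3_sq
  have hrt := D3_rt
  simp only [D3_act]
  rcases hr : rd l with _ | ⟨t, l'⟩
  · simp only [List.length_cons, List.length_nil, zero_add, pow_one, Finset.sum_const,
      Finset.card_univ, Fintype.card_fin, pow_zero, mul_one, nsmul_eq_mul]
    push_cast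
    have h1 : (1 / Real.sqrt 2) = Real.sqrt 2 / 2 := by
      rw [div_eq_div_iff (by positivity) (by norm_num)]
      rw [← pow_two, Real.sq_sqrt (by norm_num)]
      norm_num
    rw [h1]
    have : 0 ≤ Real.sqrt 2 := by positivity
    linarith
  · simp only [List.length_cons]
    have key : ∑ s : Fin 3, (1 / Real.sqrt 2) ^ (if s = t then l' else s :: t :: l').length =
        (1 / Real.sqrt 2) ^ l'.length + 2 * (1 / Real.sqrt 2) ^ (l'.length + 2) := by
      have h1 : ∀ s : Fin 3, (1 / Real.sqrt 2) ^ (if s = t then l' else s :: t :: l').length =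
          if s = t then (1 / Real.sqrt 2) ^ l'.length else (1 / Real.sqrt 2) ^ (l'.length + 2) := by
        intro s
        split_ifs <;> simp [List.length_cons]
      rw [Finset.sum_congr rfl (fun s _ => h1 s)]
      rw [Fin.sum_univ_three]
      fin_cases t <;> simp <;> ring
    rw [key]
    have e1 : (1 / Real.sqrt 2) ^ (l'.length + 2) = (1 / Real.sqrt 2) ^ l'.length * (1 / 2) := by
      rw [pow_add, hsq]
    have e2 : 2 * Real.sqrt 2 * (1 / Real.sqrt 2) ^ (l'.length + 1) =
        2 * (1 / Real.sqrt 2) ^ l'.length := by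
      rw [pow_succ]
      calc 2 * Real.sqrt 2 * ((1 / Real.sqrt 2) ^ l'.length * (1 / Real.sqrt 2))
          = ((2 * Real.sqrt 2) * (1 / Real.sqrt 2)) * (1 / Real.sqrt 2) ^ l'.length := by ring
        _ = _ := by rw [hrt]
    rw [e1, e2]
    apply le_of_eq
    ring

private theorem D3_total (j : ℕ) :
    ∑ w : Fin j → Fin 3, (1 / Real.sqrt 2) ^ (rd (List.ofFn w)).length ≤
      (2 * Real.sqrt 2) ^ j := by
  induction j with
  | zero => simp [rd]
  | succ j ih =>
    rw [← (Fin.consEquiv (fun _ : Fin (j + 1) => Fin 3)).sum_comp, Fintype.sum_prod_type,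
      Finset.sum_comm]
    have h1 : ∀ w : Fin j → Fin 3, ∑ s : Fin 3, (1 / Real.sqrt 2) ^
        (rd (List.ofFn ((Fin.consEquiv (fun _ : Fin (j + 1) => Fin 3)) (s, w)))).length ≤
        2 * Real.sqrt 2 * (1 / Real.sqrt 2) ^ (rd (List.ofFn w)).length := by
      intro w
      have h2 : ∀ s : Fin 3, List.ofFn ((Fin.consEquiv (fun _ : Fin (j + 1) => Fin 3)) (s, w)) =
          s :: List.ofFn w := by
        intro s
        rw [List.ofFn_succ]
        simp [Fin.consEquiv]
      simp only [h2]
      exact D3_step _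
    refine (Finset.sum_le_sum (fun w _ => h1 w)).trans ?_
    rw [← Finset.mul_sum, pow_succ, mul_comm ((2 * Real.sqrt 2) ^ j)]
    exact mul_le_mul_of_nonneg_left ih (by positivity)

/-- D3 -/
theorem sum_Nw_weight (j : ℕ) (F : Finset (List (Fin 3))) :
    ∑ r ∈ F, (Nw j r : ℝ) * (1 / Real.sqrt 2) ^ r.length ≤ (2 * Real.sqrt 2) ^ j := by
  refine le_trans ?_ (D3_total j)
  have h1 : ∀ r ∈ F, (Nw j r : ℝ) * (1 / Real.sqrt 2) ^ r.length =
      ∑ w : Fin j → Fin 3, if rd (List.ofFn w) = r then
        (1 / Real.sqrt 2) ^ (rd (List.ofFn w)).length else 0 := by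
    intro r _
    rw [← Finset.sum_filter]
    unfold Nw
    rw [Finset.sum_congr rfl (fun w hw => by rw [(Finset.mem_filter.1 hw).2] : ∀ w ∈
      Finset.univ.filter (fun w : Fin j → Fin 3 => rd (List.ofFn w) = r),
      (1 / Real.sqrt 2) ^ (rd (List.ofFn w)).length = (1 / Real.sqrt 2) ^ r.length)]
    rw [Finset.sum_const, nsmul_eq_mul]
  rw [Finset.sum_congr rfl h1, Finset.sum_comm]
  apply Finset.sum_le_sum
  intro w _
  rw [Finset.sum_ite_eq]
  split_ifs
  · exact le_rfl
  · positivity

end Pool.Agent.H707R.LF
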