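import Pool.Agent.H707F.LF.T_D1
import Pool.Agent.H707F.LF.T_D4
import Pool.Agent.H707F.LF.T_D7
import Pool.Agent.H707R.LF.Defs

set_option autoImplicit false

open scoped InnerProductSpace ComplexOrder BoundedContinuousFunction
open Filter

namespace Pool.Agent.H707R.LF

open Pool.Agent.Helper278 Pool.Agent.Helper436.SM

private theorem D8_phiK_nonneg {A : Type} [Ring A] [StarRing A] [Algebra ℂ A] (τ : A →ₗ[ℂ] ℂ)
    (W : VV → A) (k : ℕ) (y : A) : 0 ≤ phiK τ W k y := by
  unfold phiK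
  exact finsum_nonneg fun u => finsum_nonneg fun _ => by positivity

/-- D8 -/
theorem Gk_le {A : Type} [Ring A] [StarRing A] [Algebra ℂ A] [StarModule ℂ A]
    {τ : A →ₗ[ℂ] ℂ} {W : VV → A} (h : PH τ W) (k : ℕ) {e : A} {g : Fin 3 → A}
    (hI : Inv3 e g) (hf : ∀ l, Red l → l ≠ [] → τ (ev e g l) = 0) (j : ℕ) :
    Gk τ W k e g j ≤ (2 * Real.sqrt 2) ^ j * 4 ^ k := by
  classical
  unfold Gk
  have h1 : ∑ w : Fin j → Fin 3, phiK τ W k (ev e g (List.ofFn w)) =
      ∑ w : Fin j → Fin 3, phiK τ W k (ev e g (rd (List.ofFn w))) := by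
    refine Finset.sum_congr rfl fun w _ => ?_
    rw [ev_rd hI]
  have h2 : ∑ w : Fin j → Fin 3, phiK τ W k (ev e g (rd (List.ofFn w))) =
      ∑ r ∈ (Finset.univ : Finset (Fin j → Fin 3)).image (fun w => rd (List.ofFn w)),
        (Nw j r : ℝ) * phiK τ W k (ev e g r) := by
    rw [← Finset.sum_fiberwise_of_maps_to
      (s := (Finset.univ : Finset (Fin j → Fin 3)))
      (t := (Finset.univ : Finset (Fin j → Fin 3)).image (fun w => rd (List.ofFn w)))
      (g := fun w => rd (List.ofFn w))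
      (fun w hw => Finset.mem_image_of_mem _ hw)]
    refine Finset.sum_congr rfl fun r _ => ?_
    rw [Finset.sum_congr rfl (g := fun _ => phiK τ W k (ev e g r))
      (fun w hw => by rw [(Finset.mem_filter.mp hw).2]), Finset.sum_const, nsmul_eq_mul]
    rfl
  rw [h1, h2]
  calc ∑ r ∈ (Finset.univ : Finset (Fin j → Fin 3)).image (fun w => rd (List.ofFn w)),
        (Nw j r : ℝ) * phiK τ W k (ev e g r)
      ≤ ∑ r ∈ (Finset.univ : Finset (Fin j → Fin 3)).image (fun w => rd (List.ofFn w)),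
        (2 * Real.sqrt 2) ^ j * phiK τ W k (ev e g r) :=
        Finset.sum_le_sum fun r _ =>
          mul_le_mul_of_nonneg_right (Nw_le j r) (D8_phiK_nonneg τ W k _)
    _ = (2 * Real.sqrt 2) ^ j *
        ∑ r ∈ (Finset.univ : Finset (Fin j → Fin 3)).image (fun w => rd (List.ofFn w)),
          phiK τ W k (ev e g r) := by rw [Finset.mul_sum]
    _ ≤ (2 * Real.sqrt 2) ^ j * 4 ^ k := by
        refine mul_le_mul_of_nonneg_left ?_ (by positivity)
        refine sum_phiK_le h k hI hf _ ?_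
        intro r hr
        obtain ⟨w, _, rfl⟩ := Finset.mem_image.mp hr
        exact red_rd _

end Pool.Agent.H707R.LF
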