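import Pool.Agent.H707F.LF.T_D10
import Pool.Agent.H707F.LF.T_D9
import Pool.Agent.H707R.LF.Defs

set_option autoImplicit false

open scoped InnerProductSpace ComplexOrder BoundedContinuousFunction
open Filter

namespace Pool.Agent.H707R.LF

open Pool.Agent.Helper278 Pool.Agent.Helper436.SM

/-- D11 : the hyperfinite factor contains no corner copy of `L(Z/2 * Z/2 * Z/2)` -/
theorem no_free {A : Type} [Ring A] [StarRing A] [Algebra ℂ A] [StarModule ℂ A]
    {τ : A →ₗ[ℂ] ℂ} {W : VV → A} (h : PH τ W) {e : A} {g : Fin 3 → A}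
    (hI : Inv3 e g) (he : e ≠ 0) (hf : ∀ l, Red l → l ≠ [] → τ (ev e g l) = 0) : False := by
  have h1 : Tendsto (fun k => ∑ s, phiK τ W k (g s)) atTop (nhds (∑ s, n2 τ (g s) ^ 2)) :=
    tendsto_finsetSum _ fun s _ => phiK_tendsto h (g s)
  have h2 : Tendsto (fun k => 2 * Real.sqrt 2 * phiK τ W k e) atTop
      (nhds (2 * Real.sqrt 2 * n2 τ e ^ 2)) := (phiK_tendsto h e).const_mul _
  have h3 : ∑ s, n2 τ (g s) ^ 2 ≤ 2 * Real.sqrt 2 * n2 τ e ^ 2 :=
    le_of_tendsto_of_tendsto' h1 h2 fun k => sum_phiK_gen_le h k hI hf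
  have h4 : ∀ s, n2 τ (g s) ^ 2 = n2 τ e ^ 2 := by
    intro s
    rw [h.tr.n2_sq, h.tr.n2_sq, hI.gs, hI.gg, hI.es, hI.ee]
  simp only [h4, Finset.sum_const, Finset.card_univ, Fintype.card_fin, nsmul_eq_mul] at h3
  have h5 : Real.sqrt 2 < 3 / 2 := by
    rw [Real.sqrt_lt' (by norm_num)]
    norm_num
  have h6 : 0 ≤ n2 τ e ^ 2 := sq_nonneg _
  have h7 : n2 τ e ^ 2 = 0 := by
    push_cast at h3
    nlinarith
  rw [h.tr.n2_sq] at h7
  apply he
  apply h.tr.faithful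
  exact Complex.ext h7 (h.tr.im_zero e)

end Pool.Agent.H707R.LF
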