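import Pool.Agent.H707R.LF.DefsB

/-! Task E2 (helper261): finite models of the operators of the system. -/

set_option autoImplicit false

open scoped Kronecker

namespace Pool.Agent.H707R.LF

open Pool.Agent.Helper278 Pool.Agent.Helper436.SM

namespace E2

section mk

variable {Y : Type} [Fintype Y] [DecidableEq Y]

/-- the monomial matrix `e_j ↦ c j • e_(F j)` -/
def mk (F : Y → Y) (c : Y → ℂ) : Matrix Y Y ℂ := Matrix.of fun i j => if i = F j then c j else 0

theorem mk_mul (F G : Y → Y) (c d : Y → ℂ) :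
    mk F c * mk G d = mk (fun j => F (G j)) (fun j => c (G j) * d j) := by
  ext i j
  simp only [mk, Matrix.mul_apply, Matrix.of_apply]
  rw [Finset.sum_eq_single (G j)]
  · rw [if_pos rfl]
    split_ifs <;> simp
  · intro k _ hk
    rw [if_neg hk, mul_zero]
  · intro h
    exact absurd (Finset.mem_univ _) h

theorem mk_congr {F G : Y → Y} {c d : Y → ℂ} (h : ∀ j, c j = d j ∧ (d j = 0 ∨ F j = G j)) :
    mk F c = mk G d := by
  ext i j
  simp only [mk, Matrix.of_apply]
  obtain ⟨h1, h2⟩ := h j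
  rcases h2 with h2 | h2
  · rw [h1, h2]; simp
  · rw [h1, h2]

theorem one_eq : (1 : Matrix Y Y ℂ) = mk (fun j => j) (fun _ => 1) := by
  ext i j
  simp only [mk, Matrix.of_apply, Matrix.one_apply]

theorem mk_add (F : Y → Y) (c d : Y → ℂ) : mk F c + mk F d = mk F (fun j => c j + d j) := by
  ext i j
  simp only [mk, Matrix.of_apply, Matrix.add_apply]
  split_ifs <;> simp

theorem mk_sub (F : Y → Y) (c d : Y → ℂ) : mk F c - mk F d = mk F (fun j => c j - d j) := by
  ext i j
  simp only [mk, Matrix.of_apply, Matrix.sub_apply]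
  split_ifs <;> simp

theorem mk_neg (F : Y → Y) (c : Y → ℂ) : -mk F c = mk F (fun j => -c j) := by
  ext i j
  simp only [mk, Matrix.of_apply, Matrix.neg_apply]
  split_ifs <;> simp

theorem star_mk {F : Y → Y} {c : Y → ℂ} (hF : ∀ j, F (F j) = j) (hc : ∀ j, star (c (F j)) = c j) :
    star (mk F c) = mk F c := by
  ext i j
  rw [Matrix.star_apply]
  simp only [mk, Matrix.of_apply]
  by_cases h : i = F j
  · have h' : j = F i := by rw [h, hF]
    rw [if_pos h, if_pos h', ← hc j, h]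
  · have h' : ¬ j = F i := fun h' => h (by rw [h', hF])
    rw [if_neg h, if_neg h', star_zero]

theorem inv1_mk {F : Y → Y} {c : Y → ℂ} (hF : ∀ j, F (F j) = j) (hc : ∀ j, star (c (F j)) = c j)
    (h1 : ∀ j, c (F j) * c j = 1) : Inv1 (mk F c) := by
  refine ⟨star_mk hF hc, ?_⟩
  rw [mk_mul, one_eq]
  exact mk_congr fun j => ⟨h1 j, Or.inr (hF j)⟩

end mk

theorem sgn_not (b : Bool) : sgn (!b) = -sgn b := by
  cases b <;> simp [sgn]

theorem sgn_mul_self (b : Bool) : sgn b * sgn b = 1 := by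
  cases b <;> simp [sgn]

theorem star_sgn (b : Bool) : star (sgn b) = sgn b := by
  cases b <;> simp [sgn]

section model

variable {Ω : Type}

/-- the space -/
abbrev YY (Ω : Type) : Type := Ω × Bool × Bool × Bool

def gF (g : Fin 3 → Equiv.Perm Ω) (s : Fin 3) : YY Ω → YY Ω
  | (w, x, α, η) => (g s w, x, α, η)

def XF : YY Ω → YY Ω
  | (w, x, α, η) => (w, !x, α, η)

def aF : YY Ω → YY Ω
  | (w, x, α, η) => (w, x, !α, η)

def PF : YY Ω → YY Ω
  | (w, x, α, η) => (w, x, α, !η)

def SF (Θ : Equiv.Perm (Bool × Ω)) : YY Ω → YY Ω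
  | (w, x, false, η) => ((Θ (x, w)).2, (Θ (x, w)).1, true, η)
  | (w, x, true, η) => ((Θ.symm (x, w)).2, (Θ.symm (x, w)).1, false, η)

def HF (g : Fin 3 → Equiv.Perm Ω) (s : Fin 3) : YY Ω → YY Ω
  | (w, x, false, η) => (g s w, x, false, η)
  | (w, x, true, η) => (g (lsec s x) w, lout s x, true, η)

def bad (b b' : Ω → Bool) : YY Ω → Bool
  | (w, _, false, _) => b w
  | (w, _, true, _) => b' w

def HF' (g : Fin 3 → Equiv.Perm Ω) (b b' : Ω → Bool) (s : Fin 3) (y : YY Ω) : YY Ω :=
  if bad b b' y = true then y else HF g s y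

def ind (b b' : Ω → Bool) (y : YY Ω) : ℂ := if bad b b' y = true then 1 else 0

def sx (y : YY Ω) : ℂ := sgn y.2.1
def sα (y : YY Ω) : ℂ := sgn y.2.2.1
def sη (y : YY Ω) : ℂ := sgn y.2.2.2

variable {g : Fin 3 → Equiv.Perm Ω} {Θ : Equiv.Perm (Bool × Ω)} {b b' : Ω → Bool}

theorem lsec_lout (s : Fin 3) (x : Bool) : lsec s (lout s x) = lsec s x := by
  revert s x; decide

theorem lout_lout (s : Fin 3) (x : Bool) : lout s (lout s x) = x := by
  revert s x; decide

theorem gF_gF (h : Comb g Θ b b') (s : Fin 3) (y : YY Ω) : gF g s (gF g s y) = y := by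
  obtain ⟨w, x, α, η⟩ := y
  simp only [gF, h.gg]

theorem SF_SF (y : YY Ω) : SF Θ (SF Θ y) = y := by
  obtain ⟨w, x, α, η⟩ := y
  cases α <;> simp [SF]

theorem HF_HF (h : Comb g Θ b b') (s : Fin 3) (y : YY Ω) : HF g s (HF g s y) = y := by
  obtain ⟨w, x, α, η⟩ := y
  cases α <;> simp [HF, h.gg, lsec_lout, lout_lout]

theorem bad_HF (h : Comb g Θ b b') (s : Fin 3) (y : YY Ω) :
    bad b b' (HF g s y) = bad b b' y := by
  obtain ⟨w, x, α, η⟩ := y
  cases α <;> simp [HF, bad, h.bg, h.bg']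

theorem bad_HF' (h : Comb g Θ b b') (s : Fin 3) (y : YY Ω) :
    bad b b' (HF' g b b' s y) = bad b b' y := by
  unfold HF'
  split_ifs
  · rfl
  · exact bad_HF h s y

theorem HF'_HF' (h : Comb g Θ b b') (s : Fin 3) (y : YY Ω) :
    HF' g b b' s (HF' g b b' s y) = y := by
  by_cases hb : bad b b' y = true
  · simp [HF', hb]
  · have h1 : HF' g b b' s y = HF g s y := by simp [HF', hb]
    have h2 : ¬ bad b b' (HF g s y) = true := by rwa [bad_HF h]
    rw [h1]
    simp only [HF', if_neg h2]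
    exact HF_HF h s y

theorem bad_SF (h : Comb g Θ b b') (y : YY Ω) : bad b b' (SF Θ y) = bad b b' y := by
  obtain ⟨w, x, α, η⟩ := y
  cases α
  · simp [SF, bad, h.bT]
  · have := h.bT (Θ.symm (x, w))
    rw [Equiv.apply_symm_apply] at this
    simp [SF, bad, this]

theorem SF_HF (h : Comb g Θ b b') (s : Fin 3) (w : Ω) (x η : Bool) (hb : b w = false) :
    SF Θ (HF g s (w, x, false, η)) = HF g s (SF Θ (w, x, false, η)) := by
  simp only [HF, SF]
  rw [h.tw s x w hb]

theorem SF_HF' (h : Comb g Θ b b') (s : Fin 3) (y : YY Ω) :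
    SF Θ (HF' g b b' s y) = HF' g b b' s (SF Θ y) := by
  -- first the points with `α = false`
  have key : ∀ (w : Ω) (x η : Bool),
      SF Θ (HF' g b b' s (w, x, false, η)) = HF' g b b' s (SF Θ (w, x, false, η)) := by
    intro w x η
    by_cases hb : bad b b' (w, x, false, η) = true
    · have h2 : bad b b' (SF Θ (w, x, false, η)) = true := by rw [bad_SF h]; exact hb
      simp only [HF', if_pos hb, if_pos h2]
    · have h2 : ¬ bad b b' (SF Θ (w, x, false, η)) = true := by rw [bad_SF h]; exact hb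
      simp only [HF', if_neg hb, if_neg h2]
      apply SF_HF h
      simpa [bad] using hb
  obtain ⟨w, x, α, η⟩ := y
  cases α
  · exact key w x η
  · obtain ⟨w0, x0, hy⟩ : ∃ w0 x0, SF Θ (w, x, true, η) = (w0, x0, false, η) :=
      ⟨_, _, rfl⟩
    have h1 : SF Θ (w0, x0, false, η) = (w, x, true, η) := by rw [← hy, SF_SF]
    rw [hy, ← h1, ← key w0 x0 η, SF_SF]

end model

section card

variable {Ω : Type} [Fintype Ω] [DecidableEq Ω] [Nonempty Ω]

theorem sum_ind (b b' : Ω → Bool) : ∑ y : YY Ω, ind b b' y =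
    4 * ((Finset.univ.filter (fun ω => b ω = true)).card : ℂ) +
      4 * ((Finset.univ.filter (fun ω => b' ω = true)).card : ℂ) := by
  rw [Fintype.sum_prod_type]
  have h1 : ∀ w : Ω, ∑ y : Bool × Bool × Bool, ind b b' (w, y) =
      4 * (if b w = true then 1 else 0) + 4 * (if b' w = true then 1 else 0) := by
    intro w
    simp only [Fintype.sum_prod_type, Fintype.sum_bool, ind, bad]
    ring_nf
  simp only [h1]
  rw [Finset.sum_add_distrib, ← Finset.mul_sum, ← Finset.mul_sum, Finset.sum_boole,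
    Finset.sum_boole]

end card

end E2

open E2 in
theorem comb_mod {Ω : Type} [Fintype Ω] [DecidableEq Ω] [Nonempty Ω] {g : Fin 3 → Equiv.Perm Ω}
    {Θ : Equiv.Perm (Bool × Ω)} {b b' : Ω → Bool} (h : Comb g Θ b b') (t : ℕ)
    (h1 : 2 ^ t * (Finset.univ.filter (fun ω => b ω = true)).card = Fintype.card Ω)
    (h2 : 2 ^ t * (Finset.univ.filter (fun ω => b' ω = true)).card = Fintype.card Ω) :
    ∃ (g H H' : Fin 3 → Matrix (Ω × Bool × Bool × Bool) (Ω × Bool × Bool × Bool) ℂ)
      (X Z a B P Q S β : Matrix (Ω × Bool × Bool × Bool) (Ω × Bool × Bool × Bool) ℂ),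
      Mod g H H' X Z a B P Q S β ∧ ntr (Ω × Bool × Bool × Bool) β = (1 / 2 ^ t : ℂ) := by
  refine ⟨fun s => mk (gF g s) (fun _ => 1), fun s => mk (HF g s) (fun _ => 1),
    fun s => mk (HF' g b b' s) (fun _ => 1), mk XF (fun _ => 1), mk (fun y => y) sx,
    mk aF (fun _ => 1), mk (fun y => y) sα, mk PF (fun _ => 1), mk (fun y => y) sη,
    mk (SF Θ) (fun _ => 1), mk (fun y => y) (ind b b'), ?_, ?_⟩
  · have perm : ∀ F : YY Ω → YY Ω, (∀ j, F (F j) = j) → Inv1 (mk F (fun _ => (1 : ℂ))) :=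
      fun F hF => inv1_mk hF (fun _ => star_one _) (fun _ => mul_one _)
    have diag : ∀ c : YY Ω → Bool, Inv1 (mk (fun y => y) (fun y => sgn (c y))) :=
      fun c => inv1_mk (fun _ => rfl) (fun _ => star_sgn _) (fun _ => sgn_mul_self _)
    refine
      { ig := fun s => perm _ (gF_gF h s)
        iH := fun s => perm _ (HF_HF h s)
        iH' := fun s => perm _ (HF'_HF' h s)
        iX := perm _ fun ⟨w, x, α, η⟩ => by simp [XF]
        iZ := diag fun y => y.2.1
        ia := perm _ fun ⟨w, x, α, η⟩ => by simp [aF]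
        iB := diag fun y => y.2.2.1
        iP := perm _ fun ⟨w, x, α, η⟩ => by simp [PF]
        iQ := diag fun y => y.2.2.2
        iS := perm _ SF_SF
        gX := ?_, gZ := ?_, ga := ?_, gB := ?_, Xa := ?_, ZB := ?_, XB := ?_, Za := ?_
        XZ := ?_, aB := ?_, SP := ?_, SQ := ?_, QB := ?_, PB := ?_, PQ := ?_, SB := ?_
        SH := ?_, Hp := ?_, H0 := ?_, H0' := ?_, H1 := ?_, H1' := ?_, H2 := ?_
        bs := ?_, bb := ?_, bH := ?_, bH' := ?_, HH := ?_ }
    · intro s; simp only [mk_mul]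
      exact mk_congr fun ⟨w, x, α, η⟩ => ⟨rfl, Or.inr rfl⟩
    · intro s; simp only [mk_mul]
      exact mk_congr fun ⟨w, x, α, η⟩ => ⟨by simp [sx, gF], Or.inr rfl⟩
    · intro s; simp only [mk_mul]
      exact mk_congr fun ⟨w, x, α, η⟩ => ⟨rfl, Or.inr rfl⟩
    · intro s; simp only [mk_mul]
      exact mk_congr fun ⟨w, x, α, η⟩ => ⟨by simp [sα, gF], Or.inr rfl⟩
    · simp only [mk_mul]
      exact mk_congr fun ⟨w, x, α, η⟩ => ⟨rfl, Or.inr rfl⟩
    · simp only [mk_mul]
      exact mk_congr fun ⟨w, x, α, η⟩ => ⟨by simp [sα, sx, mul_comm], Or.inr rfl⟩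
    · simp only [mk_mul]
      exact mk_congr fun ⟨w, x, α, η⟩ => ⟨by simp [sα, XF], Or.inr rfl⟩
    · simp only [mk_mul]
      exact mk_congr fun ⟨w, x, α, η⟩ => ⟨by simp [sx, aF], Or.inr rfl⟩
    · simp only [mk_mul, mk_neg]
      exact mk_congr fun ⟨w, x, α, η⟩ => ⟨by simp [sx, XF, sgn_not], Or.inr rfl⟩
    · simp only [mk_mul, mk_neg]
      exact mk_congr fun ⟨w, x, α, η⟩ => ⟨by simp [sα, aF, sgn_not], Or.inr rfl⟩
    · simp only [mk_mul]
      exact mk_congr fun ⟨w, x, α, η⟩ => ⟨rfl, Or.inr (by cases α <;> rfl)⟩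
    · simp only [mk_mul]
      exact mk_congr fun ⟨w, x, α, η⟩ => ⟨by cases α <;> simp [sη, SF], Or.inr rfl⟩
    · simp only [mk_mul]
      exact mk_congr fun ⟨w, x, α, η⟩ => ⟨by simp [sα, sη, mul_comm], Or.inr rfl⟩
    · simp only [mk_mul]
      exact mk_congr fun ⟨w, x, α, η⟩ => ⟨by simp [sα, PF], Or.inr rfl⟩
    · simp only [mk_mul, mk_neg]
      exact mk_congr fun ⟨w, x, α, η⟩ => ⟨by simp [sη, PF, sgn_not], Or.inr rfl⟩
    · simp only [mk_mul, mk_neg]
      exact mk_congr fun ⟨w, x, α, η⟩ => ⟨by cases α <;> simp [sα, SF, sgn], Or.inr rfl⟩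
    · intro s; simp only [mk_mul]
      exact mk_congr fun y => ⟨rfl, Or.inr (SF_HF' h s y)⟩
    · intro s; rw [one_eq]; simp only [mk_add, mk_mul]
      exact mk_congr fun ⟨w, x, α, η⟩ => ⟨rfl, by cases α <;> simp [sα, sgn, HF, gF]⟩
    · rw [one_eq]; simp only [mk_add, mk_sub, mk_mul]
      exact mk_congr fun ⟨w, x, α, η⟩ =>
        ⟨rfl, by cases α <;> cases x <;> simp [sα, sx, sgn, HF, gF, lsec, lout]⟩
    · rw [one_eq]; simp only [mk_sub, mk_mul]
      exact mk_congr fun ⟨w, x, α, η⟩ =>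
        ⟨rfl, by cases α <;> cases x <;> simp [sα, sx, sgn, HF, gF, lsec, lout]⟩
    · rw [one_eq]; simp only [mk_add, mk_sub, mk_mul]
      exact mk_congr fun ⟨w, x, α, η⟩ =>
        ⟨rfl, by cases α <;> cases x <;> simp [sα, sx, sgn, HF, gF, lsec, lout]⟩
    · rw [one_eq]; simp only [mk_sub, mk_mul]
      exact mk_congr fun ⟨w, x, α, η⟩ =>
        ⟨rfl, by cases α <;> cases x <;> simp [sα, sx, sgn, HF, gF, lsec, lout]⟩
    · rw [one_eq]; simp only [mk_sub, mk_mul]
      exact mk_congr fun ⟨w, x, α, η⟩ =>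
        ⟨by simp, by cases α <;> cases x <;> simp [sα, sgn, HF, gF, XF, lsec, lout]⟩
    · apply star_mk (fun _ => rfl)
      intro j
      simp only [ind]
      split_ifs <;> simp
    · simp only [mk_mul]
      exact mk_congr fun y => ⟨by simp only [ind]; split_ifs <;> simp, Or.inr rfl⟩
    · intro s; simp only [mk_mul]
      exact mk_congr fun y => ⟨by simp only [ind, bad_HF h, one_mul, mul_one], Or.inr rfl⟩
    · intro s; simp only [mk_mul]
      exact mk_congr fun y => ⟨by simp only [ind, bad_HF' h, one_mul, mul_one], Or.inr rfl⟩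
    · intro s; rw [one_eq]; simp only [mk_sub, mk_mul]
      refine mk_congr fun y => ⟨rfl, ?_⟩
      by_cases hb : bad b b' y = true
      · left; simp [ind, hb]
      · right; simp only [HF', if_neg hb]
  · have hc : (Fintype.card Ω : ℂ) ≠ 0 := by
      exact_mod_cast Fintype.card_ne_zero
    have e1 : (2 : ℂ) ^ t * ((Finset.univ.filter (fun ω => b ω = true)).card : ℂ) =
        Fintype.card Ω := by exact_mod_cast h1
    have e2 : (2 : ℂ) ^ t * ((Finset.univ.filter (fun ω => b' ω = true)).card : ℂ) =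
        Fintype.card Ω := by exact_mod_cast h2
    have htr : Matrix.trace (mk (fun y : YY Ω => y) (ind b b')) = ∑ y, ind b b' y := by
      simp only [Matrix.trace, Matrix.diag, mk, Matrix.of_apply, if_true]
    have hcard : (Fintype.card (Ω × Bool × Bool × Bool) : ℂ) = 8 * Fintype.card Ω := by
      simp only [Fintype.card_prod, Fintype.card_bool]
      push_cast
      ring
    rw [ntr, LinearMap.smul_apply, Matrix.traceLinearMap_apply, htr, sum_ind, hcard, smul_eq_mul]
    have h2t : (2 : ℂ) ^ t ≠ 0 := pow_ne_zero _ two_ne_zero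
    rw [inv_mul_eq_div, div_eq_div_iff (mul_ne_zero (by norm_num) hc) h2t, one_mul]
    linear_combination 4 * e1 + 4 * e2

end Pool.Agent.H707R.LF
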