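import Pool.Agent.H707R.LF.DefsB

/-!
Task E4 (by helper403): the observables of a context are commuting symmetries.
-/

set_option autoImplicit false

namespace Pool.Agent.H707R.LF

section E4aux

variable {A : Type} [Ring A] [StarRing A]

theorem E4_one : Inv1 (1 : A) := ⟨star_one A, one_mul 1⟩

theorem E4_mul {x y : A} (hx : Inv1 x) (hy : Inv1 y) (h : x * y = y * x) : Inv1 (x * y) := by
  refine ⟨?_, ?_⟩
  · rw [star_mul, hx.1, hy.1, h]
  · calc x * y * (x * y) = x * (y * x) * y := by simp only [mul_assoc]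
      _ = x * (x * y) * y := by rw [h]
      _ = (x * x) * (y * y) := by simp only [mul_assoc]
      _ = 1 := by rw [hx.2, hy.2, one_mul]

theorem E4_anti {u v w z : A} (h1 : u * w = -(w * u)) (h2 : v * z = -(z * v)) (h3 : v * w = w * v)
    (h4 : u * z = z * u) : u * v * (w * z) = w * z * (u * v) := by
  calc u * v * (w * z) = u * (v * w) * z := by simp only [mul_assoc]
    _ = u * (w * v) * z := by rw [h3]
    _ = (u * w) * (v * z) := by simp only [mul_assoc]
    _ = (w * u) * (z * v) := by rw [h1, h2, neg_mul_neg]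
    _ = w * (u * z) * v := by simp only [mul_assoc]
    _ = w * (z * u) * v := by rw [h4]
    _ = w * z * (u * v) := by simp only [mul_assoc]

end E4aux

section ctx

variable {A : Type} [Ring A] [StarRing A] [Algebra ℂ A] [StarModule ℂ A]

variable {g H H' : Fin 3 → A} {X Z a B P Q S β : A}

/-- E4 -/
theorem cOp_ok (h : Mod g H H' X Z a B P Q S β) (C : Ctx) :
    Inv1 (cOp g H' X Z a B P Q S C).1 ∧ Inv1 (cOp g H' X Z a B P Q S C).2.1 ∧
    Inv1 (cOp g H' X Z a B P Q S C).2.2 ∧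
    (cOp g H' X Z a B P Q S C).1 * (cOp g H' X Z a B P Q S C).2.1 =
      (cOp g H' X Z a B P Q S C).2.1 * (cOp g H' X Z a B P Q S C).1 ∧
    (cOp g H' X Z a B P Q S C).1 * (cOp g H' X Z a B P Q S C).2.2 =
      (cOp g H' X Z a B P Q S C).2.2 * (cOp g H' X Z a B P Q S C).1 ∧
    (cOp g H' X Z a B P Q S C).2.1 * (cOp g H' X Z a B P Q S C).2.2 =
      (cOp g H' X Z a B P Q S C).2.2 * (cOp g H' X Z a B P Q S C).2.1 := by
  have hBa : B * a = -(a * B) := by rw [h.aB, neg_neg]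
  have hQP : Q * P = -(P * Q) := by rw [h.PQ, neg_neg]
  cases C with
  | U s => exact ⟨h.ig s, h.iX, h.ia, h.gX s, h.ga s, h.Xa⟩
  | V s => exact ⟨h.ig s, h.iZ, h.iB, h.gZ s, h.gB s, h.ZB⟩
  | D => exact ⟨h.ig 0, h.iX, h.iB, h.gX 0, h.gB 0, h.XB⟩
  | R3 =>
    exact ⟨E4_mul h.iX h.iB h.XB, E4_mul h.iZ h.ia h.Za, E4_one,
      E4_anti h.XZ hBa h.ZB.symm h.Xa, (mul_one _).trans (one_mul _).symm,
      (mul_one _).trans (one_mul _).symm⟩
  | C2 =>
    exact ⟨h.iZ, h.ia, E4_one, h.Za, (mul_one _).trans (one_mul _).symm,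
      (mul_one _).trans (one_mul _).symm⟩
  | C3 =>
    exact ⟨E4_mul h.iX h.ia h.Xa, E4_mul h.iZ h.iB h.ZB, E4_one,
      E4_anti h.XZ h.aB h.Za.symm h.XB, (mul_one _).trans (one_mul _).symm,
      (mul_one _).trans (one_mul _).symm⟩
  | SP =>
    exact ⟨h.iS, h.iP, E4_one, h.SP, (mul_one _).trans (one_mul _).symm,
      (mul_one _).trans (one_mul _).symm⟩
  | QB =>
    exact ⟨h.iQ, h.iB, E4_one, h.QB, (mul_one _).trans (one_mul _).symm,
      (mul_one _).trans (one_mul _).symm⟩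
  | M1 =>
    exact ⟨E4_mul h.iS h.iQ h.SQ, E4_mul h.iB h.iP h.PB.symm, E4_one,
      E4_anti h.SB hQP h.QB h.SP, (mul_one _).trans (one_mul _).symm,
      (mul_one _).trans (one_mul _).symm⟩
  | SQ =>
    exact ⟨h.iS, h.iQ, E4_one, h.SQ, (mul_one _).trans (one_mul _).symm,
      (mul_one _).trans (one_mul _).symm⟩
  | PB =>
    exact ⟨h.iP, h.iB, E4_one, h.PB, (mul_one _).trans (one_mul _).symm,
      (mul_one _).trans (one_mul _).symm⟩
  | M2 =>
    exact ⟨E4_mul h.iS h.iP h.SP, E4_mul h.iB h.iQ h.QB.symm, E4_one,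
      E4_anti h.SB h.PQ h.PB h.SQ, (mul_one _).trans (one_mul _).symm,
      (mul_one _).trans (one_mul _).symm⟩
  | T s =>
    exact ⟨h.iS, h.iH' s, E4_one, h.SH s, (mul_one _).trans (one_mul _).symm,
      (mul_one _).trans (one_mul _).symm⟩

end ctx

end Pool.Agent.H707R.LF
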