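import Pool.Agent.H707F.LF.T_B1
import Pool.Agent.H707R.LF.DefsB

/-! Task E7: the cube matrices. -/

set_option autoImplicit false

namespace Pool.Agent.H707R.LF

open Pool.Agent.Helper278 Pool.Agent.Helper436.SM

section E7

variable {κ : Type} [Fintype κ] [DecidableEq κ]

private theorem E7_flp_flp (k : κ) (v : κ → Bool) : flp k (flp k v) = v := by
  funext l
  unfold flp
  rcases eq_or_ne l k with rfl | h
  · simp
  · simp [Function.update_of_ne h]

private theorem E7_flp_comm (k l : κ) (v : κ → Bool) : flp k (flp l v) = flp l (flp k v) := by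
  funext j
  unfold flp
  rcases eq_or_ne k l with rfl | h
  · rfl
  · rcases eq_or_ne j k with rfl | h1
    · simp [Function.update_of_ne h]
    · rcases eq_or_ne j l with rfl | h2
      · simp [Function.update_of_ne h1]
      · simp [Function.update_of_ne h1, Function.update_of_ne h2]

private theorem E7_flp_eq (k : κ) (u v : κ → Bool) : u = flp k v ↔ v = flp k u := by
  constructor
  · rintro rfl; rw [E7_flp_flp]
  · rintro rfl; rw [E7_flp_flp]

private theorem E7_flp_inj (k l : κ) (v : κ → Bool) (h : flp k v = flp l v) : k = l := by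
  by_contra hkl
  have h1 := congrFun h k
  unfold flp at h1
  rw [Function.update_self, Function.update_of_ne hkl] at h1
  cases hv : v k <;> simp [hv] at h1

private theorem E7_par_flp (k : κ) (v : κ → Bool) : par (flp k v) = !par v := par_flp k v

/-- the factors of the sign -/
private noncomputable def E7g (k l : κ) (b : Bool) : ℤ :=
  if Fintype.equivFin κ l < Fintype.equivFin κ k ∧ b = true then -1 else 1

/-- the sign -/
private noncomputable def E7s (u : κ → Bool) (k : κ) : ℤ := ∏ l, E7g k l (u l)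

private theorem E7s_flp (u : κ → Bool) (k l : κ) :
    E7s (flp l u) k = if Fintype.equivFin κ l < Fintype.equivFin κ k then - E7s u k
      else E7s u k := by
  unfold E7s
  rw [← Finset.mul_prod_erase Finset.univ _ (Finset.mem_univ l),
    ← Finset.mul_prod_erase Finset.univ (fun j => E7g k j (u j)) (Finset.mem_univ l)]
  have h1 : ∏ j ∈ Finset.univ.erase l, E7g k j (flp l u j) =
      ∏ j ∈ Finset.univ.erase l, E7g k j (u j) := by
    apply Finset.prod_congr rfl
    intro j hj
    have : j ≠ l := Finset.ne_of_mem_erase hj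
    unfold flp
    rw [Function.update_of_ne this]
  rw [h1]
  have h2 : flp l u l = !u l := by unfold flp; simp
  rw [h2]
  unfold E7g
  cases u l <;> split_ifs <;> simp_all

private theorem E7s_sq (u : κ → Bool) (k : κ) : E7s u k * E7s u k = 1 := by
  unfold E7s
  rw [← Finset.prod_mul_distrib]
  apply Finset.prod_eq_one
  intro l _
  unfold E7g
  split_ifs <;> norm_num

private noncomputable def E7N1 (k : κ) : Matrix (κ → Bool) (κ → Bool) ℤ :=
  Matrix.of fun u v => if v = flp k u then E7s u k else 0

private theorem E7N1_mul (k l : κ) (u w : κ → Bool) :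
    (E7N1 k * E7N1 l) u w = if w = flp l (flp k u) then E7s u k * E7s (flp k u) l else 0 := by
  rw [Matrix.mul_apply, Finset.sum_eq_single (flp k u)]
  · simp only [E7N1, Matrix.of_apply, if_true, mul_ite, mul_zero]
  · intro v _ hv
    simp [E7N1, hv]
  · simp

private theorem E7N1_anti (k l : κ) :
    E7N1 k * E7N1 l + E7N1 l * E7N1 k = if k = l then (2 : Matrix (κ → Bool) (κ → Bool) ℤ) else 0 := by
  have h2 : (2 : Matrix (κ → Bool) (κ → Bool) ℤ) = 1 + 1 := by norm_num
  ext u w
  rw [Matrix.add_apply, E7N1_mul, E7N1_mul]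
  rcases eq_or_ne k l with rfl | h
  · rw [if_pos rfl, E7_flp_flp, E7s_flp, if_neg (lt_irrefl _), E7s_sq, h2, Matrix.add_apply,
      Matrix.one_apply]
    simp only [eq_comm]
  · rw [if_neg h, E7_flp_comm l k u]
    have hne : Fintype.equivFin κ k ≠ Fintype.equivFin κ l := fun h' =>
      h ((Fintype.equivFin κ).injective h')
    simp only [Matrix.zero_apply]
    split_ifs with h3
    · rcases lt_or_gt_of_ne hne with h4 | h4
      · rw [E7s_flp, if_pos h4, E7s_flp, if_neg (not_lt.2 h4.le)]; ring
      · rw [E7s_flp, if_neg (not_lt.2 h4.le), E7s_flp, if_pos h4]; ring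
    · rfl

private noncomputable def E7N (κ : Type) [Fintype κ] [DecidableEq κ] :
    Matrix (κ → Bool) (κ → Bool) ℤ := ∑ k, E7N1 k

private theorem E7N_apply (u v : κ → Bool) :
    E7N κ u v = ∑ k, if v = flp k u then E7s u k else 0 := by
  unfold E7N
  rw [Matrix.sum_apply]
  rfl

private theorem E7N_symm (u v : κ → Bool) : E7N κ u v = E7N κ v u := by
  rw [E7N_apply, E7N_apply]
  apply Finset.sum_congr rfl
  intro k _
  by_cases h : v = flp k u
  · rw [if_pos h, if_pos ((E7_flp_eq k v u).1 h), h, E7s_flp, if_neg (lt_irrefl _)]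
  · rw [if_neg h, if_neg (fun h' => h ((E7_flp_eq k u v).1 h'))]

private theorem E7N_sq : E7N κ * E7N κ = (Fintype.card κ : Matrix (κ → Bool) (κ → Bool) ℤ) := by
  have h1 : E7N κ * E7N κ = ∑ k : κ, ∑ l : κ, E7N1 k * E7N1 l := by
    unfold E7N
    rw [Finset.sum_mul_sum]
  have h2 : E7N κ * E7N κ = ∑ k : κ, ∑ l : κ, E7N1 l * E7N1 k := by
    rw [h1, Finset.sum_comm]
  have h3 : E7N κ * E7N κ + E7N κ * E7N κ =
      (Fintype.card κ : Matrix (κ → Bool) (κ → Bool) ℤ) + Fintype.card κ := by
    conv_lhs =>
      congr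
      · rw [h1]
      · rw [h2]
    rw [← Finset.sum_add_distrib]
    simp_rw [← Finset.sum_add_distrib, E7N1_anti]
    simp only [Finset.sum_ite_eq, Finset.mem_univ, if_true, Finset.sum_const, Finset.card_univ,
      nsmul_eq_mul, mul_two]
  ext u v
  have h4 := congrFun (congrFun h3 u) v
  rw [Matrix.add_apply, Matrix.add_apply] at h4
  omega

private theorem E7N_sum (u v : κ → Bool) :
    ∑ c, E7N κ u c * E7N κ v c = if u = v then (Fintype.card κ : ℤ) else 0 := by
  have h := congrFun (congrFun (E7N_sq (κ := κ)) u) v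
  have h' : (Fintype.card κ : Matrix (κ → Bool) (κ → Bool) ℤ) u v =
      if u = v then (Fintype.card κ : ℤ) else 0 := by
    rw [Matrix.natCast_apply]
    split_ifs <;> simp
  rw [Matrix.mul_apply, h'] at h
  rw [← h]
  apply Finset.sum_congr rfl
  intro c _
  rw [E7N_symm v c]

private theorem E7N_ne {u v : κ → Bool} (h : E7N κ u v ≠ 0) : ∃ k, v = flp k u := by
  rw [E7N_apply] at h
  obtain ⟨k, _, hk⟩ := Finset.exists_ne_zero_of_sum_ne_zero h
  refine ⟨k, ?_⟩
  by_contra h'
  exact hk (if_neg h')

private theorem E7N_par {u v : κ → Bool} (h : E7N κ u v ≠ 0) : par v = !par u := by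
  obtain ⟨k, rfl⟩ := E7N_ne h
  exact E7_par_flp k u

private theorem E7N_edge (u : κ → Bool) (k : κ) : E7N κ u (flp k u) = E7s u k := by
  rw [E7N_apply, Finset.sum_eq_single k]
  · simp
  · intro l _ hl
    rw [if_neg]
    intro h
    exact hl (E7_flp_inj k l u h).symm
  · simp

/-- even vertices -/
private abbrev E7E (κ : Type) [Fintype κ] : Type := {v : κ → Bool // par v = false}

private noncomputable def E7M (v : κ → Bool) (a : E7E κ) : ℂ :=
  if par v = false then (if v = a.1 then 1 else 0) else ((E7N κ v a.1 : ℤ) : ℂ)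

private noncomputable def E7c (v : κ → Bool) : ℂ :=
  if par v = false then 1 else (Fintype.card κ : ℂ)⁻¹

private noncomputable def E7G (v : κ → Bool) : Matrix (E7E κ) (E7E κ) ℂ :=
  Matrix.of fun a b => E7c v * (E7M v a * E7M v b)

private noncomputable def E7ip (v w : κ → Bool) : ℂ := ∑ c : E7E κ, E7M v c * E7M w c

private theorem E7ip_comm (v w : κ → Bool) : E7ip v w = E7ip w v := by
  unfold E7ip
  apply Finset.sum_congr rfl
  intro c _
  ring

private theorem E7G_mul (v w : κ → Bool) (a b : E7E κ) :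
    (E7G v * E7G w) a b = E7c v * E7c w * E7ip v w * (E7M v a * E7M w b) := by
  rw [Matrix.mul_apply]
  unfold E7G E7ip
  simp only [Matrix.of_apply]
  rw [Finset.mul_sum, Finset.sum_mul]
  apply Finset.sum_congr rfl
  intro c _
  ring

private theorem E7G_mul3 (v w : κ → Bool) (a b : E7E κ) :
    (E7G v * E7G w * E7G v) a b =
      E7c v * E7c w * E7c v * (E7ip v w * E7ip w v) * (E7M v a * E7M v b) := by
  rw [Matrix.mul_apply]
  simp_rw [E7G_mul]
  unfold E7G
  simp only [Matrix.of_apply]
  have : E7ip w v = ∑ c : E7E κ, E7M w c * E7M v c := rfl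
  rw [this, Finset.mul_sum, Finset.mul_sum, Finset.sum_mul]
  apply Finset.sum_congr rfl
  intro c _
  ring

private theorem E7M_even {v : κ → Bool} (h : par v = false) (a : E7E κ) :
    E7M v a = if a = ⟨v, h⟩ then 1 else 0 := by
  unfold E7M
  rw [if_pos h]
  by_cases h1 : v = a.1
  · rw [if_pos h1, if_pos (Subtype.ext h1.symm)]
  · rw [if_neg h1, if_neg (fun h2 => h1 (by rw [h2]))]

private theorem E7M_odd {v : κ → Bool} (h : par v = true) (a : E7E κ) :
    E7M v a = ((E7N κ v a.1 : ℤ) : ℂ) := by
  unfold E7M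
  rw [if_neg (by rw [h]; decide)]

private theorem E7ip_even {v : κ → Bool} (h : par v = false) (w : κ → Bool) :
    E7ip v w = E7M w ⟨v, h⟩ := by
  unfold E7ip
  rw [Finset.sum_eq_single ⟨v, h⟩]
  · rw [E7M_even h, if_pos rfl, one_mul]
  · intro c _ hc
    rw [E7M_even h, if_neg hc, zero_mul]
  · simp

private theorem E7ip_odd {v w : κ → Bool} (hv : par v = true) (hw : par w = true) :
    E7ip v w = if v = w then (Fintype.card κ : ℂ) else 0 := by
  have h1 : E7ip v w = ((∑ c : E7E κ, E7N κ v c.1 * E7N κ w c.1 : ℤ) : ℂ) := by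
    unfold E7ip
    push_cast
    apply Finset.sum_congr rfl
    intro c _
    rw [E7M_odd hv, E7M_odd hw]
  have h2 : ∑ c : E7E κ, E7N κ v c.1 * E7N κ w c.1 = ∑ c, E7N κ v c * E7N κ w c := by
    rw [← Finset.sum_subtype (Finset.univ.filter fun c : κ → Bool => par c = false)
      (fun x => by simp) (fun c => E7N κ v c * E7N κ w c)]
    apply Finset.sum_filter_of_ne
    intro c _ hc
    have := E7N_par (left_ne_zero_of_mul hc)
    rw [this, hv]; rfl
  rw [h1, h2, E7N_sum]
  split_ifs <;> simp

private theorem E7_card_ne [Nonempty κ] : (Fintype.card κ : ℂ) ≠ 0 := by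
  exact_mod_cast Fintype.card_ne_zero

private theorem E7ip_self [Nonempty κ] (v : κ → Bool) : E7c v * E7ip v v = 1 := by
  cases h : par v
  · rw [E7ip_even h, E7M_even h, if_pos rfl]
    unfold E7c
    rw [if_pos h, one_mul]
  · rw [E7ip_odd h h, if_pos rfl]
    unfold E7c
    rw [if_neg (by rw [h]; decide), inv_mul_cancel₀ E7_card_ne]

private theorem E7ip_ne {v w : κ → Bool} (hvw : v ≠ w) (h : par v = par w) : E7ip v w = 0 := by
  cases hv : par v
  · rw [E7ip_even hv, E7M_even (by rw [← h, hv])]
    rw [if_neg]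
    intro h'
    exact hvw (congrArg Subtype.val h')
  · rw [E7ip_odd hv (by rw [← h, hv]), if_neg hvw]

private theorem E7ip_adj {v w : κ → Bool} (h : par v ≠ par w) : (∃ k, w = flp k v) ∨
    E7ip v w = 0 := by
  by_contra hc
  push Not at hc
  obtain ⟨h1, h2⟩ := hc
  cases hv : par v
  · have hw : par w = true := by
      cases hw : par w
      · exact absurd (hv.trans hw.symm) h
      · rfl
    rw [E7ip_even hv, E7M_odd hw] at h2
    obtain ⟨k, hk⟩ := E7N_ne (Int.cast_ne_zero.1 h2)
    exact h1 k ((E7_flp_eq k v w).1 hk)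
  · have hw : par w = false := by
      cases hw : par w
      · rfl
      · exact absurd (hv.trans hw.symm) h
    rw [E7ip_comm, E7ip_even hw, E7M_odd hv] at h2
    obtain ⟨k, hk⟩ := E7N_ne (Int.cast_ne_zero.1 h2)
    exact h1 k hk

private theorem E7ip_edge {v : κ → Bool} (h : par v = false) (k : κ) :
    E7ip v (flp k v) * E7ip (flp k v) v = 1 := by
  have h1 : par (flp k v) = true := by rw [E7_par_flp, h]; rfl
  rw [E7ip_comm (flp k v) v, E7ip_even h, E7M_odd h1, E7N_symm, E7N_edge]
  exact_mod_cast E7s_sq v k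

private theorem E7_sum_even :
    ∑ v ∈ Finset.univ.filter (fun v : κ → Bool => par v = false), E7G v = 1 := by
  ext a b
  rw [Matrix.sum_apply, Matrix.one_apply]
  rw [Finset.sum_eq_single a.1]
  · unfold E7G E7c
    simp only [Matrix.of_apply]
    rw [if_pos a.2, E7M_even a.2, E7M_even a.2, if_pos rfl, one_mul, one_mul]
    by_cases h : a = b
    · rw [if_pos h, if_pos h.symm]
    · rw [if_neg h, if_neg (fun h' => h h'.symm)]
  · intro v hv hva
    have hv' : par v = false := by simpa using hv
    unfold E7G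
    simp only [Matrix.of_apply]
    rw [E7M_even hv', if_neg]
    · ring
    · intro h
      exact hva (by rw [h])
  · intro h
    refine absurd ?_ h
    rw [Finset.mem_filter]
    exact ⟨Finset.mem_univ _, a.2⟩

private theorem E7_sum_odd [Nonempty κ] :
    ∑ v ∈ Finset.univ.filter (fun v : κ → Bool => par v = true), E7G v = 1 := by
  ext a b
  rw [Matrix.sum_apply, Matrix.one_apply]
  have h1 : ∀ v ∈ Finset.univ.filter (fun v : κ → Bool => par v = true), E7G v a b =
      (Fintype.card κ : ℂ)⁻¹ * ((E7N κ v a.1 * E7N κ v b.1 : ℤ) : ℂ) := by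
    intro v hv
    have hv' : par v = true := by simpa using hv
    unfold E7G E7c
    simp only [Matrix.of_apply]
    rw [if_neg (by rw [hv']; decide), E7M_odd hv', E7M_odd hv']
    push_cast
    ring
  rw [Finset.sum_congr rfl h1, ← Finset.mul_sum, ← Int.cast_sum]
  have h2 : ∑ v ∈ Finset.univ.filter (fun v : κ → Bool => par v = true),
      E7N κ v a.1 * E7N κ v b.1 = ∑ v, E7N κ a.1 v * E7N κ b.1 v := by
    rw [Finset.sum_filter_of_ne]
    · apply Finset.sum_congr rfl
      intro v _
      rw [E7N_symm v a.1, E7N_symm v b.1]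
    · intro v _ hv
      rw [E7N_symm v a.1] at hv
      have := E7N_par (left_ne_zero_of_mul hv)
      rw [this, a.2]; rfl
  rw [h2, E7N_sum]
  by_cases h3 : a = b
  · rw [if_pos (by rw [h3]), if_pos h3]
    push_cast
    exact inv_mul_cancel₀ E7_card_ne
  · rw [if_neg (fun h => h3 (Subtype.ext h)), if_neg h3]
    simp

private theorem E7_HG [Nonempty κ] : HG (E7G (κ := κ)) where
  sa v := by
    ext a b
    rw [Matrix.star_apply]
    have hM : ∀ a : E7E κ, star (E7M v a) = E7M v a := by
      intro a
      unfold E7M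
      split_ifs <;> simp
    have hc : star (E7c v) = E7c v := by
      unfold E7c
      split_ifs <;> simp
    unfold E7G
    simp only [Matrix.of_apply]
    rw [star_mul', star_mul', hM, hM, hc]
    ring
  idem v := by
    ext a b
    rw [E7G_mul]
    unfold E7G
    simp only [Matrix.of_apply]
    rw [mul_assoc (E7c v) (E7c v), E7ip_self, mul_one]
  orth v w h1 h2 := by
    ext a b
    rw [E7G_mul, E7ip_ne h1 h2]
    simp
  sum b := by
    cases b
    · exact E7_sum_even
    · exact E7_sum_odd
  nonadj v w h1 h2 := by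
    ext a b
    rw [E7G_mul]
    rcases E7ip_adj h1 with ⟨k, hk⟩ | h
    · exact absurd hk (h2 k)
    · rw [h]; simp

end E7

/-- E7 -/
theorem exists_cube (κ : Type) [Fintype κ] [DecidableEq κ] [Nonempty κ] :
    ∃ G : (κ → Bool) → Matrix {v : κ → Bool // par v = false} {v : κ → Bool // par v = false} ℂ,
      HG G ∧ ∀ k, zO G k = ((Fintype.card κ : ℂ)⁻¹) • (1 : Matrix _ _ ℂ) := by
  refine ⟨E7G, E7_HG, fun k => ?_⟩
  have h1 : ∀ v ∈ Finset.univ.filter (fun v : κ → Bool => par v = false),
      E7G v * E7G (flp k v) * E7G v = (Fintype.card κ : ℂ)⁻¹ • E7G v := by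
    intro v hv
    have hv' : par v = false := by simpa using hv
    ext a b
    rw [E7G_mul3, E7ip_edge hv', mul_one, Matrix.smul_apply]
    unfold E7G E7c
    simp only [Matrix.of_apply]
    rw [if_pos hv', if_neg (by rw [E7_par_flp, hv']; decide), smul_eq_mul]
    ring
  unfold zO
  rw [Finset.sum_congr rfl h1, ← Finset.smul_sum, E7_sum_even]

end Pool.Agent.H707R.LF
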