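import Pool.Agent.H707R.LF.DefsB

set_option autoImplicit false

open scoped Kronecker

namespace Pool.Agent.H707R.LF

open Pool.Agent.Helper436.SM

/-! ### strings on the first `k` places -/

/-- the string with entries `(x i, z i)`, `i < k` -/
noncomputable def e8vec {k : ℕ} (x z : Fin k → ZMod 2) : VV :=
  ∑ i : Fin k, Finsupp.single (i : ℕ) (x i, z i)

theorem e8vec_add {k : ℕ} (x z x' z' : Fin k → ZMod 2) :
    e8vec x z + e8vec x' z' = e8vec (x + x') (z + z') := by
  unfold e8vec
  rw [← Finset.sum_add_distrib]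
  refine Finset.sum_congr rfl fun i _ => ?_
  rw [← Finsupp.single_add]
  rfl

theorem e8vec_apply {k : ℕ} (x z : Fin k → ZMod 2) (i : Fin k) : e8vec x z (i : ℕ) = (x i, z i) := by
  unfold e8vec
  rw [Finsupp.finsetSum_apply, Finset.sum_eq_single i]
  · exact Finsupp.single_eq_same
  · intro j _ hj
    exact Finsupp.single_eq_of_ne (fun h => hj (Fin.ext h).symm)
  · intro h; exact absurd (Finset.mem_univ i) h

theorem e8bf_single (i : ℕ) (c : ZMod 2 × ZMod 2) (w : VV) :
    bf (Finsupp.single i c) w = c.2 * (w i).1 := by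
  unfold bf
  rw [Finsupp.sum_single_index]
  simp

theorem e8bf_sum {J : Type} (s : Finset J) (f : J → VV) (w : VV) :
    bf (∑ j ∈ s, f j) w = ∑ j ∈ s, bf (f j) w := by
  classical
  induction s using Finset.induction_on with
  | empty => simp [bf_zero_left]
  | insert a s ha ih => rw [Finset.sum_insert ha, Finset.sum_insert ha, bf_add_left, ih]

/-- the dot product -/
def e8dot {k : ℕ} (x y : Fin k → ZMod 2) : ZMod 2 := ∑ i, x i * y i

theorem e8bf_vec {k : ℕ} (x z x' z' : Fin k → ZMod 2) :
    bf (e8vec x z) (e8vec x' z') = e8dot z x' := by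
  conv_lhs => unfold e8vec
  rw [e8bf_sum]
  refine Finset.sum_congr rfl fun i _ => ?_
  rw [e8bf_single]
  have h := e8vec_apply x' z' i
  unfold e8vec at h
  rw [h]

theorem e8dot_add_left {k : ℕ} (x y z : Fin k → ZMod 2) :
    e8dot (x + y) z = e8dot x z + e8dot y z := by
  unfold e8dot
  rw [← Finset.sum_add_distrib]
  exact Finset.sum_congr rfl fun i _ => add_mul _ _ _

theorem e8dot_add_right {k : ℕ} (x y z : Fin k → ZMod 2) :
    e8dot x (y + z) = e8dot x y + e8dot x z := by
  unfold e8dot
  rw [← Finset.sum_add_distrib]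
  exact Finset.sum_congr rfl fun i _ => mul_add _ _ _

theorem e8dot_comm {k : ℕ} (x y : Fin k → ZMod 2) : e8dot x y = e8dot y x :=
  Finset.sum_congr rfl fun i _ => mul_comm _ _

theorem e8_self {k : ℕ} (x : Fin k → ZMod 2) : x + x = 0 := by
  funext i
  exact CharTwo.add_self_eq_zero (x i)

theorem e8vec_eq_zero {k : ℕ} (x z : Fin k → ZMod 2) : e8vec x z = 0 ↔ x = 0 ∧ z = 0 := by
  constructor
  · intro h
    have h' : ∀ i : Fin k, (x i, z i) = (0, 0) := by
      intro i
      rw [← e8vec_apply x z i, h]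
      rfl
    exact ⟨funext fun i => (Prod.ext_iff.1 (h' i)).1, funext fun i => (Prod.ext_iff.1 (h' i)).2⟩
  · rintro ⟨rfl, rfl⟩
    unfold e8vec
    refine Finset.sum_eq_zero fun i _ => ?_
    exact Finsupp.single_zero _

/-- orthogonality of the characters -/
theorem e8_orth {k : ℕ} (a : Fin k → ZMod 2) :
    (∑ z : Fin k → ZMod 2, sg (e8dot z a)) = if a = 0 then (2:ℂ) ^ k else 0 := by
  split_ifs with h
  · subst h
    have : ∀ z : Fin k → ZMod 2, sg (e8dot z 0) = 1 := by
      intro z
      have : e8dot z 0 = 0 := Finset.sum_eq_zero fun _ _ => by simp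
      rw [this]; rfl
    simp [this]
  · obtain ⟨i, hi⟩ : ∃ i, a i ≠ 0 := by
      by_contra hcon
      push Not at hcon
      exact h (funext hcon)
    have hi1 : a i = 1 := by
      have : ∀ c : ZMod 2, c ≠ 0 → c = 1 := by decide
      exact this _ hi
    have hs : e8dot (Pi.single i 1) a = 1 := by
      unfold e8dot
      rw [Finset.sum_eq_single i]
      · rw [Pi.single_eq_same, hi1, one_mul]
      · intro j _ hj
        rw [Pi.single_eq_of_ne hj, zero_mul]
      · intro h; exact absurd (Finset.mem_univ i) h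
    have hone : sg (1 : ZMod 2) = -1 := by
      unfold sg
      rw [if_neg (by decide)]
    have hz : ∀ z : Fin k → ZMod 2, sg (e8dot z a) = - sg (e8dot (z + Pi.single i 1) a) := by
      intro z
      rw [e8dot_add_left, hs, sg_add, hone]; ring
    have hflip : (∑ z : Fin k → ZMod 2, sg (e8dot z a)) = ∑ z : Fin k → ZMod 2, - sg (e8dot z a) :=
      Fintype.sum_equiv (Equiv.addRight (Pi.single i (1 : ZMod 2) : Fin k → ZMod 2)) _ _ hz
    rw [Finset.sum_neg_distrib] at hflip
    exact self_eq_neg.1 hflip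

section units

variable {A : Type} [Ring A] [StarRing A] [Algebra ℂ A] [StarModule ℂ A]
  {τ : A →ₗ[ℂ] ℂ} {W : VV → A}

/-- the matrix units -/
noncomputable def e8u (W : VV → A) {k : ℕ} (s t : Fin k → ZMod 2) : A :=
  ((2:ℂ) ^ k)⁻¹ • ∑ z : Fin k → ZMod 2, sg (e8dot z t) • W (e8vec (s + t) z)

theorem e8u_star (hW : PauliSys τ W) {k : ℕ} (s t : Fin k → ZMod 2) :
    star (e8u W s t) = e8u W t s := by
  unfold e8u
  rw [star_smul, star_sum]
  have h2 : star (((2:ℂ) ^ k)⁻¹) = ((2:ℂ) ^ k)⁻¹ := by simp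
  rw [h2]
  congr 1
  refine Finset.sum_congr rfl fun z _ => ?_
  rw [star_smul, hW.star, smul_smul, star_sg, ← sg_add, e8bf_vec, ← e8dot_add_right]
  have h1 : t + (s + t) = s := by
    rw [add_comm s t, ← add_assoc, e8_self, zero_add]
  rw [h1, add_comm s t]

theorem e8u_mul (hW : PauliSys τ W) {k : ℕ} (s t u v : Fin k → ZMod 2) :
    e8u W s t * e8u W u v = if t = u then e8u W s v else 0 := by
  unfold e8u
  rw [smul_mul_smul_comm, Finset.sum_mul_sum]
  have h1 : ∀ z w : Fin k → ZMod 2,
      (sg (e8dot z t) • W (e8vec (s + t) z)) * (sg (e8dot w v) • W (e8vec (u + v) w))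
        = (sg (e8dot z (t + u)) * sg (e8dot (z + w) v)) •
          W (e8vec (s + t + (u + v)) (z + w)) := by
    intro z w
    rw [smul_mul_smul_comm, hW.mul, e8bf_vec, e8vec_add, smul_smul]
    congr 1
    rw [e8dot_add_right, e8dot_add_right, e8dot_add_left, sg_add, sg_add, sg_add]
    have := sg_mul_self (e8dot z v)
    ring
  simp_rw [h1]
  have h2 : ∀ z : Fin k → ZMod 2, (∑ w : Fin k → ZMod 2,
      (sg (e8dot z (t + u)) * sg (e8dot (z + w) v)) • W (e8vec (s + t + (u + v)) (z + w)))
      = ∑ y : Fin k → ZMod 2, (sg (e8dot z (t + u)) * sg (e8dot y v)) •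
        W (e8vec (s + t + (u + v)) y) := by
    intro z
    exact Fintype.sum_equiv (Equiv.addLeft z) _ _ fun w => rfl
  simp_rw [h2]
  rw [Finset.sum_comm]
  have h3 : ∀ y : Fin k → ZMod 2, (∑ z : Fin k → ZMod 2, (sg (e8dot z (t + u)) * sg (e8dot y v)) •
        W (e8vec (s + t + (u + v)) y))
      = ((if t = u then (2:ℂ) ^ k else 0) * sg (e8dot y v)) • W (e8vec (s + t + (u + v)) y) := by
    intro y
    rw [← Finset.sum_smul, ← Finset.sum_mul, e8_orth]
    congr 2
    have : t + u = 0 ↔ t = u := by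
      constructor
      · intro h
        have := congrArg (· + u) h
        simpa [add_assoc, e8_self] using this
      · rintro rfl; exact e8_self t
    simp [this]
  simp_rw [h3]
  split_ifs with htu
  · subst htu
    have h4 : s + t + (t + v) = s + v := by
      rw [add_assoc, ← add_assoc t t v, e8_self, zero_add]
    rw [h4]
    simp_rw [mul_smul]
    have h5 : (2:ℂ) ^ k ≠ 0 := pow_ne_zero k two_ne_zero
    rw [← Finset.smul_sum, inv_smul_smul₀ h5]
  · simp

theorem e8u_sum (hW : PauliSys τ W) (k : ℕ) : ∑ s : Fin k → ZMod 2, e8u W s s = 1 := by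
  unfold e8u
  rw [← Finset.smul_sum, Finset.sum_comm]
  have h1 : ∀ z : Fin k → ZMod 2, (∑ s : Fin k → ZMod 2, sg (e8dot z s) • W (e8vec (s + s) z))
      = (if z = 0 then (2:ℂ) ^ k else 0) • W (e8vec 0 z) := by
    intro z
    rw [← e8_orth, Finset.sum_smul]
    refine Finset.sum_congr rfl fun s _ => ?_
    rw [e8_self, e8dot_comm]
  simp_rw [h1]
  rw [Finset.sum_eq_single 0]
  · rw [if_pos rfl, (e8vec_eq_zero (0 : Fin k → ZMod 2) 0).2 ⟨rfl, rfl⟩, hW.zero, smul_smul,
      inv_mul_cancel₀ (pow_ne_zero k two_ne_zero), one_smul]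
  · intro z _ hz
    rw [if_neg hz, zero_smul]
  · intro h; exact absurd (Finset.mem_univ _) h

theorem e8u_trace (hW : PauliSys τ W) {k : ℕ} (s t : Fin k → ZMod 2) :
    τ (e8u W s t) = if s = t then ((2:ℂ) ^ k)⁻¹ else 0 := by
  unfold e8u
  rw [map_smul, map_sum]
  have h1 : ∀ z : Fin k → ZMod 2, τ (sg (e8dot z t) • W (e8vec (s + t) z))
      = if z = 0 then (if s = t then 1 else 0) else 0 := by
    intro z
    rw [map_smul, hW.trace]
    have : s + t = 0 ↔ s = t := by
      constructor
      · intro h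
        have := congrArg (· + t) h
        simpa [add_assoc, e8_self] using this
      · rintro rfl; exact e8_self s
    by_cases hz : z = 0
    · subst hz
      by_cases hst : s = t
      · rw [if_pos ((e8vec_eq_zero _ _).2 ⟨this.2 hst, rfl⟩), if_pos rfl, if_pos hst]
        have : e8dot (0 : Fin k → ZMod 2) t = 0 := Finset.sum_eq_zero fun i _ => by simp
        rw [this]
        simp [sg]
      · rw [if_neg (fun h => hst (this.1 ((e8vec_eq_zero _ _).1 h).1)), if_pos rfl, if_neg hst,
          smul_zero]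
    · rw [if_neg (fun h => hz ((e8vec_eq_zero _ _).1 h).2), if_neg hz, smul_zero]
  simp_rw [h1]
  rw [Finset.sum_ite_eq' Finset.univ (0 : Fin k → ZMod 2), if_pos (Finset.mem_univ _)]
  split_ifs <;> simp

/-- a system of matrix units defines a homomorphism -/
noncomputable def e8hom {Y : Type} [Fintype Y] [DecidableEq Y] (E : Y → Y → A)
    (hs : ∀ a b, star (E a b) = E b a)
    (hm : ∀ a b c d, E a b * E c d = if b = c then E a d else 0)
    (h1 : ∑ a, E a a = 1) : Matrix Y Y ℂ →⋆ₐ[ℂ] A where
  toFun x := ∑ a, ∑ b, x a b • E a b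
  map_one' := by
    rw [← h1]
    refine Finset.sum_congr rfl fun a _ => ?_
    rw [Finset.sum_eq_single a]
    · rw [Matrix.one_apply_eq, one_smul]
    · intro b _ hb
      rw [Matrix.one_apply_ne' hb, zero_smul]
    · intro h; exact absurd (Finset.mem_univ _) h
  map_mul' x y := by
    rw [Finset.sum_mul]
    refine Finset.sum_congr rfl fun a _ => ?_
    rw [Finset.sum_mul]
    have e1 : ∀ b, (x a b • E a b) * (∑ c, ∑ d, y c d • E c d) = ∑ d, (x a b * y b d) • E a d := by
      intro b
      rw [Finset.mul_sum, Finset.sum_eq_single b]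
      · rw [Finset.mul_sum]
        refine Finset.sum_congr rfl fun d _ => ?_
        rw [smul_mul_smul_comm, hm, if_pos rfl]
      · intro c _ hc
        rw [Finset.mul_sum]
        refine Finset.sum_eq_zero fun d _ => ?_
        rw [smul_mul_smul_comm, hm, if_neg (Ne.symm hc), smul_zero]
      · intro h; exact absurd (Finset.mem_univ _) h
    simp_rw [e1]
    rw [Finset.sum_comm]
    refine Finset.sum_congr rfl fun d _ => ?_
    rw [Matrix.mul_apply, Finset.sum_smul]
  map_zero' := by simp
  map_add' x y := by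
    rw [← Finset.sum_add_distrib]
    refine Finset.sum_congr rfl fun a _ => ?_
    rw [← Finset.sum_add_distrib]
    refine Finset.sum_congr rfl fun b _ => ?_
    rw [Matrix.add_apply, add_smul]
  commutes' r := by
    rw [Algebra.algebraMap_eq_smul_one (A := A), ← h1, Finset.smul_sum]
    refine Finset.sum_congr rfl fun a _ => ?_
    rw [Finset.sum_eq_single a]
    · rw [Matrix.algebraMap_matrix_apply, if_pos rfl]; rfl
    · intro b _ hb
      rw [Matrix.algebraMap_matrix_apply, if_neg (Ne.symm hb), zero_smul]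
    · intro h; exact absurd (Finset.mem_univ _) h
  map_star' x := by
    rw [star_sum, Finset.sum_comm]
    refine Finset.sum_congr rfl fun a _ => ?_
    rw [star_sum]
    refine Finset.sum_congr rfl fun b _ => ?_
    rw [star_smul, hs]
    rfl

end units

/-- E8 -/
theorem exists_hom {A : Type} [Ring A] [StarRing A] [Algebra ℂ A] [StarModule ℂ A]
    {τ : A →ₗ[ℂ] ℂ} {W : VV → A} (hW : PauliSys τ W) (Y : Type) [Fintype Y] [DecidableEq Y]
    (k : ℕ) (hk : Fintype.card Y = 2 ^ k) :
    ∃ Φ : Matrix Y Y ℂ →⋆ₐ[ℂ] A, ∀ x, τ (Φ x) = ntr Y x := by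
  have hcard : Fintype.card Y = Fintype.card (Fin k → ZMod 2) := by
    rw [hk, Fintype.card_fun, Fintype.card_fin, ZMod.card]
  let f : Y ≃ (Fin k → ZMod 2) := Fintype.equivOfCardEq hcard
  refine ⟨e8hom (fun a b => e8u W (f a) (f b)) (fun a b => e8u_star hW _ _)
    (fun a b c d => ?_) ?_, fun x => ?_⟩
  · rw [e8u_mul hW]
    simp only [f.injective.eq_iff]
  · rw [← e8u_sum hW k]
    exact Fintype.sum_equiv f _ _ fun a => rfl
  · show τ (∑ a, ∑ b, x a b • e8u W (f a) (f b)) = _
    rw [map_sum]
    simp_rw [map_sum, map_smul, e8u_trace hW, f.injective.eq_iff]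
    unfold ntr
    rw [LinearMap.smul_apply, Matrix.traceLinearMap_apply, Matrix.trace, hk, smul_eq_mul,
      Finset.mul_sum]
    refine Finset.sum_congr rfl fun a _ => ?_
    rw [Finset.sum_eq_single a]
    · rw [if_pos rfl, smul_eq_mul, mul_comm, Matrix.diag_apply]
      push_cast
      rfl
    · intro b _ hb
      rw [if_neg (Ne.symm hb), smul_zero]
    · intro h; exact absurd (Finset.mem_univ _) h

end Pool.Agent.H707R.LF
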