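import Pool.Agent.H707R.LF.DefsB

set_option autoImplicit false

open scoped Kronecker

namespace Pool.Agent.H707R.LF

open Pool.Agent.Helper278 Pool.Agent.Helper436.SM

private theorem e9_mul {Y E : Type} [Fintype Y] [Fintype E]
    (a c : Matrix Y Y ℂ) (b d : Matrix E E ℂ) :
    (a ⊗ₖ b) * (c ⊗ₖ d) = (a * c) ⊗ₖ (b * d) := (Matrix.mul_kronecker_mul a c b d).symm

private theorem e9_sum_l {Y E ι : Type} (s : Finset ι) (f : ι → Matrix Y Y ℂ) (b : Matrix E E ℂ) :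
    ∑ i ∈ s, (f i ⊗ₖ b) = (∑ i ∈ s, f i) ⊗ₖ b := by
  ext ⟨i, j⟩ ⟨k, l⟩
  simp [Matrix.sum_apply, Matrix.kroneckerMap_apply, Finset.sum_mul]

private theorem e9_sum_r {Y E ι : Type} (s : Finset ι) (a : Matrix Y Y ℂ) (f : ι → Matrix E E ℂ) :
    ∑ i ∈ s, (a ⊗ₖ f i) = a ⊗ₖ (∑ i ∈ s, f i) := by
  ext ⟨i, j⟩ ⟨k, l⟩
  simp [Matrix.sum_apply, Matrix.kroneckerMap_apply, Finset.mul_sum]

/-- E9 -/
theorem kron_HP {Y E κ : Type} [Fintype Y] [DecidableEq Y] [Fintype E] [DecidableEq E]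
    [Fintype κ] [DecidableEq κ] {n : Ctx → Out → Matrix Y Y ℂ} (hn : ∀ C, Pvm 1 (n C))
    (hs : ∀ C o, star (n C o) = n C o) {G : (κ → Bool) → Matrix E E ℂ} (hG : HG G)
    (ℓ : (κ → Bool) → Ctx) :
    HP (fun v o => n (ℓ v) o ⊗ₖ G v) ∧
      (∀ v w o o', par v ≠ par w → (∀ k, w ≠ flp k v) →
        (n (ℓ v) o ⊗ₖ G v) * (n (ℓ w) o' ⊗ₖ G w) = 0) ∧
      ∀ k, zO (vG (fun v o => n (ℓ v) o ⊗ₖ G v)) k = (1 : Matrix Y Y ℂ) ⊗ₖ zO G k := by
  have hv : ∀ v, ∑ o, (n (ℓ v) o ⊗ₖ G v) = (1 : Matrix Y Y ℂ) ⊗ₖ G v := by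
    intro v
    rw [e9_sum_l, (hn (ℓ v)).sum]
  refine ⟨⟨?_, ?_, ?_, ?_⟩, ?_, ?_⟩
  · intro v o
    have h1 := hs (ℓ v) o
    have h2 := hG.sa v
    rw [Matrix.star_eq_conjTranspose] at h1 h2 ⊢
    rw [Matrix.conjTranspose_kronecker, h1, h2]
  · intro v o
    rw [e9_mul, hG.idem, (hn (ℓ v)).idem]
  · intro v w o o' hne hp
    by_cases hvw : v = w
    · subst hvw
      have ho : o ≠ o' := by
        rcases hne with h | h
        · exact absurd rfl h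
        · exact h
      simp only [e9_mul]
      rw [(hn (ℓ v)).orth _ _ ho, Matrix.zero_kronecker]
    · simp only [e9_mul]
      rw [hG.orth v w hvw hp, Matrix.kronecker_zero]
  · intro b
    rw [Finset.sum_congr rfl (fun v _ => hv v), e9_sum_r, hG.sum, Matrix.one_kronecker_one]
  · intro v w o o' hp hk
    rw [e9_mul, hG.nonadj v w hp hk, Matrix.kronecker_zero]
  · intro k
    have hvG : ∀ v, vG (fun v o => n (ℓ v) o ⊗ₖ G v) v = (1 : Matrix Y Y ℂ) ⊗ₖ G v := fun v => hv v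
    unfold zO
    rw [Finset.sum_congr rfl (fun v _ => by rw [hvG, hvG, e9_mul, e9_mul, one_mul, one_mul]),
      e9_sum_r]

/-- E9 -/
theorem ntr_kron {Y E : Type} [Fintype Y] [Fintype E] (x : Matrix Y Y ℂ) (y : Matrix E E ℂ) :
    ntr (Y × E) (x ⊗ₖ y) = ntr Y x * ntr E y := by
  simp only [ntr, LinearMap.smul_apply, Matrix.traceLinearMap_apply, Matrix.trace_kronecker,
    Fintype.card_prod, Nat.cast_mul, smul_eq_mul, mul_inv]
  ring

end Pool.Agent.H707R.LF
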