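import Pool.Agent.H707R.LF.DefsB

set_option autoImplicit false

open scoped InnerProductSpace ComplexOrder

namespace Pool.Agent.H707R.LF

open Pool.Agent.Helper278 Pool.Agent.Helper436.SM Pool.Agent.Helper436.SM.ExR

/-- F1 -/
theorem PH_NP : PH ExR.TP.τ (fun v => (⟨ExR.Wo v, ExR.Wo_mem v⟩ : Elt ExR.NP)) := by
  refine ⟨trAlg ExR.TP, ?_, ?_⟩
  · refine ⟨?_, ?_, ?_, ?_⟩
    · apply Subtype.ext
      exact Wo_zero
    · intro v w
      apply Subtype.ext
      exact Wo_mul v w
    · intro v
      apply Subtype.ext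
      exact star_Wo v
    · intro v
      show ⟪bb 0, Wo v (bb 0)⟫_ℂ = _
      rw [Wo_bb, coef_bb, bb_apply]
      simp only [eq_comm]
  · intro x
    have h1 : n2 TP.τ x ^ 2 = (trP (star x * x)).re := by
      show (Real.sqrt (trP (star x * x)).re) ^ 2 = _
      refine Real.sq_sqrt ?_
      exact (parseval_P x).nonneg fun v => sq_nonneg _
    rw [h1]
    exact parseval_P x

end Pool.Agent.H707R.LF
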