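import Pool.Agent.H707F.LF.T_B1
import Pool.Agent.H707F.LF.T_F3
import Pool.Agent.H707R.LF.DefsB
import Pool.Agent.H800R.LFA.Defs

set_option autoImplicit false

open scoped Kronecker Topology
open Filter

namespace Pool.Agent.H707R.LF

open Pool.Agent.Helper278 Pool.Agent.Helper436.SM

/-- index type of the even vertices -/
abbrev EvI (m : ℕ) : Type := {v : Kap m → Bool // par v = false} × Out

/-- index type of the odd vertices -/
abbrev OdI (m : ℕ) : Type := {v : Kap m → Bool // par v = true} × Out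

/-- the zero pattern -/
def ZsF {m : ℕ} (f : (Fin m → Bool) → Ctx) (i : EvI m) (j : OdI m) : Prop :=
  (∀ k, j.1.1 ≠ flp k i.1.1) ∨
    ∃ k, j.1.1 = flp k i.1.1 ∧ Bad (lab f i.1.1) i.2 (lab f j.1.1) j.2

theorem bad_symm {C C' : Ctx} {o o' : Out} (h : Bad C o C' o') : Bad C' o' C o := by
  rcases h with ⟨h1, h2⟩ | ⟨x, v, v', h1, h2, h3⟩
  · exact Or.inl ⟨h1.symm, h2.symm⟩
  · exact Or.inr ⟨x, v', v, h2, h1, h3.symm⟩

theorem flp_flp {κ : Type} [DecidableEq κ] (k : κ) (v : κ → Bool) : flp k (flp k v) = v := by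
  unfold flp
  funext j
  by_cases h : j = k
  · subst h; simp
  · simp [h]

/-- restriction of a family satisfying `HP` to the even vertices -/
theorem HP.pvm_even {m : ℕ} {A : Type} [Ring A] [StarRing A] {r : (Kap m → Bool) → Out → A}
    (h : HP r) (b : Bool) :
    PVM (fun i : {v : Kap m → Bool // par v = b} × Out => r i.1.1 i.2) where
  star_eq i := h.sa _ _
  idem i := h.idem _ _
  orth i j hij := by
    refine h.orth _ _ _ _ ?_ (by rw [i.1.2, j.1.2])
    by_contra hc
    push Not at hc
    exact hij (Prod.ext (Subtype.ext hc.1) hc.2)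
  sum := by
    rw [Fintype.sum_prod_type]
    have h1 := h.sum b
    rw [Finset.sum_filter] at h1
    rw [← h1, ← Finset.sum_filter]
    exact (Finset.sum_subtype (Finset.univ.filter (fun v : Kap m → Bool => par v = b))
      (by simp) (fun v => ∑ o, r v o)).symm

/-- gluing two partitions -/
def glueR {m : ℕ} {A : Type} (p : EvI m → A) (q : OdI m → A) (v : Kap m → Bool) (o : Out) : A :=
  if h : par v = true then q (⟨v, h⟩, o) else p (⟨v, by simpa using h⟩, o)

theorem glueR_even {m : ℕ} {A : Type} (p : EvI m → A) (q : OdI m → A)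
    (v : {v : Kap m → Bool // par v = false}) (o : Out) : glueR p q v.1 o = p (v, o) := by
  unfold glueR
  rw [dif_neg (by rw [v.2]; simp)]

theorem glueR_odd {m : ℕ} {A : Type} (p : EvI m → A) (q : OdI m → A)
    (v : {v : Kap m → Bool // par v = true}) (o : Out) : glueR p q v.1 o = q (v, o) := by
  unfold glueR
  rw [dif_pos v.2]

theorem glueR_HC {m : ℕ} {f : (Fin m → Bool) → Ctx} {A : Type} [Ring A] [StarRing A]
    {p : EvI m → A} {q : OdI m → A} (hp : PVM p) (hq : PVM q)
    (hpq : ∀ i j, ZsF f i j → p i * q j = 0) : HC (lab f) (glueR p q) := by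
  have hqp : ∀ i j, ZsF f i j → q j * p i = 0 := by
    intro i j hij
    have := congrArg star (hpq i j hij)
    rwa [star_mul, hp.star_eq, hq.star_eq, star_zero] at this
  refine ⟨⟨?_, ?_, ?_, ?_⟩, ?_, ?_⟩
  · intro v o
    cases h : par v
    · rw [glueR_even p q ⟨v, h⟩]; exact hp.star_eq _
    · rw [glueR_odd p q ⟨v, h⟩]; exact hq.star_eq _
  · intro v o
    cases h : par v
    · rw [glueR_even p q ⟨v, h⟩]; exact hp.idem _
    · rw [glueR_odd p q ⟨v, h⟩]; exact hq.idem _
  · intro v w o o' hne hpar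
    cases h : par v
    · rw [glueR_even p q ⟨v, h⟩, glueR_even p q ⟨w, hpar ▸ h⟩]
      apply hp.orth
      intro hc
      rw [Prod.mk.injEq, Subtype.mk.injEq] at hc
      rcases hne with hne | hne
      · exact hne hc.1
      · exact hne hc.2
    · rw [glueR_odd p q ⟨v, h⟩, glueR_odd p q ⟨w, hpar ▸ h⟩]
      apply hq.orth
      intro hc
      rw [Prod.mk.injEq, Subtype.mk.injEq] at hc
      rcases hne with hne | hne
      · exact hne hc.1
      · exact hne hc.2
  · intro b
    cases b
    · rw [Finset.sum_subtype (Finset.univ.filter (fun v : Kap m → Bool => par v = false))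
        (p := fun v => par v = false) (by simp)]
      rw [← hp.sum, Fintype.sum_prod_type]
      refine Finset.sum_congr rfl fun v _ => Finset.sum_congr rfl fun o _ => ?_
      rw [glueR_even]
    · rw [Finset.sum_subtype (Finset.univ.filter (fun v : Kap m → Bool => par v = true))
        (p := fun v => par v = true) (by simp)]
      rw [← hq.sum, Fintype.sum_prod_type]
      refine Finset.sum_congr rfl fun v _ => Finset.sum_congr rfl fun o _ => ?_
      rw [glueR_odd]
  · intro v w o o' hpar hna
    cases h : par v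
    · have hw : par w = true := by
        cases hw : par w
        · exact absurd (h.trans hw.symm) hpar
        · rfl
      rw [glueR_even p q ⟨v, h⟩, glueR_odd p q ⟨w, hw⟩]
      exact hpq _ _ (Or.inl hna)
    · have hw : par w = false := by
        cases hw : par w
        · rfl
        · exact absurd (h.trans hw.symm) hpar
      rw [glueR_odd p q ⟨v, h⟩, glueR_even p q ⟨w, hw⟩]
      refine hqp _ _ (Or.inl ?_)
      intro k hk
      refine hna k ?_
      have : v = flp k w := hk
      rw [this, flp_flp]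
  · intro v k o o' hb
    cases h : par v
    · have hw : par (flp k v) = true := by rw [par_flp, h]; rfl
      rw [glueR_even p q ⟨v, h⟩, glueR_odd p q ⟨flp k v, hw⟩]
      exact hpq _ _ (Or.inr ⟨k, rfl, hb⟩)
    · have hw : par (flp k v) = false := by rw [par_flp, h]; rfl
      rw [glueR_odd p q ⟨v, h⟩, glueR_even p q ⟨flp k v, hw⟩]
      exact hqp _ _ (Or.inr ⟨k, (flp_flp k v).symm, bad_symm hb⟩)

/-- the bad pattern in the hyperfinite factor -/
theorem exists_badPattern : ∃ (I J : Type) (_ : Fintype I) (_ : Fintype J) (Zs : I → J → Prop)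
    (p : ℕ → I → Elt ExR.NP) (q : ℕ → J → Elt ExR.NP) (δ : ℝ),
    Pool.Agent.H800R.LFA.BadPattern ExR.TP Zs p q δ := by
  obtain ⟨m, f, δ, hδ, hr⟩ := core
  choose r hHP hna hbad hex using fun n : ℕ => hr (1 / ((n : ℝ) + 1)) (by positivity)
  refine ⟨EvI m, OdI m, inferInstance, inferInstance, ZsF f, fun n i => r n i.1.1 i.2,
    fun n j => r n j.1.1 j.2, δ, ?_, ?_, ?_, hδ, ?_⟩
  · exact fun n => (hHP n).pvm_even false
  · exact fun n => (hHP n).pvm_even true
  · intro i j hij
    have hlim : Tendsto (fun n : ℕ => 1 / ((n : ℝ) + 1)) atTop (𝓝 0) :=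
      tendsto_one_div_add_atTop_nhds_zero_nat
    refine squeeze_zero_norm ?_ hlim
    intro n
    rcases hij with hij | ⟨k, hk, hb⟩
    · rw [hna n i.1.1 j.1.1 i.2 j.2 (by rw [i.1.2, j.1.2]; simp) hij, map_zero, norm_zero]
      positivity
    · rw [hk] at hb ⊢
      exact hbad n _ _ _ _ hb
  · intro n p' q' hp' hq' hpq h1 h2
    obtain ⟨v, o, hvo⟩ := hex n (glueR p' q') (glueR_HC hp' hq' hpq)
    have hT := trAlg ExR.TP
    rw [hT.n2_sub_comm] at hvo
    cases h : par v
    · rw [glueR_even p' q' ⟨v, h⟩] at hvo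
      exact absurd (h1 (⟨v, h⟩, o)) (not_lt.2 hvo)
    · rw [glueR_odd p' q' ⟨v, h⟩] at hvo
      exact absurd (h2 (⟨v, h⟩, o)) (not_lt.2 hvo)

end Pool.Agent.H707R.LF
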