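import Pool.Agent.H707F.LF.Final

/-!
The negative answers, for a tracial von Neumann algebra `(N, τ)`.
-/

set_option autoImplicit false

namespace Pool.Agent.H707F.LF

open Pool.Agent.Helper278 Pool.Agent.Helper436.SM

section defs

variable {H : Type} [NormedAddCommGroup H] [InnerProductSpace ℂ H] [CompleteSpace H]

/-- `τ` is a faithful normal tracial state on `N` -/
def IsTrace (N : VonNeumannAlgebra H) (τ : Elt N → ℂ) : Prop :=
  IsNormalPositive N τ ∧ IsFaithfulTrace τ

/-- independent unitaries of all tracial ultrapowers of `(N, τ)` have independent unitary lifts -/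
def Lifts (N : VonNeumannAlgebra H) (τ : Elt N → ℂ) : Prop :=
  LiftsIndependentPairs (Elt N) τ

/-- for every nonprincipal ultrafilter and every model of the ultrapower of `(N, τ)` there are
independent unitaries such that all bounded lifts are dependent for almost all indices -/
def Fails (N : VonNeumannAlgebra H) (τ : Elt N → ℂ) : Prop :=
  Pool.Agent.H800R.LFA.IndepLiftingFails (Elt N) τ

/-- `3`-independent unitaries of all tracial ultrapowers of `(N, τ)` have `2`-independent unitary
lifts (cumulative reading) -/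
def Lifts3 (N : VonNeumannAlgebra H) (τ : Elt N → ℂ) : Prop :=
  LiftsKIndependentPairs 3 (Elt N) τ

/-- for every nonprincipal ultrafilter and every model of the ultrapower of `(N, τ)` there are
`3`-independent unitaries such that no bounded lifts are `2`-independent for almost all indices -/
def Fails3 (N : VonNeumannAlgebra H) (τ : Elt N → ℂ) : Prop :=
  LiftingFails 3 (Elt N) τ

end defs

theorem fails : ∃ (K : Type) (_ : NormedAddCommGroup K) (_ : InnerProductSpace ℂ K)
    (_ : CompleteSpace K) (N : VonNeumannAlgebra K) (τ : Elt N → ℂ),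
    IsTrace N τ ∧ Fails N τ ∧ ¬ Lifts N τ := by
  obtain ⟨K, i1, i2, i3, N, τ, r, h1, h2, h3, h4, -, h6, -⟩ :=
    Pool.Agent.H707R.LF.lifting_fails
  exact ⟨K, i1, i2, i3, N, τ, ⟨h1, h2⟩, h4, h6⟩

theorem fails3 : ∃ (K : Type) (_ : NormedAddCommGroup K) (_ : InnerProductSpace ℂ K)
    (_ : CompleteSpace K) (N : VonNeumannAlgebra K) (τ : Elt N → ℂ),
    IsTrace N τ ∧ Fails3 N τ ∧ ¬ Lifts3 N τ := by
  obtain ⟨K, i1, i2, i3, N, τ, r, h1, h2, h3, -, h5, -, h7⟩ :=
    Pool.Agent.H707R.LF.lifting_fails
  exact ⟨K, i1, i2, i3, N, τ, ⟨h1, h2⟩, h5, h7⟩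

end Pool.Agent.H707F.LF
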